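import Mathlib

/-!
Derivation trees of context-free grammars, unambiguous grammars, contexts, and the pair
languages used to show that the cylinder of unambiguous context-free languages is not principal.
-/

set_option autoImplicit false

namespace Pool.Agent.Helper450.NP

/-- Derivation forests, written as binary trees (first child, next sibling). -/
inductive T (α N : Type) : Type
  | nil : T α N
  | tm (a : α) (f : T α N) : T α N
  | nd (r : ContextFreeRule α N) (t f : T α N) : T α N

namespace T

variable {α N : Type}

/-- The word of terminals of a forest. -/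
def yield : T α N → List α
  | nil => []
  | tm a f => a :: f.yield
  | nd _ t f => t.yield ++ f.yield

/-- The rules of a forest in preorder. -/
def rules : T α N → List (ContextFreeRule α N)
  | nil => []
  | tm _ f => f.rules
  | nd r t f => r :: (t.rules ++ f.rules)

end T

variable {α N : Type}

/-- `Ok P t s`: the forest `t` is a derivation forest for the sentential form `s`. -/
inductive Ok (P : Set (ContextFreeRule α N)) : T α N → List (Symbol α N) → Prop
  | nil : Ok P .nil []
  | tm (a : α) (f : T α N) (s : List (Symbol α N)) :
      Ok P f s → Ok P (.tm a f) (.terminal a :: s)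
  | nd (r : ContextFreeRule α N) (t f : T α N) (s : List (Symbol α N)) :
      r ∈ P → Ok P t r.output → Ok P f s → Ok P (.nd r t f) (.nonterminal r.input :: s)

/-- The sentential form `s` generates the terminal word `w`. -/
def Gen (P : Set (ContextFreeRule α N)) (s : List (Symbol α N)) (w : List α) : Prop :=
  ∃ t, Ok P t s ∧ t.yield = w

/-- Every word has at most one derivation tree with root `S`. -/
def Una (P : Set (ContextFreeRule α N)) (S : N) : Prop :=
  ∀ t t', Ok P t [.nonterminal S] → Ok P t' [.nonterminal S] → t.yield = t'.yield → t = t'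

/-- Unambiguous context-free languages. -/
def UCFL (L : Language α) : Prop :=
  ∃ (N : Type) (_ : Finite N) (S : N) (P : Set (ContextFreeRule α N)), P.Finite ∧
    (∀ w, w ∈ L ↔ Gen P [.nonterminal S] w) ∧ Una P S

/-- `Cx P A U B V`: the nonterminal `A` derives `U B V`. -/
inductive Cx (P : Set (ContextFreeRule α N)) : N → List α → N → List α → Prop
  | refl (A : N) : Cx P A [] A []
  | step (r : ContextFreeRule α N) (s1 s2 : List (Symbol α N)) (B : N) (w1 w2 : List α)
      (U : List α) (C : N) (V : List α) :
      r ∈ P → r.output = s1 ++ .nonterminal B :: s2 → Gen P s1 w1 → Gen P s2 w2 →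
      Cx P B U C V → Cx P r.input (w1 ++ U) C (V ++ w2)

/-! ### The pair languages -/

/-- The word `x $ y`. -/
def wd {X Γ : Type} (x : List X) (y : List Γ) : List (Option (X ⊕ Γ)) :=
  x.map (fun a => some (Sum.inl a)) ++ none :: y.map (fun c => some (Sum.inr c))

/-- The word `φ(x) E`. -/
def out {X Γ : Type} (φ : X → List Γ) (E : List Γ) (x : List X) : List Γ :=
  x.flatMap φ ++ E

/-- The union of the two pair languages. -/
def K {X Γ Q : Type} (A : DFA X Q) (φ : Bool → X → List Γ) (E : Bool → List Γ) :
    Language (Option (X ⊕ Γ)) :=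
  {w | ∃ i, ∃ x ∈ A.accepts, w = wd x (out (φ i) (E i) x).reverse}

/-- The two pair languages are disjoint. -/
def Disj {X Γ Q : Type} (A : DFA X Q) (φ : Bool → X → List Γ) (E : Bool → List Γ) : Prop :=
  ∀ x ∈ A.accepts, out (φ false) (E false) x ≠ out (φ true) (E true) x

/-! ### Items and certificates -/

/-- Items `(u, A, v)`: the nonterminal `A` still has to produce `u ... v`. -/
abbrev Item (B N : Type) : Type := List B × N × List B

/-- The image of a word of right letters. -/
def rimg {X Γ B : Type} (f : Option (X ⊕ Γ) → List B) (y : List Γ) : List B :=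
  y.flatMap (fun c => f (some (Sum.inr c)))

/-- One move of items: `s` is appended on the left, `t` on the right, and a context is split off. -/
def Move {B : Type} (P : Set (ContextFreeRule B N)) (a b : Item B N) (s t : List B) : Prop :=
  ∃ U V, Cx P a.2.1 U b.2.1 V ∧ a.1 ++ s = U ++ b.1 ∧ t ++ a.2.2 = b.2.2 ++ V

/-- The item can be completed with the middle word `z`. -/
def Final {B : Type} (P : Set (ContextFreeRule B N)) (a : Item B N) (z : List B) : Prop :=
  Gen P [.nonterminal a.2.1] (a.1 ++ z ++ a.2.2)

/-- A finite certificate that all words `x $ (φ(x) E)^R` are generated with bounded delay. -/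
def Cert {X Γ Q B : Type} (P : Set (ContextFreeRule B N)) (S : N) (A : DFA X Q)
    (f : Option (X ⊕ Γ) → List B) (φ : X → List Γ) (E : List Γ) : Prop :=
  ∃ F : List (Q × List (Item B N)), (A.start, [([], S, [])]) ∈ F ∧
    (∀ c ∈ F, ∀ a : X, ∃ c' ∈ F, c'.1 = A.step c.1 a ∧
      ∀ b' ∈ c'.2, ∃ b ∈ c.2, Move P b b' (f (some (Sum.inl a))) (rimg f (φ a).reverse)) ∧
    (∀ c ∈ F, c.1 ∈ A.accept → ∃ b ∈ c.2, Final P b (f none ++ rimg f E.reverse))

end Pool.Agent.Helper450.NP
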