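import Mathlib
import Pool.Agent.Helper450.NP.Base

set_option autoImplicit false

/-!
Derivation trees of context-free grammars, unambiguous grammars, contexts, and the pair
languages used to show that the cylinder of unambiguous context-free languages is not principal.
-/

namespace Pool.Agent.Helper450.NP

variable {α N : Type}


/-! #### Auxiliary construction for `inter_dfa` -/

/-- The annotated sentential form of a forest. -/
def form {σ : Type} (M : DFA α σ) : σ → T α N → List (Symbol α (Option (σ × N × σ)))
  | _, .nil => []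
  | p, .tm a f => .terminal a :: form M (M.step p a) f
  | p, .nd r t f =>
      .nonterminal (some (p, r.input, M.evalFrom p t.yield)) :: form M (M.evalFrom p t.yield) f

/-- The annotated forest. -/
def ann {σ : Type} (M : DFA α σ) : σ → T α N → T α (Option (σ × N × σ))
  | _, .nil => .nil
  | p, .tm a f => .tm a (ann M (M.step p a) f)
  | p, .nd r t f =>
      .nd ⟨some (p, r.input, M.evalFrom p t.yield), form M p t⟩ (ann M p t)
        (ann M (M.evalFrom p t.yield) f)

/-- `Pth M p s q s'`: `s'` annotates `s` from state `p` to state `q`. -/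
inductive Pth {σ : Type} (M : DFA α σ) :
    σ → List (Symbol α N) → σ → List (Symbol α (Option (σ × N × σ))) → Prop
  | nil (p : σ) : Pth M p [] p []
  | tm (p : σ) (a : α) (s : List (Symbol α N)) (q : σ)
      (s' : List (Symbol α (Option (σ × N × σ)))) :
      Pth M (M.step p a) s q s' → Pth M p (.terminal a :: s) q (.terminal a :: s')
  | nt (p p1 : σ) (X : N) (s : List (Symbol α N)) (q : σ)
      (s' : List (Symbol α (Option (σ × N × σ)))) :
      Pth M p1 s q s' →
        Pth M p (.nonterminal X :: s) q (.nonterminal (some (p, X, p1)) :: s')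

/-- The new rules. -/
def newP {σ : Type} (M : DFA α σ) (P : Set (ContextFreeRule α N)) (S : N) :
    Set (ContextFreeRule α (Option (σ × N × σ))) :=
  {r | (∃ q ∈ M.accept, r = ⟨none, [.nonterminal (some (M.start, S, q))]⟩) ∨
    ∃ r0 ∈ P, ∃ p q s', Pth M p r0.output q s' ∧ r = ⟨some (p, r0.input, q), s'⟩}

/-- Strip a symbol. -/
def ss {σ : Type} (S : N) : Symbol α (Option (σ × N × σ)) → Symbol α N
  | .terminal a => .terminal a
  | .nonterminal none => .nonterminal S
  | .nonterminal (some x) => .nonterminal x.2.1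

/-- Strip a nonterminal. -/
def sn {σ : Type} (S : N) : Option (σ × N × σ) → N
  | none => S
  | some x => x.2.1

/-- Strip a forest. -/
def strip {σ : Type} (S : N) : T α (Option (σ × N × σ)) → T α N
  | .nil => .nil
  | .tm a f => .tm a (strip S f)
  | .nd r t f => .nd ⟨sn S r.input, r.output.map (ss S)⟩ (strip S t) (strip S f)

theorem Pth.length {σ : Type} {M : DFA α σ} {p q : σ} {s : List (Symbol α N)}
    {s' : List (Symbol α (Option (σ × N × σ)))} (h : Pth M p s q s') :
    s'.length = s.length := by
  induction h with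
  | nil p => rfl
  | tm p a s q s' _ ih => simp [ih]
  | nt p p1 X s q s' _ ih => simp [ih]

theorem Pth.map {σ : Type} {M : DFA α σ} {p q : σ} {s : List (Symbol α N)}
    {s' : List (Symbol α (Option (σ × N × σ)))} (h : Pth M p s q s') (S : N) :
    s'.map (ss S) = s := by
  induction h with
  | nil p => rfl
  | tm p a s q s' _ ih => simp [ih, ss]
  | nt p p1 X s q s' _ ih => simp [ih, ss]

theorem newP_finite {σ : Type} [Finite α] [Finite σ] [Finite N] (M : DFA α σ)
    (P : Set (ContextFreeRule α N)) (S : N) (hP : P.Finite) : (newP M P S).Finite := by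
  obtain ⟨b, hb⟩ := (hP.image (fun r => r.output.length)).bddAbove
  have hsym : Finite (Symbol α (Option (σ × N × σ))) := by
    let g : Symbol α (Option (σ × N × σ)) → α ⊕ Option (σ × N × σ)
      | .terminal a => Sum.inl a
      | .nonterminal x => Sum.inr x
    refine Finite.of_injective g ?_
    intro x y hxy
    cases x <;> cases y <;> simp_all [g]
  have hfin : ((Set.univ : Set (Option (σ × N × σ))) ×ˢ
      {l : List (Symbol α (Option (σ × N × σ))) | l.length ≤ max 1 b}).Finite :=
    Set.finite_univ.prod (List.finite_length_le _ _)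
  have hpre := hfin.preimage (f := fun r : ContextFreeRule α (Option (σ × N × σ)) =>
      (r.input, r.output)) (by
    intro x _ y _ hxy
    cases x; cases y
    simp only [Prod.mk.injEq] at hxy
    obtain ⟨h1, h2⟩ := hxy
    subst h1; subst h2; rfl)
  refine hpre.subset ?_
  intro r hr
  simp only [Set.mem_preimage, Set.mem_prod, Set.mem_univ, true_and]
  show r.output.length ≤ max 1 b
  rcases hr with ⟨q, _, rfl⟩ | ⟨r0, hr0, p, q, s', hs', rfl⟩
  · simp
  · have h1 : r0.output.length ≤ b := hb (Set.mem_image_of_mem _ hr0)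
    have h2 := hs'.length
    simp only
    omega

theorem ann_ok {σ : Type} (M : DFA α σ) (P : Set (ContextFreeRule α N)) (S : N)
    {t : T α N} {s : List (Symbol α N)} (h : Ok P t s) :
    ∀ p : σ, Pth M p s (M.evalFrom p t.yield) (form M p t) ∧
      Ok (newP M P S) (ann M p t) (form M p t) ∧ (ann M p t).yield = t.yield := by
  induction h with
  | nil =>
    intro p
    exact ⟨Pth.nil p, Ok.nil, rfl⟩
  | tm a f s hf ih =>
    intro p
    obtain ⟨h1, h2, h3⟩ := ih (M.step p a)
    refine ⟨Pth.tm _ _ _ _ _ ?_, Ok.tm _ _ _ h2, ?_⟩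
    · simpa [T.yield] using h1
    · simp [ann, T.yield, h3]
  | nd r t f s hr ht hf iht ihf =>
    intro p
    obtain ⟨h1, h2, h3⟩ := iht p
    obtain ⟨k1, k2, k3⟩ := ihf (M.evalFrom p t.yield)
    refine ⟨?_, ?_, ?_⟩
    · simp only [form, T.yield, DFA.evalFrom_of_append]
      exact Pth.nt _ _ _ _ _ _ k1
    · simp only [form, ann]
      refine Ok.nd ⟨some (p, r.input, M.evalFrom p t.yield), form M p t⟩ _ _ _ ?_ h2 k2
      exact Or.inr ⟨r, hr, p, _, _, h1, rfl⟩
    · simp [ann, T.yield, h3, k3]

theorem strip_ok {σ : Type} (M : DFA α σ) (P : Set (ContextFreeRule α N)) (S : N)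
    {t' : T α (Option (σ × N × σ))} {s' : List (Symbol α (Option (σ × N × σ)))}
    (h : Ok (newP M P S) t' s') :
    ∀ (p q : σ) (s : List (Symbol α N)), Pth M p s q s' →
      Ok P (strip S t') s ∧ (strip S t').yield = t'.yield ∧ q = M.evalFrom p t'.yield ∧
        t' = ann M p (strip S t') ∧ s' = form M p (strip S t') := by
  induction h with
  | nil =>
    intro p q s hp
    cases hp
    exact ⟨Ok.nil, rfl, rfl, rfl, rfl⟩
  | tm a f s' hf ih =>
    intro p q s hp
    cases hp with
    | tm _ _ s0 _ _ h0 =>
      obtain ⟨h1, h2, h3, h4, h5⟩ := ih _ _ _ h0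
      refine ⟨Ok.tm _ _ _ h1, ?_, ?_, ?_, ?_⟩
      · simp [strip, T.yield, h2]
      · simpa [T.yield] using h3
      · simp only [strip, ann]
        rw [← h4]
      · simp only [strip, form]
        rw [← h5]
  | nd r t f s' hr ht hf iht ihf =>
    intro p q s hp
    obtain ⟨rin, rout⟩ := r
    simp only at ht iht hp
    cases hp with
    | nt _ p1 X s0 _ _ h0 =>
      rcases hr with ⟨q0, _, hq0⟩ | ⟨r0, hr0, p0, q0, s0', hs0', hq0⟩
      · simp at hq0
      · simp only [ContextFreeRule.mk.injEq, Option.some.injEq, Prod.mk.injEq] at hq0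
        obtain ⟨⟨rfl, rfl, rfl⟩, rfl⟩ := hq0
        obtain ⟨h1, h2, h3, h4, h5⟩ := iht _ _ _ hs0'
        obtain ⟨k1, k2, k3, k4, k5⟩ := ihf _ _ _ h0
        have hmap := hs0'.map S
        have hr0' : (⟨r0.input, rout.map (ss S)⟩ : ContextFreeRule α N) = r0 := by
          rw [hmap]
        refine ⟨?_, ?_, ?_, ?_, ?_⟩
        · have := Ok.nd r0 (strip S t) (strip S f) s0 hr0 h1 k1
          simp only [strip, sn, hr0']
          exact this
        · simp [strip, T.yield, h2, k2]
        · simp only [T.yield, DFA.evalFrom_of_append]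
          rw [← h3]; exact k3
        · simp only [strip, sn, ann]
          rw [h2, ← h3, ← h4, ← k4, ← h5]
        · simp only [strip, sn, form]
          rw [h2, ← h3, ← k5]

theorem inter_dfa {α σ : Type} [Finite α] [Finite σ] (M : DFA α σ) {L : Language α}
    (h : UCFL L) : UCFL ({w | w ∈ L ∧ w ∈ M.accepts} : Language α) := by
  obtain ⟨N, hN, S, P, hP, hL, hU⟩ := h
  -- trees with root `none`
  have key : ∀ t', Ok (newP M P S) t' [.nonterminal (none : Option (σ × N × σ))] →
      ∃ t : T α N, Ok P t [.nonterminal S] ∧ t.yield = t'.yield ∧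
        M.evalFrom M.start t.yield ∈ M.accept ∧
        t' = .nd ⟨none, [.nonterminal (some (M.start, S, M.evalFrom M.start t.yield))]⟩
          (ann M M.start t) .nil := by
    intro t' ht'
    generalize hs : [Symbol.nonterminal (none : Option (σ × N × σ))] = s' at ht'
    cases ht' with
    | nil => simp at hs
    | tm a f s h => simp at hs
    | nd r t f s hr ht hf =>
      simp only [List.cons.injEq, Symbol.nonterminal.injEq] at hs
      obtain ⟨hin, rfl⟩ := hs
      cases hf
      rcases hr with ⟨q, hq, rfl⟩ | ⟨r0, hr0, p0, q0, s0', hs0', rfl⟩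
      · simp only at ht
        obtain ⟨h1, h2, h3, h4, h5⟩ := strip_ok M P S ht M.start q [.nonterminal S]
          (Pth.nt _ _ _ _ _ _ (Pth.nil q))
        have h3' : q = M.evalFrom M.start (strip S t).yield := by rw [h2]; exact h3
        refine ⟨strip S t, h1, ?_, ?_, ?_⟩
        · simp [T.yield, h2]
        · rw [← h3']; exact hq
        · rw [← h3', ← h4]
      · simp at hin
  refine ⟨Option (σ × N × σ), inferInstance, none, newP M P S, newP_finite M P S hP, ?_, ?_⟩
  · intro w
    constructor
    · rintro ⟨hw1, hw2⟩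
      obtain ⟨t, ht, rfl⟩ := (hL w).1 hw1
      obtain ⟨h1, h2, h3⟩ := ann_ok M P S ht M.start
      have hw2' : M.evalFrom M.start t.yield ∈ M.accept := hw2
      refine ⟨.nd ⟨none, [.nonterminal (some (M.start, S, M.evalFrom M.start t.yield))]⟩
          (ann M M.start t) .nil, ?_, ?_⟩
      · refine Ok.nd ⟨none, _⟩ _ _ _ (Or.inl ⟨_, hw2', rfl⟩) ?_ Ok.nil
        show Ok (newP M P S) (ann M M.start t)
          [.nonterminal (some (M.start, S, M.evalFrom M.start t.yield))]
        have hform : form M M.start t =
            [.nonterminal (some (M.start, S, M.evalFrom M.start t.yield))] := by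
          generalize form M M.start t = F at h1
          generalize M.evalFrom M.start t.yield = q at h1
          cases h1 with
          | nt _ p1 _ _ _ s' h => cases h; rfl
        rw [← hform]; exact h2
      · simp [T.yield, h3]
    · rintro ⟨t', ht', rfl⟩
      obtain ⟨t, h1, h2, h3, h4⟩ := key t' ht'
      rw [← h2]
      exact ⟨(hL _).2 ⟨t, h1, rfl⟩, h3⟩
  · intro t1 t2 h1 h2 hy
    obtain ⟨u1, a1, b1, c1, d1⟩ := key t1 h1
    obtain ⟨u2, a2, b2, c2, d2⟩ := key t2 h2
    have : u1 = u2 := hU _ _ a1 a2 (by rw [b1, b2, hy])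
    rw [d1, d2, this]

end Pool.Agent.Helper450.NP
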