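import Mathlib
import Pool.Agent.Helper450.NP.Base

set_option autoImplicit false

/-!
Derivation trees of context-free grammars, unambiguous grammars, contexts, and the pair
languages used to show that the cylinder of unambiguous context-free languages is not principal.
-/

namespace Pool.Agent.Helper450.NP

variable {α N : Type}


/-! ### insertion of letters -/

section Insertion

variable {A B N : Type}

theorem Ok.nil_inv {α N : Type} {P : Set (ContextFreeRule α N)} {t : T α N} (h : Ok P t []) :
    t = .nil := by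
  cases h
  rfl

theorem Ok.tm_inv {α N : Type} {P : Set (ContextFreeRule α N)} {t : T α N} {a : α}
    {s : List (Symbol α N)} (h : Ok P t (.terminal a :: s)) : ∃ f, t = .tm a f ∧ Ok P f s := by
  cases h with
  | tm _ f _ hf => exact ⟨f, rfl, hf⟩

theorem Ok.nd_inv {α N : Type} {P : Set (ContextFreeRule α N)} {t : T α N} {X : N}
    {s : List (Symbol α N)} (h : Ok P t (.nonterminal X :: s)) :
    ∃ r c f, t = .nd r c f ∧ r ∈ P ∧ r.input = X ∧ Ok P c r.output ∧ Ok P f s := by
  generalize hs : Symbol.nonterminal X :: s = s0 at h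
  cases h with
  | nil => exact absurd hs (by simp)
  | tm a f s' hf => exact absurd hs (by simp)
  | nd r c f s' h1 h2 h3 =>
    simp only [List.cons.injEq, Symbol.nonterminal.injEq] at hs
    obtain ⟨rfl, rfl⟩ := hs
    exact ⟨r, c, f, rfl, h1, rfl, h2, h3⟩

/-- new sentential forms -/
def ins : List (Symbol B N) → List (Symbol (A ⊕ B) (Option (Option N)))
  | [] => []
  | .terminal b :: s => .terminal (.inr b) :: .nonterminal (some none) :: ins s
  | .nonterminal X :: s => .nonterminal (some (some X)) :: ins s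

/-- new rules -/
def lr (r : ContextFreeRule B N) : ContextFreeRule (A ⊕ B) (Option (Option N)) :=
  ⟨some (some r.input), ins r.output⟩

def Inil : ContextFreeRule (A ⊕ B) (Option (Option N)) := ⟨some none, []⟩

def Icons (a : A) : ContextFreeRule (A ⊕ B) (Option (Option N)) :=
  ⟨some none, [.terminal (.inl a), .nonterminal (some none)]⟩

def r0_a2 (S : N) : ContextFreeRule (A ⊕ B) (Option (Option N)) :=
  ⟨none, [.nonterminal (some none), .nonterminal (some (some S))]⟩

def newP_a2 (A : Type) {B N : Type} (P : Set (ContextFreeRule B N)) (S : N) :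
    Set (ContextFreeRule (A ⊕ B) (Option (Option N))) :=
  {r | r = r0_a2 S ∨ r = Inil ∨ (∃ a, r = Icons a) ∨ ∃ r' ∈ P, r = lr r'}

theorem newP_finite_a2 [Finite A] {P : Set (ContextFreeRule B N)} (hP : P.Finite) (S : N) :
    (newP_a2 A P S).Finite := by
  have h : newP_a2 A P S ⊆ ({r0_a2 S, Inil} ∪ Set.range Icons) ∪ lr '' P := by
    rintro r (rfl | rfl | ⟨a, rfl⟩ | ⟨r', hr', rfl⟩)
    · left; left; left; rfl
    · left; left; right; rfl
    · left; right; exact ⟨a, rfl⟩
    · right; exact ⟨r', hr', rfl⟩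
  refine Set.Finite.subset ?_ h
  refine ((Set.toFinite _).union (Set.finite_range _)).union (hP.image _)

def iblk : List A → T (A ⊕ B) (Option (Option N)) → T (A ⊕ B) (Option (Option N))
  | [], k => .nd Inil .nil k
  | a :: as, k => .nd (Icons a) (.tm (.inl a) (iblk as .nil)) k

/-- the words that do not start with a new letter -/
def St (w : List (A ⊕ B)) : Prop := ∀ a v, w ≠ Sum.inl a :: v

theorem St.nil : St ([] : List (A ⊕ B)) := fun _ _ h => by cases h

theorem St.cons (b : B) (w : List (A ⊕ B)) : St (Sum.inr b :: w) := fun _ _ h => by cases h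

theorem St.append {u v : List (A ⊕ B)} (hu : St u) (hv : St v) : St (u ++ v) := by
  cases u with
  | nil => exact hv
  | cons x u =>
    intro a w h
    rw [List.cons_append] at h
    injection h with h1 h2
    exact hu a u (by rw [h1])

theorem St.left {u v : List (A ⊕ B)} (hu : u ≠ []) (h : St (u ++ v)) (w : List (A ⊕ B)) :
    St (u ++ w) := by
  cases u with
  | nil => exact absurd rfl hu
  | cons x u =>
    intro a z hz
    rw [List.cons_append] at hz
    injection hz with h1 h2
    exact h a (u ++ v) (by rw [h1, List.cons_append])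

theorem block (as as' : List A) (u v : List (A ⊕ B)) (hu : St u) (hv : St v)
    (h : as.map Sum.inl ++ u = as'.map Sum.inl ++ v) : as = as' ∧ u = v := by
  induction as generalizing as' with
  | nil =>
    cases as' with
    | nil => exact ⟨rfl, h⟩
    | cons a as' => exact absurd h (hu a _)
  | cons a as ih =>
    cases as' with
    | nil => exact absurd h.symm (hv a _)
    | cons a' as' =>
      simp only [List.map_cons, List.cons_append, List.cons.injEq, Sum.inl.injEq] at h
      obtain ⟨h1, h2⟩ := h
      obtain ⟨h3, h4⟩ := ih as' h2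
      exact ⟨by rw [h1, h3], h4⟩

theorem split (w : List (A ⊕ B)) : ∃ (as : List A) (u : List (A ⊕ B)),
    w = as.map Sum.inl ++ u ∧ St u := by
  induction w with
  | nil => exact ⟨[], [], rfl, St.nil⟩
  | cons x w ih =>
    cases x with
    | inl a =>
      obtain ⟨as, u, h, hu⟩ := ih
      exact ⟨a :: as, u, by rw [h]; rfl, hu⟩
    | inr b => exact ⟨[], Sum.inr b :: w, rfl, St.cons b w⟩

theorem filterMap_block (as : List A) (u : List (A ⊕ B)) :
    (as.map Sum.inl ++ u).filterMap Sum.getRight? = u.filterMap Sum.getRight? := by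
  induction as with
  | nil => rfl
  | cons a as ih =>
    rw [List.map_cons, List.cons_append, List.filterMap_cons_none rfl, ih]

theorem filterMap_inr (b : B) (w : List (A ⊕ B)) :
    (Sum.inr b :: w).filterMap Sum.getRight? = b :: w.filterMap Sum.getRight? := rfl

theorem split2 (w : List (A ⊕ B)) (l1 l2 : List B) (hw : St w)
    (h : w.filterMap Sum.getRight? = l1 ++ l2) : ∃ w1 w2, w = w1 ++ w2 ∧
      w1.filterMap Sum.getRight? = l1 ∧ w2.filterMap Sum.getRight? = l2 ∧ St w1 ∧ St w2 := by
  rw [List.filterMap_eq_append_iff] at h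
  obtain ⟨u, v, rfl, h1, h2⟩ := h
  by_cases hu : u = []
  · subst hu
    exact ⟨[], v, rfl, h1, h2, St.nil, hw⟩
  · obtain ⟨as, v', rfl, hv'⟩ := split v
    refine ⟨u ++ as.map Sum.inl, v', by rw [List.append_assoc], ?_, ?_, St.left hu hw _, hv'⟩
    · rw [List.filterMap_append, h1]
      have := filterMap_block as ([] : List (A ⊕ B))
      rw [List.append_nil] at this
      rw [this]; simp
    · rw [filterMap_block] at h2
      exact h2

/-- relation between old forests and new forests, together with the new word -/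
inductive R : T B N → List (A ⊕ B) → T (A ⊕ B) (Option (Option N)) → Prop
  | nil : R .nil [] .nil
  | tm (b : B) (as : List A) (t : T B N) (w : List (A ⊕ B)) (t' : T (A ⊕ B) (Option (Option N))) :
      R t w t' → R (.tm b t) (Sum.inr b :: (as.map Sum.inl ++ w)) (.tm (Sum.inr b) (iblk as t'))
  | nd (r : ContextFreeRule B N) (t f : T B N) (w v : List (A ⊕ B))
      (t' f' : T (A ⊕ B) (Option (Option N))) :
      R t w t' → R f v f' → R (.nd r t f) (w ++ v) (.nd (lr r) t' f')

theorem yield_iblk (as : List A) (k : T (A ⊕ B) (Option (Option N))) :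
    (iblk as k).yield = as.map Sum.inl ++ k.yield := by
  induction as generalizing k with
  | nil => rfl
  | cons a as ih =>
    show (Sum.inl a :: (iblk as T.nil).yield) ++ k.yield = _
    rw [ih]
    simp [T.yield]

theorem R.yield {t : T B N} {w : List (A ⊕ B)} {t' : T (A ⊕ B) (Option (Option N))}
    (h : R t w t') : t'.yield = w := by
  induction h with
  | nil => rfl
  | tm b as t w t' _ ih =>
    show Sum.inr b :: (iblk as t').yield = _
    rw [yield_iblk, ih]
  | nd r t f w v t' f' _ _ ih1 ih2 =>
    show t'.yield ++ f'.yield = _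
    rw [ih1, ih2]

theorem R.old_yield {t : T B N} {w : List (A ⊕ B)} {t' : T (A ⊕ B) (Option (Option N))}
    (h : R t w t') : w.filterMap Sum.getRight? = t.yield := by
  induction h with
  | nil => rfl
  | tm b as t w t' _ ih =>
    rw [filterMap_inr, filterMap_block, ih]
    rfl
  | nd r t f w v t' f' _ _ ih1 ih2 =>
    rw [List.filterMap_append, ih1, ih2]
    rfl

theorem R.st {t : T B N} {w : List (A ⊕ B)} {t' : T (A ⊕ B) (Option (Option N))}
    (h : R t w t') : St w := by
  induction h with
  | nil => exact St.nil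
  | tm b as t w t' _ ih => exact St.cons _ _
  | nd r t f w v t' f' _ _ ih1 ih2 => exact ih1.append ih2

theorem R.unique {t : T B N} {w1 w2 : List (A ⊕ B)} {t1 t2 : T (A ⊕ B) (Option (Option N))}
    (h1 : R t w1 t1) (h2 : R t w2 t2) (z1 z2 : List (A ⊕ B)) (hz1 : St z1) (hz2 : St z2)
    (h : w1 ++ z1 = w2 ++ z2) : w1 = w2 ∧ t1 = t2 ∧ z1 = z2 := by
  induction h1 generalizing w2 t2 z1 z2 with
  | nil =>
    cases h2
    exact ⟨rfl, rfl, h⟩
  | tm b as t w t' h1' ih =>
    cases h2 with
    | tm _ as2 _ v t2' h2' =>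
      simp only [List.cons_append, List.cons.injEq, true_and, List.append_assoc] at h
      obtain ⟨h3, h4⟩ := block as as2 (w ++ z1) (v ++ z2) (h1'.st.append hz1)
        (h2'.st.append hz2) h
      obtain ⟨h5, h6, h7⟩ := ih h2' z1 z2 hz1 hz2 h4
      subst h3 h5 h6 h7
      exact ⟨rfl, rfl, rfl⟩
  | nd r t f w v t' f' ha hb iha ihb =>
    cases h2 with
    | nd _ _ _ w' v' t'' f'' ha' hb' =>
      rw [List.append_assoc, List.append_assoc] at h
      obtain ⟨h5, h6, h7⟩ := iha ha' (v ++ z1) (v' ++ z2) (hb.st.append hz1)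
        (hb'.st.append hz2) h
      obtain ⟨h8, h9, h10⟩ := ihb hb' z1 z2 hz1 hz2 h7
      subst h5 h6 h8 h9 h10
      exact ⟨rfl, rfl, rfl⟩

theorem R.exists (t : T B N) (w : List (A ⊕ B)) (hw : St w)
    (h : w.filterMap Sum.getRight? = t.yield) : ∃ t', R t w t' := by
  induction t generalizing w with
  | nil =>
    cases w with
    | nil => exact ⟨_, R.nil⟩
    | cons x w =>
      cases x with
      | inl a => exact absurd rfl (hw a w)
      | inr b =>
        rw [filterMap_inr] at h
        exact absurd h (by simp [T.yield])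
  | tm b f ih =>
    cases w with
    | nil => exact absurd h (by simp [T.yield])
    | cons x w =>
      cases x with
      | inl a => exact absurd rfl (hw a w)
      | inr b' =>
        rw [filterMap_inr] at h
        simp only [T.yield, List.cons.injEq] at h
        obtain ⟨rfl, h⟩ := h
        obtain ⟨as, u, rfl, hu⟩ := split w
        rw [filterMap_block] at h
        obtain ⟨t', ht'⟩ := ih u hu h
        exact ⟨_, R.tm b' as f u t' ht'⟩
  | nd r t f iht ihf =>
    obtain ⟨w1, w2, rfl, h1, h2, hs1, hs2⟩ := split2 w _ _ hw h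
    obtain ⟨t', ht'⟩ := iht w1 hs1 h1
    obtain ⟨f', hf'⟩ := ihf w2 hs2 h2
    exact ⟨_, R.nd r t f w1 w2 t' f' ht' hf'⟩

theorem iblk_ok (P : Set (ContextFreeRule B N)) (S : N) (as : List A)
    (k : T (A ⊕ B) (Option (Option N))) (s : List (Symbol (A ⊕ B) (Option (Option N))))
    (h : Ok (newP_a2 A P S) k s) : Ok (newP_a2 A P S) (iblk as k) (.nonterminal (some none) :: s) := by
  induction as generalizing k s with
  | nil => exact Ok.nd Inil .nil k s (Or.inr (Or.inl rfl)) Ok.nil h
  | cons a as ih =>
    exact Ok.nd (Icons a) _ k s (Or.inr (Or.inr (Or.inl ⟨a, rfl⟩)))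
      (Ok.tm _ _ _ (ih _ _ Ok.nil)) h

theorem R.ok {P : Set (ContextFreeRule B N)} {S : N} {t : T B N} {w : List (A ⊕ B)}
    {t' : T (A ⊕ B) (Option (Option N))} (h : R t w t') (s : List (Symbol B N)) (hs : Ok P t s) :
    Ok (newP_a2 A P S) t' (ins s) := by
  induction h generalizing s with
  | nil => cases hs; exact Ok.nil
  | tm b as t w t' _ ih =>
    cases hs with
    | tm _ _ s' hs' => exact Ok.tm _ _ _ (iblk_ok P S as t' (ins s') (ih s' hs'))
  | nd r t f w v t' f' _ _ ih1 ih2 =>
    cases hs with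
    | nd _ _ _ s' hr h1 h2 =>
      exact Ok.nd (lr r) t' f' (ins s') (Or.inr (Or.inr (Or.inr ⟨r, hr, rfl⟩)))
        (ih1 _ h1) (ih2 _ h2)

/-- size of a forest -/
def sz {α N : Type} : T α N → ℕ
  | .nil => 0
  | .tm _ f => sz f + 1
  | .nd _ t f => sz t + sz f + 1

theorem iblk_inv (P : Set (ContextFreeRule B N)) (S : N) (n : ℕ)
    (t : T (A ⊕ B) (Option (Option N))) (hn : sz t ≤ n)
    (s : List (Symbol (A ⊕ B) (Option (Option N))))
    (h : Ok (newP_a2 A P S) t (.nonterminal (some none) :: s)) :
    ∃ as k, t = iblk as k ∧ Ok (newP_a2 A P S) k s ∧ sz k < sz t := by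
  induction n generalizing t s with
  | zero =>
    obtain ⟨r, c, f, rfl, _⟩ := h.nd_inv
    simp [sz] at hn
  | succ n ih =>
    obtain ⟨r, c, f, rfl, hr, hin, hc, hf⟩ := h.nd_inv
    rcases hr with rfl | rfl | ⟨a, rfl⟩ | ⟨r', _, rfl⟩
    · exact absurd hin (by simp [r0_a2])
    · have := hc.nil_inv
      subst this
      exact ⟨[], f, rfl, hf, by simp [sz]⟩
    · obtain ⟨g, rfl, hg⟩ := Ok.tm_inv hc
      obtain ⟨as, k, rfl, hk, _⟩ := ih g (by simp only [sz] at hn; omega) [] hg
      have := hk.nil_inv
      subst this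
      exact ⟨a :: as, f, rfl, hf, by simp only [sz]; omega⟩
    · exact absurd hin (by simp [lr])

theorem R.inv (P : Set (ContextFreeRule B N)) (S : N) (n : ℕ)
    (t' : T (A ⊕ B) (Option (Option N))) (hn : sz t' ≤ n) (s : List (Symbol B N))
    (h : Ok (newP_a2 A P S) t' (ins s)) : ∃ t w, Ok P t s ∧ R t w t' := by
  induction n generalizing t' s with
  | zero =>
    cases s with
    | nil =>
      have := h.nil_inv
      subst this
      exact ⟨_, _, Ok.nil, R.nil⟩
    | cons x s =>
      cases x with
      | terminal b =>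
        obtain ⟨f, rfl, _⟩ := Ok.tm_inv h
        simp [sz] at hn
      | nonterminal X =>
        obtain ⟨r, c, f, rfl, _⟩ := Ok.nd_inv h
        simp [sz] at hn
  | succ n ih =>
    cases s with
    | nil =>
      have := h.nil_inv
      subst this
      exact ⟨_, _, Ok.nil, R.nil⟩
    | cons x s =>
      cases x with
      | terminal b =>
        obtain ⟨f, rfl, hf⟩ := Ok.tm_inv h
        obtain ⟨as, k, rfl, hk, hlt⟩ := iblk_inv P S _ f le_rfl _ hf
        obtain ⟨t, w, ht, hR⟩ := ih k (by simp only [sz] at hn; omega) s hk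
        exact ⟨.tm b t, _, Ok.tm b t s ht, R.tm b as t w k hR⟩
      | nonterminal X =>
        obtain ⟨r, c, f, rfl, hr, hin, hc, hf⟩ := Ok.nd_inv h
        rcases hr with rfl | rfl | ⟨a, rfl⟩ | ⟨r', hr', rfl⟩
        · exact absurd hin (by simp [r0_a2])
        · exact absurd hin (by simp [Inil])
        · exact absurd hin (by simp [Icons])
        · have hX : r'.input = X := by
            simpa [lr] using hin
          subst hX
          obtain ⟨t, w, ht, hR⟩ := ih c (by simp only [sz] at hn; omega) r'.output hc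
          obtain ⟨g, v, hg, hR2⟩ := ih f (by simp only [sz] at hn; omega) s hf
          exact ⟨.nd r' t g, _, Ok.nd r' t g s hr' ht hg, R.nd r' t g w v c f hR hR2⟩

theorem root_inv (P : Set (ContextFreeRule B N)) (S : N) (t' : T (A ⊕ B) (Option (Option N)))
    (h : Ok (newP_a2 A P S) t' [.nonterminal none]) : ∃ (as : List A) (k : _) (t : T B N)
      (w : List (A ⊕ B)), t' = .nd (r0_a2 S) (iblk as k) .nil ∧ Ok P t [.nonterminal S] ∧ R t w k := by
  obtain ⟨r, c, f, rfl, hr, hin, hc, hf⟩ := Ok.nd_inv h
  have := hf.nil_inv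
  subst this
  rcases hr with rfl | rfl | ⟨a, rfl⟩ | ⟨r', hr', rfl⟩
  · obtain ⟨as, k, rfl, hk, _⟩ := iblk_inv P S _ c le_rfl _ hc
    obtain ⟨t, w, ht, hR⟩ := R.inv P S _ k le_rfl [.nonterminal S] hk
    exact ⟨as, k, t, w, rfl, ht, hR⟩
  · exact absurd hin (by simp [Inil])
  · exact absurd hin (by simp [Icons])
  · exact absurd hin (by simp [lr])

end Insertion

theorem insertion {A B : Type} [Finite A] [Finite B] {L : Language B} (h : UCFL L) :
    UCFL ({w | w.filterMap Sum.getRight? ∈ L} : Language (A ⊕ B)) := by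
  obtain ⟨N, hN, S, P, hP, hL, hU⟩ := h
  refine ⟨Option (Option N), inferInstance, none, newP_a2 A P S, newP_finite_a2 hP S, ?_, ?_⟩
  · intro w
    constructor
    · intro hw
      have hw' : w.filterMap Sum.getRight? ∈ L := hw
      rw [hL] at hw'
      obtain ⟨t, ht, hty⟩ := hw'
      obtain ⟨as, u, rfl, hu⟩ := split w
      rw [filterMap_block] at hty
      obtain ⟨k, hk⟩ := R.exists t u hu hty.symm
      have hok : Ok (newP_a2 A P S) k [.nonterminal (some (some S))] := hk.ok _ ht
      refine ⟨.nd (r0_a2 S) (iblk as k) .nil, Ok.nd (r0_a2 S) _ _ [] (Or.inl rfl)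
        (iblk_ok P S as k _ hok) Ok.nil, ?_⟩
      show (iblk as k).yield ++ [] = _
      rw [List.append_nil, yield_iblk, hk.yield]
    · rintro ⟨t', ht', rfl⟩
      obtain ⟨as, k, t, w, rfl, ht, hR⟩ := root_inv P S t' ht'
      show List.filterMap Sum.getRight? ((iblk as k).yield ++ []) ∈ L
      rw [List.append_nil, yield_iblk, filterMap_block, hR.yield, hR.old_yield, hL]
      exact ⟨t, ht, rfl⟩
  · intro t1 t2 h1 h2 hy
    obtain ⟨as1, k1, u1, w1, rfl, hu1, hR1⟩ := root_inv P S t1 h1
    obtain ⟨as2, k2, u2, w2, rfl, hu2, hR2⟩ := root_inv P S t2 h2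
    have hy' : (iblk as1 k1).yield ++ [] = (iblk as2 k2).yield ++ [] := hy
    rw [List.append_nil, List.append_nil, yield_iblk, yield_iblk, hR1.yield, hR2.yield] at hy'
    obtain ⟨h3, h4⟩ := block as1 as2 w1 w2 hR1.st hR2.st hy'
    have h5 : u1 = u2 := hU u1 u2 hu1 hu2 (by
      rw [← hR1.old_yield, ← hR2.old_yield, h4])
    subst h3 h4 h5
    obtain ⟨_, h6, _⟩ := hR1.unique hR2 [] [] St.nil St.nil rfl
    rw [h6]

end Pool.Agent.Helper450.NP

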