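import Mathlib
import Pool.Agent.Helper450.NP.Base

set_option autoImplicit false

/-!
Derivation trees of context-free grammars, unambiguous grammars, contexts, and the pair
languages used to show that the cylinder of unambiguous context-free languages is not principal.
-/

namespace Pool.Agent.Helper450.NP

variable {α N : Type}


section proj

variable {A B : Type} {M : Type}

/-- projection of a symbol -/
def prs : Symbol (A ⊕ B) M → Option (Symbol A M)
  | .terminal (.inl a) => some (.terminal a)
  | .terminal (.inr _) => none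
  | .nonterminal X => some (.nonterminal X)

/-- projection of a sentential form -/
def pr (s : List (Symbol (A ⊕ B) M)) : List (Symbol A M) := s.filterMap prs

theorem pr_nil : pr ([] : List (Symbol (A ⊕ B) M)) = [] := rfl
theorem pr_inl (a : A) (s : List (Symbol (A ⊕ B) M)) :
    pr (.terminal (.inl a) :: s) = .terminal a :: pr s := rfl
theorem pr_inr (b : B) (s : List (Symbol (A ⊕ B) M)) :
    pr (.terminal (.inr b) :: s) = pr s := rfl
theorem pr_nt (X : M) (s : List (Symbol (A ⊕ B) M)) :
    pr (.nonterminal X :: s) = .nonterminal X :: pr s := rfl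

/-- projection of a rule -/
def prr (r : ContextFreeRule (A ⊕ B) M) : ContextFreeRule A M := ⟨r.input, pr r.output⟩

/-- projection of a forest -/
def strip_a3 : T (A ⊕ B) M → T A M
  | .nil => .nil
  | .tm (.inl a) f => .tm a (strip_a3 f)
  | .tm (.inr _) f => strip_a3 f
  | .nd r t f => .nd (prr r) (strip_a3 t) (strip_a3 f)

theorem strip_yield (t : T (A ⊕ B) M) :
    (strip_a3 t).yield = t.yield.filterMap Sum.getLeft? := by
  induction t with
  | nil => rfl
  | tm a f ih =>
    cases a with
    | inl a => simp [strip_a3, T.yield, ih]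
    | inr b => simp [strip_a3, T.yield, ih, List.filterMap_cons]
  | nd r t f iht ihf => simp [strip_a3, T.yield, iht, ihf]

theorem strip_ok_a3 {P : Set (ContextFreeRule (A ⊕ B) M)} {t : T (A ⊕ B) M}
    {s : List (Symbol (A ⊕ B) M)} (h : Ok P t s) : Ok (prr '' P) (strip_a3 t) (pr s) := by
  induction h with
  | nil => exact Ok.nil
  | tm a f s _ ih =>
    cases a with
    | inl a => exact Ok.tm a _ _ ih
    | inr b => exact ih
  | nd r t f s hr _ _ iht ihf => exact Ok.nd (prr r) _ _ _ ⟨r, hr, rfl⟩ iht ihf

theorem lift_ok {P : Set (ContextFreeRule (A ⊕ B) M)} {t' : T A M} {s' : List (Symbol A M)}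
    (h : Ok (prr '' P) t' s') :
    ∀ s : List (Symbol (A ⊕ B) M), pr s = s' → ∃ t, Ok P t s ∧ strip_a3 t = t' := by
  induction h with
  | nil =>
    intro s
    induction s with
    | nil => exact fun _ => ⟨.nil, Ok.nil, rfl⟩
    | cons x s ih =>
      intro h
      cases x with
      | terminal c =>
        cases c with
        | inl a => rw [pr_inl] at h; cases h
        | inr b =>
          rw [pr_inr] at h
          obtain ⟨t, ht, hs⟩ := ih h
          exact ⟨.tm (.inr b) t, Ok.tm _ _ _ ht, hs⟩
      | nonterminal X => rw [pr_nt] at h; cases h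
  | tm a f s'' _ ihf =>
    intro s
    induction s with
    | nil => intro h; rw [pr_nil] at h; cases h
    | cons x s ih =>
      intro h
      cases x with
      | terminal c =>
        cases c with
        | inl a' =>
          rw [pr_inl] at h
          injection h with h1 h2
          injection h1 with h1
          subst h1
          obtain ⟨t, ht, hs⟩ := ihf s h2
          exact ⟨.tm (.inl a') t, Ok.tm _ _ _ ht, by rw [strip_a3, hs]⟩
        | inr b =>
          rw [pr_inr] at h
          obtain ⟨t, ht, hs⟩ := ih h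
          exact ⟨.tm (.inr b) t, Ok.tm _ _ _ ht, hs⟩
      | nonterminal X =>
        rw [pr_nt] at h
        injection h with h1 h2
        cases h1
  | nd r' t f s'' hr' _ _ iht ihf =>
    obtain ⟨r, hr, rfl⟩ := hr'
    intro s
    induction s with
    | nil => intro h; rw [pr_nil] at h; cases h
    | cons x s ih =>
      intro h
      cases x with
      | terminal c =>
        cases c with
        | inl a' =>
          rw [pr_inl] at h
          injection h with h1 h2
          cases h1
        | inr b =>
          rw [pr_inr] at h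
          obtain ⟨t, ht, hs⟩ := ih h
          exact ⟨.tm (.inr b) t, Ok.tm _ _ _ ht, hs⟩
      | nonterminal X =>
        rw [pr_nt] at h
        injection h with h1 h2
        injection h1 with h1
        subst h1
        obtain ⟨t1, ht1, hs1⟩ := iht r.output rfl
        obtain ⟨t2, ht2, hs2⟩ := ihf s h2
        exact ⟨.nd r t1 t2, Ok.nd r _ _ _ hr ht1 ht2, by rw [strip_a3, hs1, hs2]⟩

end proj

theorem projection {A B : Type} [Finite A] [Finite B] {L : Language (A ⊕ B)} (h : UCFL L)
    (hinj : ∀ w ∈ L, ∀ w' ∈ L, w.filterMap Sum.getLeft? = w'.filterMap Sum.getLeft? → w = w') :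
    UCFL ({v | ∃ w ∈ L, w.filterMap Sum.getLeft? = v} : Language A) := by
  obtain ⟨M, hM, S, P, hP, hL, hU⟩ := h
  refine ⟨M, hM, S, prr '' P, hP.image _, ?_, ?_⟩
  · intro v
    constructor
    · rintro ⟨w, hw, rfl⟩
      obtain ⟨t, ht, rfl⟩ := (hL w).1 hw
      exact ⟨strip_a3 t, strip_ok_a3 ht, strip_yield t⟩
    · rintro ⟨t', ht', rfl⟩
      obtain ⟨t, ht, rfl⟩ := lift_ok ht' [.nonterminal S] rfl
      exact ⟨t.yield, (hL _).2 ⟨t, ht, rfl⟩, (strip_yield t).symm⟩
  · intro t1' t2' h1 h2 hy
    obtain ⟨t1, ht1, rfl⟩ := lift_ok h1 [.nonterminal S] rfl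
    obtain ⟨t2, ht2, rfl⟩ := lift_ok h2 [.nonterminal S] rfl
    rw [strip_yield, strip_yield] at hy
    have h3 := hinj t1.yield ((hL _).2 ⟨t1, ht1, rfl⟩) t2.yield ((hL _).2 ⟨t2, ht2, rfl⟩) hy
    rw [hU t1 t2 ht1 ht2 h3]

end Pool.Agent.Helper450.NP
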