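import Mathlib
import Pool.Agent.Helper450.NP.Base

set_option autoImplicit false

/-!
Derivation trees of context-free grammars, unambiguous grammars, contexts, and the pair
languages used to show that the cylinder of unambiguous context-free languages is not principal.
-/

namespace Pool.Agent.Helper450.NP

variable {α N : Type}


/-- the coded word -/
def gw {A B : Type} (f : A → List B) (v : List A) : List (A ⊕ B) :=
  v.flatMap (fun a => (f a).map Sum.inr ++ [Sum.inl a])

theorem gw_append {A B : Type} (f : A → List B) (v : List A) (a : A) :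
    gw f (v ++ [a]) = gw f v ++ ((f a).map Sum.inr ++ [Sum.inl a]) := by
  unfold gw
  rw [List.flatMap_append, List.flatMap_singleton]

theorem gw_left {A B : Type} (f : A → List B) (v : List A) :
    (gw f v).filterMap Sum.getLeft? = v := by
  induction v with
  | nil => rfl
  | cons a v ih =>
    show (((f a).map Sum.inr ++ [Sum.inl a]) ++ gw f v).filterMap Sum.getLeft? = _
    rw [List.filterMap_append, List.filterMap_append, ih, List.filterMap_map]
    have : (List.filterMap (Sum.getLeft? ∘ (Sum.inr : B → A ⊕ B)) (f a)) = [] := by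
      rw [List.filterMap_eq_nil_iff]
      intro b _
      rfl
    rw [this]
    rfl

theorem gw_right {A B : Type} (f : A → List B) (v : List A) :
    (gw f v).filterMap Sum.getRight? = v.flatMap f := by
  induction v with
  | nil => rfl
  | cons a v ih =>
    show (((f a).map Sum.inr ++ [Sum.inl a]) ++ gw f v).filterMap Sum.getRight? = _
    rw [List.filterMap_append, List.filterMap_append, ih, List.filterMap_map, List.flatMap_cons]
    have h1 : (Sum.getRight? ∘ (Sum.inr : B → A ⊕ B)) = some := rfl
    rw [h1, List.filterMap_some]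
    have h2 : ([Sum.inl a] : List (A ⊕ B)).filterMap Sum.getRight? = [] := rfl
    rw [h2, List.append_nil]

open Classical in
/-- the checking automaton -/
noncomputable def chk {A B σ : Type} (f : A → List B) (m : ℕ) (M : DFA A σ) :
    DFA (A ⊕ B) (Option (σ × {z : List B // z.length ≤ m})) where
  step s c := match s, c with
    | none, _ => none
    | some (q, z), Sum.inr b =>
        if h : z.1.length + 1 ≤ m then some (q, ⟨z.1 ++ [b], by simpa using h⟩) else none
    | some (q, z), Sum.inl a =>
        if z.1 = f a then some (M.step q a, ⟨[], Nat.zero_le _⟩) else none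
  start := some (M.start, ⟨[], Nat.zero_le _⟩)
  accept := {s | ∃ q ∈ M.accept, s = some (q, ⟨[], Nat.zero_le _⟩)}

theorem chk_inv {A B σ : Type} (f : A → List B) (m : ℕ) (M : DFA A σ) (w : List (A ⊕ B)) :
    ∀ q z, (chk f m M).eval w = some (q, z) → ∃ v, w = gw f v ++ z.1.map Sum.inr ∧ q = M.eval v := by
  induction w using List.reverseRecOn with
  | nil =>
    intro q z h
    have h1 : (chk f m M).eval [] = some (M.start, ⟨[], Nat.zero_le _⟩) := rfl
    rw [h1] at h
    have h2 := Option.some.inj h
    refine ⟨[], ?_, ?_⟩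
    · rw [← (Prod.mk.inj h2).2]; rfl
    · rw [← (Prod.mk.inj h2).1]; rfl
  | append_singleton w c ih =>
    intro q z h
    rw [DFA.eval_append_singleton] at h
    rcases hw : (chk f m M).eval w with _ | ⟨q0, z0⟩
    · rw [hw] at h
      exact absurd h (by intro h; cases c <;> exact absurd h (by simp [chk]))
    · obtain ⟨v, hv1, hv2⟩ := ih q0 z0 hw
      rw [hw] at h
      rcases c with a | b
      · by_cases hz : z0.1 = f a
        · have h1 : (chk f m M).step (some (q0, z0)) (Sum.inl a)
              = some (M.step q0 a, ⟨[], Nat.zero_le _⟩) := by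
            simp only [chk]
            rw [if_pos hz]
          rw [h1] at h
          have h2 := Option.some.inj h
          refine ⟨v ++ [a], ?_, ?_⟩
          · rw [← (Prod.mk.inj h2).2, gw_append, hv1, hz]
            simp
          · rw [← (Prod.mk.inj h2).1, DFA.eval_append_singleton, hv2]
        · have h1 : (chk f m M).step (some (q0, z0)) (Sum.inl a) = none := by
            simp only [chk]
            rw [if_neg hz]
          rw [h1] at h
          exact absurd h (by simp)
      · by_cases hz : z0.1.length + 1 ≤ m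
        · have h1 : (chk f m M).step (some (q0, z0)) (Sum.inr b)
              = some (q0, ⟨z0.1 ++ [b], by simpa using hz⟩) := by
            simp only [chk]
            rw [dif_pos hz]
          rw [h1] at h
          have h2 := Option.some.inj h
          refine ⟨v, ?_, ?_⟩
          · rw [← (Prod.mk.inj h2).2, hv1]
            simp
          · rw [← (Prod.mk.inj h2).1, hv2]
        · have h1 : (chk f m M).step (some (q0, z0)) (Sum.inr b) = none := by
            simp only [chk]
            rw [dif_neg hz]
          rw [h1] at h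
          exact absurd h (by simp)

theorem chk_run {A B σ : Type} (f : A → List B) (m : ℕ) (M : DFA A σ) (q : σ) (y : List B) :
    ∀ (z : List B) (hz : z.length ≤ m) (hzy : (z ++ y).length ≤ m),
      (chk f m M).evalFrom (some (q, ⟨z, hz⟩)) (y.map Sum.inr) = some (q, ⟨z ++ y, hzy⟩) := by
  induction y with
  | nil =>
    intro z hz hzy
    simp
  | cons b y ih =>
    intro z hz hzy
    rw [List.map_cons, DFA.evalFrom_cons]
    have hlen : z.length + 1 ≤ m := by
      rw [List.length_append, List.length_cons] at hzy
      omega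
    have h1 : (chk f m M).step (some (q, ⟨z, hz⟩)) (Sum.inr b)
        = some (q, ⟨z ++ [b], by simpa using hlen⟩) := by
      simp only [chk]
      rw [dif_pos hlen]
    rw [h1, ih (z ++ [b]) (by simpa using hlen) (by
      rw [List.append_assoc]; exact hzy)]
    simp

theorem chk_gw {A B σ : Type} (f : A → List B) (m : ℕ) (hm : ∀ a, (f a).length ≤ m) (M : DFA A σ)
    (v : List A) : (chk f m M).eval (gw f v) = some (M.eval v, ⟨[], Nat.zero_le _⟩) := by
  induction v using List.reverseRecOn with
  | nil => rfl
  | append_singleton v a ih =>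
    rw [gw_append, ← List.append_assoc, DFA.eval_append_singleton]
    have h1 : (chk f m M).eval (gw f v ++ (f a).map Sum.inr)
        = some (M.eval v, ⟨[] ++ f a, by simpa using hm a⟩) := by
      rw [DFA.eval, DFA.evalFrom_of_append]
      have h2 : (chk f m M).evalFrom (chk f m M).start (gw f v)
          = some (M.eval v, ⟨[], Nat.zero_le _⟩) := ih
      rw [h2]
      exact chk_run f m M (M.eval v) (f a) [] (Nat.zero_le _) (by simpa using hm a)
    rw [h1, DFA.eval_append_singleton]
    simp only [chk]
    rw [if_pos (List.nil_append _)]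

theorem chk_accepts {A B σ : Type} (f : A → List B) (m : ℕ) (hm : ∀ a, (f a).length ≤ m)
    (M : DFA A σ) (w : List (A ⊕ B)) :
    w ∈ (chk f m M).accepts ↔ ∃ v ∈ M.accepts, w = gw f v := by
  rw [DFA.mem_accepts]
  constructor
  · rintro ⟨q, hq, h⟩
    obtain ⟨v, h1, h2⟩ := chk_inv f m M w q _ h
    refine ⟨v, ?_, ?_⟩
    · rw [DFA.mem_accepts, ← h2]; exact hq
    · rw [h1]; simp
  · rintro ⟨v, hv, rfl⟩
    rw [DFA.mem_accepts] at hv
    exact ⟨M.eval v, hv, chk_gw f m hm M v⟩

theorem inv_hom_of
    (inter_dfa : ∀ {α σ : Type} [Finite α] [Finite σ] (M : DFA α σ) {L : Language α},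
      UCFL L → UCFL ({w | w ∈ L ∧ w ∈ M.accepts} : Language α))
    (insertion : ∀ {A B : Type} [Finite A] [Finite B] {L : Language B}, UCFL L →
      UCFL ({w | w.filterMap Sum.getRight? ∈ L} : Language (A ⊕ B)))
    (projection : ∀ {A B : Type} [Finite A] [Finite B] {L : Language (A ⊕ B)}, UCFL L →
      (∀ w ∈ L, ∀ w' ∈ L, w.filterMap Sum.getLeft? = w'.filterMap Sum.getLeft? → w = w') →
      UCFL ({v | ∃ w ∈ L, w.filterMap Sum.getLeft? = v} : Language A))
    {A B σ : Type} [Finite A] [Finite B] [Finite σ] (f : A → List B)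
    {L : Language B} (h : UCFL L) (M : DFA A σ) :
    UCFL ({w | w.flatMap f ∈ L ∧ w ∈ M.accepts} : Language A) := by
  obtain ⟨m, hm⟩ : ∃ m, ∀ a, (f a).length ≤ m := by
    obtain ⟨m, hm⟩ := (Set.finite_range (fun a => (f a).length)).bddAbove
    exact ⟨m, fun a => hm ⟨a, rfl⟩⟩
  haveI : Finite {z : List B // z.length ≤ m} := (List.finite_length_le B m).to_subtype
  have h1 := insertion (A := A) (B := B) h
  have h2 := inter_dfa (chk f m M) h1
  have hmem : ∀ w : List (A ⊕ B), w ∈ ({w | w ∈ ({w | w.filterMap Sum.getRight? ∈ L} :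
      Language (A ⊕ B)) ∧ w ∈ (chk f m M).accepts} : Language (A ⊕ B)) ↔
      ∃ v ∈ M.accepts, w = gw f v ∧ v.flatMap f ∈ L := by
    intro w
    constructor
    · rintro ⟨h3, h4⟩
      obtain ⟨v, hv, rfl⟩ := (chk_accepts f m hm M w).1 h4
      refine ⟨v, hv, rfl, ?_⟩
      have h5 : (gw f v).filterMap Sum.getRight? ∈ L := h3
      rwa [gw_right] at h5
    · rintro ⟨v, hv, rfl, h3⟩
      refine ⟨?_, (chk_accepts f m hm M _).2 ⟨v, hv, rfl⟩⟩
      show (gw f v).filterMap Sum.getRight? ∈ L
      rwa [gw_right]
  have h3 := projection h2 (by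
    intro w hw w' hw' heq
    obtain ⟨v, _, rfl, _⟩ := (hmem w).1 hw
    obtain ⟨v', _, rfl, _⟩ := (hmem w').1 hw'
    rw [gw_left, gw_left] at heq
    rw [heq])
  refine (congrArg UCFL ?_).mpr h3
  refine Set.ext fun v => ?_
  constructor
  · rintro ⟨h4, h5⟩
    exact ⟨gw f v, (hmem _).2 ⟨v, h5, rfl, h4⟩, gw_left f v⟩
  · rintro ⟨w, hw, rfl⟩
    obtain ⟨v, hv, rfl, hv2⟩ := (hmem w).1 hw
    rw [gw_left]
    exact ⟨hv2, hv⟩

end Pool.Agent.Helper450.NP
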