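import Mathlib
import Pool.Agent.Helper450.NP.Base

set_option autoImplicit false

/-!
Derivation trees of context-free grammars, unambiguous grammars, contexts, and the pair
languages used to show that the cylinder of unambiguous context-free languages is not principal.
-/

namespace Pool.Agent.Helper450.NP


section proof

open Symbol

variable {X Γ Q : Type} (A : DFA X Q) (φ : Bool → X → List Γ) (E : Bool → List Γ)

/-- right letters as symbols -/
def Rs (N : Type) (y : List Γ) : List (Symbol (Option (X ⊕ Γ)) N) :=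
  y.map (fun c => terminal (some (Sum.inr c)))

/-- rules -/
def r0 (i : Bool) : ContextFreeRule (Option (X ⊕ Γ)) (Option (Bool × Q)) :=
  ⟨none, [nonterminal (some (i, A.start))]⟩

def r1 (i : Bool) (q : Q) (a : X) : ContextFreeRule (Option (X ⊕ Γ)) (Option (Bool × Q)) :=
  ⟨some (i, q), terminal (some (Sum.inl a)) :: nonterminal (some (i, A.step q a)) ::
    Rs _ (φ i a).reverse⟩

def r2 (i : Bool) (q : Q) : ContextFreeRule (Option (X ⊕ Γ)) (Option (Bool × Q)) :=
  ⟨some (i, q), terminal none :: Rs _ (E i).reverse⟩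

def PP : Set (ContextFreeRule (Option (X ⊕ Γ)) (Option (Bool × Q))) :=
  Set.range (r0 (Γ := Γ) A) ∪ Set.range (fun p : Bool × Q × X => r1 A φ p.1 p.2.1 p.2.2) ∪
    (fun p : Bool × Q => r2 (X := X) E p.1 p.2) '' {p | p.2 ∈ A.accept}

theorem PP_finite [Finite X] [Finite Q] : (PP A φ E).Finite :=
  ((Set.finite_range _).union (Set.finite_range _)).union
    ((Set.toFinite {p : Bool × Q | p.2 ∈ A.accept}).image _)

/-- word forest -/
def wt {N : Type} : List Γ → T (Option (X ⊕ Γ)) N → T (Option (X ⊕ Γ)) N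
  | [], k => k
  | c :: y, k => .tm (some (Sum.inr c)) (wt y k)

theorem wt_yield {N : Type} (y : List Γ) (k : T (Option (X ⊕ Γ)) N) :
    (wt y k).yield = y.map (fun c => some (Sum.inr c)) ++ k.yield := by
  induction y with
  | nil => rfl
  | cons c y ih => simp [wt, T.yield, ih]

theorem ok_nil {α N : Type} {P : Set (ContextFreeRule α N)} {t : T α N} :
    Ok P t [] ↔ t = .nil := by
  constructor
  · intro h
    cases h
    rfl
  · rintro rfl
    exact Ok.nil

theorem ok_tm {α N : Type} {P : Set (ContextFreeRule α N)} {t : T α N} {a : α}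
    {s : List (Symbol α N)} :
    Ok P t (terminal a :: s) ↔ ∃ f, t = .tm a f ∧ Ok P f s := by
  constructor
  · intro h
    cases h with
    | tm a f s h => exact ⟨f, rfl, h⟩
  · rintro ⟨f, rfl, h⟩
    exact Ok.tm a f s h

theorem ok_nt {α N : Type} {P : Set (ContextFreeRule α N)} {t : T α N} {n : N}
    {s : List (Symbol α N)} :
    Ok P t (nonterminal n :: s) ↔ ∃ r ∈ P, r.input = n ∧ ∃ t' f, t = .nd r t' f ∧
      Ok P t' r.output ∧ Ok P f s := by
  constructor
  · intro h
    generalize hs : (nonterminal n :: s : List (Symbol α N)) = s' at h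
    cases h with
    | nil => cases hs
    | tm a f s h => cases hs
    | nd r t f s hr ht hf =>
      injection hs with h1 h2
      injection h1 with h1
      exact ⟨r, hr, h1.symm, t, f, rfl, ht, h2 ▸ hf⟩
  · rintro ⟨r, hr, rfl, t', f, rfl, ht, hf⟩
    exact Ok.nd r t' f s hr ht hf

theorem ok_Rs {N : Type} {P : Set (ContextFreeRule (Option (X ⊕ Γ)) N)}
    {t : T (Option (X ⊕ Γ)) N} {y : List Γ} {s : List (Symbol (Option (X ⊕ Γ)) N)} :
    Ok P t (Rs N y ++ s) ↔ ∃ k, t = wt y k ∧ Ok P k s := by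
  induction y generalizing t with
  | nil => simp [Rs, wt]
  | cons c y ih =>
    have e : Rs N (c :: y) ++ s = terminal (some (Sum.inr c)) :: (Rs (X := X) N y ++ s) := rfl
    rw [e, ok_tm]
    constructor
    · rintro ⟨f, rfl, hf⟩
      obtain ⟨k, rfl, hk⟩ := ih.1 hf
      exact ⟨k, rfl, hk⟩
    · rintro ⟨k, rfl, hk⟩
      exact ⟨wt y k, rfl, ih.2 ⟨k, rfl, hk⟩⟩

theorem ok_Rs' {N : Type} {P : Set (ContextFreeRule (Option (X ⊕ Γ)) N)}
    {t : T (Option (X ⊕ Γ)) N} {y : List Γ} :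
    Ok P t (Rs N y) ↔ t = wt y .nil := by
  have := ok_Rs (P := P) (t := t) (y := y) (s := [])
  rw [List.append_nil] at this
  rw [this]
  constructor
  · rintro ⟨k, rfl, hk⟩
    rw [ok_nil.1 hk]
  · rintro rfl
    exact ⟨.nil, rfl, Ok.nil⟩

/-- the explicit trees -/
def tr (i : Bool) : Q → List X → T (Option (X ⊕ Γ)) (Option (Bool × Q)) →
    T (Option (X ⊕ Γ)) (Option (Bool × Q))
  | q, [], k => .nd (r2 E i q) (.tm none (wt (E i).reverse .nil)) k
  | q, a :: x, k => .nd (r1 A φ i q a)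
      (.tm (some (Sum.inl a)) (tr i (A.step q a) x (wt (φ i a).reverse .nil))) k

theorem tr_yield (i : Bool) (q : Q) (x : List X) (k : T (Option (X ⊕ Γ)) (Option (Bool × Q))) :
    (tr A φ E i q x k).yield = wd x (out (φ i) (E i) x).reverse ++ k.yield := by
  induction x generalizing q k with
  | nil => simp [tr, T.yield, wt_yield, wd, out]
  | cons a x ih => simp [tr, T.yield, wt_yield, wd, out, ih]

theorem ok_tr_fwd (t : T (Option (X ⊕ Γ)) (Option (Bool × Q))) :
    (∀ i q s, Ok (PP A φ E) t (nonterminal (some (i, q)) :: s) →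
      ∃ x k, t = tr A φ E i q x k ∧ Ok (PP A φ E) k s ∧ A.evalFrom q x ∈ A.accept) ∧
    (∀ a i q s, Ok (PP A φ E) t (terminal a :: nonterminal (some (i, q)) :: s) →
      ∃ x k, t = .tm a (tr A φ E i q x k) ∧ Ok (PP A φ E) k s ∧ A.evalFrom q x ∈ A.accept) := by
  induction t with
  | nil =>
    refine ⟨fun i q s h => ?_, fun a i q s h => ?_⟩
    · obtain ⟨r, _, _, t', f, h, _⟩ := ok_nt.1 h
      cases h
    · obtain ⟨f, h, _⟩ := ok_tm.1 h
      cases h
  | tm b f ih =>
    refine ⟨fun i q s h => ?_, fun a i q s h => ?_⟩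
    · obtain ⟨r, _, _, t', f, h, _⟩ := ok_nt.1 h
      cases h
    · obtain ⟨f', h, hf⟩ := ok_tm.1 h
      cases h
      obtain ⟨x, k, rfl, hk, hx⟩ := ih.1 i q s hf
      exact ⟨x, k, rfl, hk, hx⟩
  | nd r t f iht ihf =>
    refine ⟨fun i q s h => ?_, fun a i q s h => ?_⟩
    · obtain ⟨r', hr', hin, t', f', h, ht, hf⟩ := ok_nt.1 h
      cases h
      rcases hr' with (⟨i', rfl⟩ | ⟨⟨i', q', a⟩, rfl⟩) | ⟨⟨i', q'⟩, hq', rfl⟩
      · cases hin
      · cases hin
        obtain ⟨x, k, rfl, hk, hx⟩ := iht.2 (some (Sum.inl a)) i' (A.step q' a) _ ht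
        refine ⟨a :: x, f, ?_, hf, ?_⟩
        · rw [ok_Rs'.1 hk]
          rfl
        · exact hx
      · cases hin
        obtain ⟨t'', rfl, ht''⟩ := ok_tm.1 ht
        refine ⟨[], f, ?_, hf, ?_⟩
        · rw [ok_Rs'.1 ht'']
          rfl
        · exact hq'
    · obtain ⟨f', h, hf⟩ := ok_tm.1 h
      cases h

theorem ok_tr_bwd (i : Bool) (q : Q) (x : List X) (k : T (Option (X ⊕ Γ)) (Option (Bool × Q)))
    (s : List (Symbol (Option (X ⊕ Γ)) (Option (Bool × Q)))) (hk : Ok (PP A φ E) k s)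
    (hx : A.evalFrom q x ∈ A.accept) :
    Ok (PP A φ E) (tr A φ E i q x k) (nonterminal (some (i, q)) :: s) := by
  induction x generalizing q k s with
  | nil =>
    refine ok_nt.2 ⟨r2 E i q, Or.inr ⟨(i, q), hx, rfl⟩, rfl, _, _, rfl, ?_, hk⟩
    exact ok_tm.2 ⟨_, rfl, ok_Rs'.2 rfl⟩
  | cons a x ih =>
    refine ok_nt.2 ⟨r1 A φ i q a, Or.inl (Or.inr ⟨(i, q, a), rfl⟩), rfl, _, _, rfl, ?_, hk⟩
    exact ok_tm.2 ⟨_, rfl, ih (A.step q a) _ _ (ok_Rs'.2 rfl) hx⟩

theorem ok_root (t : T (Option (X ⊕ Γ)) (Option (Bool × Q))) :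
    Ok (PP A φ E) t [nonterminal none] ↔
      ∃ i, ∃ x ∈ A.accepts, t = .nd (r0 A i) (tr A φ E i A.start x .nil) .nil := by
  constructor
  · intro h
    obtain ⟨r', hr', hin, t', f', rfl, ht, hf⟩ := ok_nt.1 h
    rcases hr' with (⟨i', rfl⟩ | ⟨⟨i', q', a⟩, rfl⟩) | ⟨⟨i', q'⟩, hq', rfl⟩
    · obtain ⟨x, k, rfl, hk, hx⟩ := (ok_tr_fwd A φ E t').1 i' A.start [] ht
      rw [ok_nil.1 hk, ok_nil.1 hf]
      exact ⟨i', x, hx, rfl⟩
    · cases hin
    · cases hin
  · rintro ⟨i, x, hx, rfl⟩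
    exact ok_nt.2 ⟨r0 A i, Or.inl (Or.inl ⟨i, rfl⟩), rfl, _, _, rfl,
      ok_tr_bwd A φ E i A.start x .nil [] Ok.nil hx, Ok.nil⟩

theorem root_yield (i : Bool) (x : List X) :
    (T.nd (r0 A i) (tr A φ E i A.start x .nil) .nil).yield =
      wd x (out (φ i) (E i) x).reverse := by
  simp [T.yield, tr_yield]

theorem wd_inj {x x' : List X} {y y' : List Γ} (h : wd x y = wd x' y') : x = x' ∧ y = y' := by
  induction x generalizing x' with
  | nil =>
    cases x' with
    | nil =>
      refine ⟨rfl, ?_⟩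
      simp only [wd, List.map_nil, List.nil_append, List.cons.injEq, true_and] at h
      exact List.map_injective_iff.2 (fun a b hab => by simpa using hab) h
    | cons a x' => simp [wd] at h
  | cons a x ih =>
    cases x' with
    | nil => simp [wd] at h
    | cons a' x' =>
      simp only [wd, List.map_cons, List.cons_append, List.cons.injEq, Option.some.injEq,
        Sum.inl.injEq] at h
      obtain ⟨h1, h2⟩ := ih (x' := x') h.2
      exact ⟨by rw [h.1, h1], h2⟩

end proof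

theorem K_ucfl {X Γ Q : Type} [Finite X] [Finite Γ] [Finite Q] (A : DFA X Q)
    (φ : Bool → X → List Γ) (E : Bool → List Γ) (hD : Disj A φ E) : UCFL (K A φ E) := by
  refine ⟨Option (Bool × Q), inferInstance, none, PP A φ E, PP_finite A φ E, ?_, ?_⟩
  · intro w
    constructor
    · rintro ⟨i, x, hx, rfl⟩
      exact ⟨_, (ok_root A φ E _).2 ⟨i, x, hx, rfl⟩, root_yield A φ E i x⟩
    · rintro ⟨t, ht, rfl⟩
      obtain ⟨i, x, hx, rfl⟩ := (ok_root A φ E _).1 ht
      exact ⟨i, x, hx, root_yield A φ E i x⟩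
  · intro t t' ht ht' hy
    obtain ⟨i, x, hx, rfl⟩ := (ok_root A φ E _).1 ht
    obtain ⟨i', x', hx', rfl⟩ := (ok_root A φ E _).1 ht'
    rw [root_yield, root_yield] at hy
    obtain ⟨rfl, h2⟩ := wd_inj hy
    have h3 := List.reverse_injective h2
    have hi : i = i' := by
      cases i <;> cases i'
      · rfl
      · exact absurd h3 (hD x hx)
      · exact absurd h3.symm (hD x hx)
      · rfl
    rw [hi]

end Pool.Agent.Helper450.NP
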