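import Mathlib
import Pool.Agent.Helper450.NP.Base

set_option autoImplicit false

/-!
Derivation trees of context-free grammars, unambiguous grammars, contexts, and the pair
languages used to show that the cylinder of unambiguous context-free languages is not principal.
-/

namespace Pool.Agent.Helper450.NP


/-- size of a forest -/
def T.size {α N : Type} : T α N → ℕ
  | .nil => 0
  | .tm _ f => f.size + 1
  | .nd _ t f => t.size + f.size + 1

theorem split_aux {α N : Type} (P : Set (ContextFreeRule α N)) (c : ℕ) (hc : 1 ≤ c)
    {f : T α N} {s : List (Symbol α N)} (h : Ok P f s) (hl : s.length * c < f.yield.length) :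
    ∃ (s1 : List (Symbol α N)) (B : N) (s2 : List (Symbol α N)) (w1 w2 : List α) (t' : T α N),
      s = s1 ++ .nonterminal B :: s2 ∧ f.yield = w1 ++ t'.yield ++ w2 ∧ Gen P s1 w1 ∧ Gen P s2 w2 ∧
      Ok P t' [.nonterminal B] ∧ c < t'.yield.length ∧ t'.size ≤ f.size := by
  induction h with
  | nil => simp [T.yield] at hl
  | tm a f s hf ih =>
    have h1 : s.length * c < f.yield.length := by
      simp only [T.yield, List.length_cons] at hl
      nlinarith
    obtain ⟨s1, B, s2, w1, w2, t', e1, e2, ⟨t1, g1, g1'⟩, g2, g3, g4, g5⟩ := ih h1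
    refine ⟨.terminal a :: s1, B, s2, a :: w1, w2, t', ?_, ?_, ⟨.tm a t1, Ok.tm a t1 s1 g1, ?_⟩, g2, g3, g4, ?_⟩
    · rw [e1]; rfl
    · simp only [T.yield]; rw [e2]; rfl
    · simp only [T.yield]; rw [g1']
    · simp only [T.size]; omega
  | nd r t f s hr ht hf iht ihf =>
    by_cases hct : c < t.yield.length
    · refine ⟨[], r.input, s, [], f.yield, .nd r t .nil, rfl, ?_, ⟨.nil, Ok.nil, rfl⟩, ⟨f, hf, rfl⟩, Ok.nd r t .nil [] hr ht Ok.nil, ?_, ?_⟩
      · simp [T.yield]
      · simpa [T.yield] using hct
      · simp [T.size]
    · have h1 : s.length * c < f.yield.length := by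
        simp only [T.yield, List.length_cons, List.length_append] at hl
        nlinarith
      obtain ⟨s1, B, s2, w1, w2, t', e1, e2, ⟨t1, g1, g1'⟩, g2, g3, g4, g5⟩ := ihf h1
      refine ⟨.nonterminal r.input :: s1, B, s2, t.yield ++ w1, w2, t', ?_, ?_, ⟨.nd r t t1, Ok.nd r t t1 s1 hr ht g1, ?_⟩, g2, g3, g4, ?_⟩
      · rw [e1]; rfl
      · simp only [T.yield]; rw [e2]; simp [List.append_assoc]
      · simp only [T.yield]; rw [g1']
      · simp only [T.size]; omega

theorem chain_aux {α N : Type} (P : Set (ContextFreeRule α N)) (b : ℕ)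
    (hb : ∀ r ∈ P, r.output.length ≤ b) (n : ℕ) : ∀ (m : ℕ) (A : N) (t : T α N),
    Ok P t [.nonterminal A] → t.size ≤ m → b ^ n < t.yield.length →
    ∃ (a : ℕ → N) (U V Y : ℕ → List α), a 0 = A ∧ U 0 = [] ∧ V 0 = [] ∧
      (∀ j ≤ n, Gen P [.nonterminal (a j)] (Y j) ∧ t.yield = U j ++ Y j ++ V j) ∧
      (∀ j < n, ∃ u v, Cx P (a j) u (a (j + 1)) v ∧ U (j + 1) = U j ++ u ∧
        V (j + 1) = v ++ V j ∧ 1 ≤ u.length + v.length) := by
  induction n with
  | zero =>
    intro m A t ht _ _
    refine ⟨fun _ => A, fun _ => [], fun _ => [], fun _ => t.yield, rfl, rfl, rfl, ?_, ?_⟩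
    · intro j _
      exact ⟨⟨t, ht, rfl⟩, by simp⟩
    · intro j hj
      exact absurd hj (Nat.not_lt_zero j)
  | succ n ihn =>
    intro m
    induction m with
    | zero =>
      intro A t ht hm _
      cases ht with
      | nd r t' f s hr ht' hf =>
        simp [T.size] at hm
    | succ m ihm =>
      intro A t ht hm hl
      cases ht with
      | nd r t' f s hr ht' hf =>
        cases hf
        have hy : (T.nd r t' .nil).yield = t'.yield := by simp [T.yield]
        rw [hy] at hl ⊢
        have hb1 : 1 ≤ b := by
          by_contra h0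
          have hb0 : b = 0 := by omega
          have h1 := hb r hr
          rw [hb0] at h1
          have h2 : r.output = [] := List.length_eq_zero_iff.mp (Nat.le_zero.mp h1)
          rw [h2] at ht'
          cases ht'
          simp [T.yield] at hl
        have hlen : r.output.length * b ^ n < t'.yield.length := by
          refine lt_of_le_of_lt ?_ hl
          rw [pow_succ, mul_comm (b ^ n) b]
          exact Nat.mul_le_mul_right _ (hb r hr)
        obtain ⟨s1, B, s2, w1, w2, t'', e1, e2, g1, g2, g3, g4, g5⟩ := split_aux P (b ^ n) (Nat.one_le_pow _ _ hb1) ht' hlen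
        have hsz : t''.size ≤ m := by
          simp only [T.size] at hm
          omega
        have hGy : Gen P [.nonterminal r.input] t'.yield := ⟨.nd r t' .nil, Ok.nd r t' .nil [] hr ht' Ok.nil, hy⟩
        by_cases hw : w1 = [] ∧ w2 = []
        · obtain ⟨hw1, hw2⟩ := hw
          subst hw1 hw2
          have e3 : t'.yield = t''.yield := by rw [e2]; simp
          obtain ⟨a, U, V, Y, ha, hU, hV, hj, hs⟩ := ihm B t'' g3 hsz (by rw [← e3]; exact hl)
          refine ⟨fun j => if j = 0 then r.input else a j, U, V, Y, rfl, hU, hV, ?_, ?_⟩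
          · intro j hjn
            obtain ⟨k1, k2⟩ := hj j hjn
            refine ⟨?_, by rw [e3]; exact k2⟩
            by_cases h0 : j = 0
            · subst h0
              rw [hU, hV] at k2
              simp only [List.nil_append, List.append_nil] at k2
              rw [← k2, ← e3]
              exact hGy
            · simp only [h0, if_false]
              exact k1
          · intro j hjn
            obtain ⟨u, v, k1, k2, k3, k4⟩ := hs j hjn
            refine ⟨u, v, ?_, k2, k3, k4⟩
            by_cases h0 : j = 0
            · subst h0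
              rw [ha] at k1
              have := Cx.step r s1 s2 B [] [] u (a (0 + 1)) v hr e1 g1 g2 k1
              simpa using this
            · simp only [h0, if_false]
              exact k1
        · have hw1 : 1 ≤ w1.length + w2.length := by
            by_contra h0
            apply hw
            constructor
            · exact List.length_eq_zero_iff.mp (by omega)
            · exact List.length_eq_zero_iff.mp (by omega)
          obtain ⟨a, U, V, Y, ha, hU, hV, hj, hs⟩ := ihn m B t'' g3 hsz g4
          refine ⟨fun j => Nat.casesOn j r.input a, fun j => Nat.casesOn j [] (fun i => w1 ++ U i),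
            fun j => Nat.casesOn j [] (fun i => V i ++ w2), fun j => Nat.casesOn j t'.yield Y, rfl, rfl, rfl, ?_, ?_⟩
          · intro j hjn
            cases j with
            | zero => exact ⟨hGy, by simp⟩
            | succ j =>
              obtain ⟨k1, k2⟩ := hj j (by omega)
              refine ⟨k1, ?_⟩
              show t'.yield = (w1 ++ U j) ++ Y j ++ (V j ++ w2)
              rw [e2, k2]
              simp [List.append_assoc]
          · intro j hjn
            cases j with
            | zero =>
              refine ⟨w1, w2, ?_, ?_, ?_, hw1⟩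
              · show Cx P r.input w1 (a 0) w2
                rw [ha]
                have := Cx.step r s1 s2 B w1 w2 [] B [] hr e1 g1 g2 (Cx.refl B)
                simpa using this
              · show w1 ++ U 0 = [] ++ w1
                rw [hU]; simp
              · show V 0 ++ w2 = w2 ++ []
                rw [hV]; simp
            | succ j =>
              obtain ⟨u, v, k1, k2, k3, k4⟩ := hs j (by omega)
              refine ⟨u, v, k1, ?_, ?_, k4⟩
              · show w1 ++ U (j + 1) = (w1 ++ U j) ++ u
                rw [k2]; simp [List.append_assoc]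
              · show V (j + 1) ++ w2 = v ++ (V j ++ w2)
                rw [k3]; simp [List.append_assoc]

theorem chain_of_long {α N : Type} (P : Set (ContextFreeRule α N)) (b : ℕ)
    (hb : ∀ r ∈ P, r.output.length ≤ b) (n : ℕ) (A : N) (y : List α)
    (h : Gen P [.nonterminal A] y) (hl : b ^ n < y.length) :
    ∃ (a : ℕ → N) (U V Y : ℕ → List α), a 0 = A ∧ U 0 = [] ∧ V 0 = [] ∧
      (∀ j ≤ n, Gen P [.nonterminal (a j)] (Y j) ∧ y = U j ++ Y j ++ V j) ∧
      (∀ j < n, ∃ u v, Cx P (a j) u (a (j + 1)) v ∧ U (j + 1) = U j ++ u ∧
        V (j + 1) = v ++ V j ∧ 1 ≤ u.length + v.length) := by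
  obtain ⟨t, ht, hty⟩ := h
  subst hty
  exact chain_aux P b hb n t.size A t ht le_rfl hl

end Pool.Agent.Helper450.NP
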