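import Mathlib
import Pool.Agent.Helper450.NP.Base

set_option autoImplicit false

/-!
Derivation trees of context-free grammars, unambiguous grammars, contexts, and the pair
languages used to show that the cylinder of unambiguous context-free languages is not principal.
-/

namespace Pool.Agent.Helper450.NP


/-- the conclusion of `spine_path` -/
def SpPath {α N : Type} (P : Set (ContextFreeRule α N)) (d : α) (S : N) (y1 y2 : List α) : Prop :=
    ∃ (t : ℕ) (a : ℕ → N) (U V : ℕ → List α), a 0 = S ∧ U 0 = [] ∧ V 0 = [] ∧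
      (∀ k < t, ∃ r ∈ P, r.input = a k ∧ ∃ s1 s2 u v,
        r.output = s1 ++ .nonterminal (a (k + 1)) :: s2 ∧ Gen P s1 u ∧ Gen P s2 v ∧
        U (k + 1) = U k ++ u ∧ V (k + 1) = v ++ V k) ∧
      (∀ k ≤ t, ∃ m1 m2, y1 = U k ++ m1 ∧ y2 = m2 ++ V k ∧
        Gen P [.nonterminal (a k)] (m1 ++ d :: m2)) ∧
      (∃ r ∈ P, r.input = a t ∧ ∃ s1 s2 u v, r.output = s1 ++ .terminal d :: s2 ∧
        Gen P s1 u ∧ Gen P s2 v ∧ y1 = U t ++ u ∧ y2 = v ++ V t)

/-- splitting of a forest at a terminal position -/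
def SpSplit {α N : Type} (P : Set (ContextFreeRule α N)) (d : α) (s : List (Symbol α N))
    (y1 y2 : List α) : Prop :=
  (∃ s1 s2, s = s1 ++ .terminal d :: s2 ∧ Gen P s1 y1 ∧ Gen P s2 y2) ∨
  (∃ s1 B s2 u m1 m2 v, s = s1 ++ .nonterminal B :: s2 ∧ y1 = u ++ m1 ∧ y2 = m2 ++ v ∧
    Gen P s1 u ∧ Gen P s2 v ∧ SpPath P d B m1 m2)

theorem spPath_of_split {α N : Type} (P : Set (ContextFreeRule α N)) (d : α)
    (r : ContextFreeRule α N) (hr : r ∈ P) (y1 y2 : List α)
    (hG : Gen P [.nonterminal r.input] (y1 ++ d :: y2)) (h : SpSplit P d r.output y1 y2) :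
    SpPath P d r.input y1 y2 := by
  rcases h with ⟨s1, s2, hs, h1, h2⟩ | ⟨s1, B, s2, u, m1, m2, v, hs, hy1, hy2, h1, h2, hp⟩
  · refine ⟨0, fun _ => r.input, fun _ => [], fun _ => [], rfl, rfl, rfl, ?_, ?_, ?_⟩
    · intro k hk
      exact absurd hk (Nat.not_lt_zero k)
    · intro k _
      exact ⟨y1, y2, by simp, by simp, hG⟩
    · exact ⟨r, hr, rfl, s1, s2, y1, y2, hs, h1, h2, by simp, by simp⟩
  · obtain ⟨t', a', U', V', ha, hU, hV, hstep, hmid, hlast⟩ := hp
    refine ⟨t' + 1, fun k => Nat.casesOn k r.input a', fun k => Nat.casesOn k [] (fun j => u ++ U' j),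
      fun k => Nat.casesOn k [] (fun j => V' j ++ v), rfl, rfl, rfl, ?_, ?_, ?_⟩
    · intro k hk
      cases k with
      | zero =>
        refine ⟨r, hr, rfl, s1, s2, u, v, ?_, h1, h2, ?_, ?_⟩
        · change r.output = s1 ++ .nonterminal (a' 0) :: s2
          rw [ha]; exact hs
        · change u ++ U' 0 = [] ++ u
          rw [hU]; simp
        · change V' 0 ++ v = v ++ []
          rw [hV]; simp
      | succ k =>
        obtain ⟨r', hr', hin, s1', s2', u', v', hout, hg1, hg2, hU2, hV2⟩ :=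
          hstep k (Nat.lt_of_succ_lt_succ hk)
        refine ⟨r', hr', hin, s1', s2', u', v', hout, hg1, hg2, ?_, ?_⟩
        · change u ++ U' (k + 1) = (u ++ U' k) ++ u'
          rw [hU2, List.append_assoc]
        · change V' (k + 1) ++ v = v' ++ (V' k ++ v)
          rw [hV2, List.append_assoc]
    · intro k hk
      cases k with
      | zero =>
        exact ⟨y1, y2, by simp, by simp, hG⟩
      | succ k =>
        obtain ⟨n1, n2, hn1, hn2, hg⟩ := hmid k (Nat.le_of_succ_le_succ hk)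
        refine ⟨n1, n2, ?_, ?_, hg⟩
        · change y1 = (u ++ U' k) ++ n1
          rw [hy1, hn1, List.append_assoc]
        · change y2 = n2 ++ (V' k ++ v)
          rw [hy2, hn2, List.append_assoc]
    · obtain ⟨r', hr', hin, s1', s2', u', v', hout, hg1, hg2, hU2, hV2⟩ := hlast
      refine ⟨r', hr', hin, s1', s2', u', v', hout, hg1, hg2, ?_, ?_⟩
      · change y1 = (u ++ U' t') ++ u'
        rw [hy1, hU2, List.append_assoc]
      · change y2 = v' ++ (V' t' ++ v)
        rw [hy2, hV2, List.append_assoc]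

theorem spSplit_of_ok {α N : Type} (P : Set (ContextFreeRule α N)) (d : α) (t : T α N) :
    ∀ (s : List (Symbol α N)) (y1 y2 : List α), Ok P t s → t.yield = y1 ++ d :: y2 →
      SpSplit P d s y1 y2 := by
  induction t with
  | nil =>
    intro s y1 y2 _ hy
    simp [T.yield] at hy
  | tm a f ih =>
    intro s y1 y2 hok hy
    cases hok with
    | tm _ _ s hf =>
      simp only [T.yield] at hy
      cases y1 with
      | nil =>
        simp only [List.nil_append, List.cons.injEq] at hy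
        obtain ⟨rfl, hy⟩ := hy
        left
        exact ⟨[], s, rfl, ⟨.nil, Ok.nil, rfl⟩, ⟨f, hf, hy⟩⟩
      | cons b y1 =>
        simp only [List.cons_append, List.cons.injEq] at hy
        obtain ⟨rfl, hy⟩ := hy
        rcases ih s y1 y2 hf hy with ⟨s1, s2, hs, ⟨t1, ht1, hy1⟩, h2⟩ |
          ⟨s1, B, s2, u, m1, m2, v, hs, hy1, hy2, ⟨t1, ht1, hyu⟩, h2, hp⟩
        · left
          exact ⟨.terminal a :: s1, s2, by rw [hs]; rfl, ⟨.tm a t1, Ok.tm a t1 s1 ht1, by
            simp [T.yield, hy1]⟩, h2⟩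
        · right
          exact ⟨.terminal a :: s1, B, s2, a :: u, m1, m2, v, by rw [hs]; rfl, by rw [hy1]; rfl,
            hy2, ⟨.tm a t1, Ok.tm a t1 s1 ht1, by simp [T.yield, hyu]⟩, h2, hp⟩
  | nd r t f iht ihf =>
    intro s y1 y2 hok hy
    cases hok with
    | nd _ _ _ s hr ht hf =>
      simp only [T.yield] at hy
      have hF : ∀ as, y1 = t.yield ++ as → f.yield = as ++ d :: y2 →
          SpSplit P d (.nonterminal r.input :: s) y1 y2 := by
        intro as h1 h2
        rcases ihf s as y2 hf h2 with ⟨s1, s2, hs, ⟨t1, ht1, hy1⟩, h2⟩ |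
          ⟨s1, B, s2, u, m1, m2, v, hs, hy1, hy2, ⟨t1, ht1, hyu⟩, h2, hp⟩
        · left
          exact ⟨.nonterminal r.input :: s1, s2, by rw [hs]; rfl,
            ⟨.nd r t t1, Ok.nd r t t1 s1 hr ht ht1, by simp [T.yield, hy1, h1]⟩, h2⟩
        · right
          exact ⟨.nonterminal r.input :: s1, B, s2, t.yield ++ u, m1, m2, v, by rw [hs]; rfl,
            by rw [h1, hy1, List.append_assoc], hy2,
            ⟨.nd r t t1, Ok.nd r t t1 s1 hr ht ht1, by simp [T.yield, hyu]⟩, h2, hp⟩
      rcases List.append_eq_append_iff.1 hy with ⟨as, h1, h2⟩ | ⟨bs, h1, h2⟩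
      · exact hF as h1 h2
      · cases bs with
        | nil =>
          refine hF [] ?_ ?_
          · simpa using h1.symm
          · simpa using h2.symm
        | cons b bs =>
          simp only [List.cons_append, List.cons.injEq] at h2
          obtain ⟨rfl, h2⟩ := h2
          have h3 := iht r.output y1 bs ht h1
          right
          refine ⟨[], r.input, s, [], y1, bs, f.yield, rfl, rfl, h2, ⟨.nil, Ok.nil, rfl⟩,
            ⟨f, hf, rfl⟩, ?_⟩
          refine spPath_of_split P d r hr y1 bs ?_ h3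
          exact ⟨.nd r t .nil, Ok.nd r t .nil [] hr ht Ok.nil, by simp [T.yield, h1]⟩

theorem spine_path {α N : Type} (P : Set (ContextFreeRule α N)) (S : N) (y1 y2 : List α) (d : α)
    (h : Gen P [.nonterminal S] (y1 ++ d :: y2)) :
    ∃ (t : ℕ) (a : ℕ → N) (U V : ℕ → List α), a 0 = S ∧ U 0 = [] ∧ V 0 = [] ∧
      (∀ k < t, ∃ r ∈ P, r.input = a k ∧ ∃ s1 s2 u v,
        r.output = s1 ++ .nonterminal (a (k + 1)) :: s2 ∧ Gen P s1 u ∧ Gen P s2 v ∧
        U (k + 1) = U k ++ u ∧ V (k + 1) = v ++ V k) ∧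
      (∀ k ≤ t, ∃ m1 m2, y1 = U k ++ m1 ∧ y2 = m2 ++ V k ∧
        Gen P [.nonterminal (a k)] (m1 ++ d :: m2)) ∧
      (∃ r ∈ P, r.input = a t ∧ ∃ s1 s2 u v, r.output = s1 ++ .terminal d :: s2 ∧
        Gen P s1 u ∧ Gen P s2 v ∧ y1 = U t ++ u ∧ y2 = v ++ V t) := by
  obtain ⟨t, hok, hy⟩ := h
  have hnil : ∀ u, Gen P ([] : List (Symbol α N)) u → u = [] := by
    rintro u ⟨t0, h0, hu⟩
    cases h0
    simpa [T.yield] using hu.symm
  rcases spSplit_of_ok P d t _ y1 y2 hok hy with ⟨s1, s2, hs, -, -⟩ |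
    ⟨s1, B, s2, u, m1, m2, v, hs, hy1, hy2, h1, h2, hp⟩
  · exfalso
    cases s1 with
    | nil => simp at hs
    | cons b s1 => simp at hs
  · cases s1 with
    | nil =>
      simp only [List.nil_append, List.cons.injEq, Symbol.nonterminal.injEq] at hs
      obtain ⟨rfl, rfl⟩ := hs
      have hu := hnil u h1
      have hv := hnil v h2
      subst hu hv
      simp only [List.nil_append] at hy1
      simp only [List.append_nil] at hy2
      subst hy1 hy2
      exact hp
    | cons b s1 => simp at hs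

end Pool.Agent.Helper450.NP
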