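import Mathlib
import Pool.Agent.Helper450.NP.Base

set_option autoImplicit false


namespace Pool.Agent.Helper450.NP

/-- The position `i` of the image `w.flatMap f` lies `o` letters inside the image of the
letter number `k` of `w`, where `(k, o) = loc f w i`. -/
def loc {Y B : Type} (f : Y → List B) : List Y → ℕ → ℕ × ℕ
  | [], i => (0, i)
  | y :: w, i => if i < (f y).length then (0, i) else
      ((loc f w (i - (f y).length)).1 + 1, (loc f w (i - (f y).length)).2)

/-- The label of a position: current letter, offset, state. -/
def lab {Y B σ : Type} (f : Y → List B) (M : DFA Y σ) (w : List Y) (i : ℕ) :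
    Option Y × ℕ × σ :=
  (w[(loc f w i).1]?, (loc f w i).2, M.eval (w.take (loc f w i).1))

theorem loc_cons_lt {Y B : Type} (f : Y → List B) (y : Y) (w : List Y) (i : ℕ)
    (h : i < (f y).length) : loc f (y :: w) i = (0, i) := by
  simp only [loc, if_pos h]

theorem loc_cons_ge {Y B : Type} (f : Y → List B) (y : Y) (w : List Y) (i : ℕ)
    (h : ¬ i < (f y).length) : loc f (y :: w) i =
      ((loc f w (i - (f y).length)).1 + 1, (loc f w (i - (f y).length)).2) := by
  simp only [loc, if_neg h]

theorem loc_fst_le {Y B : Type} (f : Y → List B) (w : List Y) (i : ℕ)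
    (hi : i ≤ (w.flatMap f).length) : (loc f w i).1 ≤ w.length := by
  induction w generalizing i with
  | nil => simp [loc]
  | cons y w ih =>
    rw [List.flatMap_cons, List.length_append] at hi
    by_cases h : i < (f y).length
    · rw [loc_cons_lt f y w i h]; exact Nat.zero_le _
    · rw [loc_cons_ge f y w i h, List.length_cons]
      exact Nat.succ_le_succ (ih _ (by omega))

theorem loc_snd_bound {Y B : Type} (f : Y → List B) (m : ℕ) (hm : ∀ y, (f y).length ≤ m)
    (w : List Y) (i : ℕ) (hi : i ≤ (w.flatMap f).length) : (loc f w i).2 ≤ m := by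
  induction w generalizing i with
  | nil =>
    simp only [List.flatMap_nil, List.length_nil] at hi
    simp only [loc]
    omega
  | cons y w ih =>
    rw [List.flatMap_cons, List.length_append] at hi
    by_cases h : i < (f y).length
    · rw [loc_cons_lt f y w i h]
      have := hm y
      simp only
      omega
    · rw [loc_cons_ge f y w i h]
      exact ih _ (by omega)

theorem loc_spec {Y B : Type} (f : Y → List B) (w : List Y) (i : ℕ)
    (hi : i ≤ (w.flatMap f).length) :
    ∃ l : List B, (w.flatMap f).take i = (w.take (loc f w i).1).flatMap f ++ l ∧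
      l.length = (loc f w i).2 ∧
      (∀ y, w[(loc f w i).1]? = some y → l <+: f y ∧ l.length < (f y).length) ∧
      (w[(loc f w i).1]? = none → l = []) := by
  induction w generalizing i with
  | nil =>
    simp only [List.flatMap_nil, List.length_nil] at hi
    have : i = 0 := by omega
    subst this
    refine ⟨[], ?_, ?_, ?_, ?_⟩
    · simp
    · simp [loc]
    · intro y hy
      simp at hy
    · intro _; rfl
  | cons y w ih =>
    rw [List.flatMap_cons, List.length_append] at hi
    by_cases h : i < (f y).length
    · rw [loc_cons_lt f y w i h]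
      refine ⟨(f y).take i, ?_, ?_, ?_, ?_⟩
      · rw [List.flatMap_cons, List.take_append_of_le_length h.le]
        simp
      · rw [List.length_take, min_eq_left h.le]
      · intro z hz
        simp only [List.getElem?_cons_zero, Option.some.injEq] at hz
        subst hz
        refine ⟨List.take_prefix _ _, ?_⟩
        rw [List.length_take]
        exact lt_of_le_of_lt (min_le_left _ _) h
      · intro hn
        simp at hn
    · rw [loc_cons_ge f y w i h]
      obtain ⟨l, h1, h2, h3, h4⟩ := ih (i - (f y).length) (by omega)
      refine ⟨l, ?_, h2, ?_, ?_⟩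
      · simp only [List.take_succ_cons, List.flatMap_cons]
        rw [List.append_assoc, ← h1, List.take_append, List.take_of_length_le (by omega)]
      · intro z hz
        simp only [List.getElem?_cons_succ] at hz
        exact h3 z hz
      · intro hn
        simp only [List.getElem?_cons_succ] at hn
        exact h4 hn

theorem loc_mono {Y B : Type} (f : Y → List B) (w : List Y) (i j : ℕ) (hij : i ≤ j)
    (hj : j ≤ (w.flatMap f).length) : (loc f w i).1 ≤ (loc f w j).1 := by
  induction w generalizing i j with
  | nil => simp [loc]
  | cons y w ih =>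
    rw [List.flatMap_cons, List.length_append] at hj
    by_cases h : i < (f y).length
    · rw [loc_cons_lt f y w i h]; exact Nat.zero_le _
    · rw [loc_cons_ge f y w i h, loc_cons_ge f y w j (by omega)]
      exact Nat.succ_le_succ (ih _ _ (by omega) (by omega))

/-- At a boundary of letters the location is exact (all images are nonempty). -/
theorem loc_boundary {Y B : Type} (f : Y → List B) (hf : ∀ y, f y ≠ []) (w1 w2 : List Y) :
    loc f (w1 ++ w2) (w1.flatMap f).length = (w1.length, 0) := by
  induction w1 with
  | nil =>
    simp only [List.flatMap_nil, List.length_nil, List.nil_append]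
    cases w2 with
    | nil => rfl
    | cons y w =>
      rw [loc_cons_lt f y w 0 (List.length_pos_iff.2 (hf y))]
  | cons y w1 ih =>
    rw [List.cons_append, List.flatMap_cons, List.length_append, loc_cons_ge _ _ _ _ (by omega),
      Nat.add_sub_cancel_left, ih, List.length_cons]

theorem pump_aux {Y B : Type} (f : Y → List B) (l U : List B) (u : List Y)
    (h : l ++ U = u.flatMap f ++ l) (n : ℕ) :
    l ++ (List.replicate n U).flatten = ((List.replicate n u).flatten).flatMap f ++ l := by
  induction n with
  | zero => simp
  | succ n ih =>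
    rw [List.replicate_succ, List.flatten_cons, List.replicate_succ, List.flatten_cons,
      List.flatMap_append, ← List.append_assoc, h, List.append_assoc, ih, List.append_assoc]

theorem eval_aux {Y σ : Type} (M : DFA Y σ) (s : σ) (u : List Y) (h : M.evalFrom s u = s) (n : ℕ) :
    M.evalFrom s (List.replicate n u).flatten = s := by
  induction n with
  | zero => simp [DFA.evalFrom]
  | succ n ih =>
    rw [List.replicate_succ, List.flatten_cons, DFA.evalFrom_of_append, h, ih]

theorem same_aux {Y B : Type} (f : Y → List B) (o : Option Y) (l l' : List B)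
    (hl : l.length = l'.length)
    (h1 : ∀ y, o = some y → l <+: f y ∧ l.length < (f y).length) (h2 : o = none → l = [])
    (h1' : ∀ y, o = some y → l' <+: f y ∧ l'.length < (f y).length) (h2' : o = none → l' = []) :
    l = l' := by
  cases o with
  | none => rw [h2 rfl, h2' rfl]
  | some y =>
    have e1 := List.prefix_iff_eq_take.1 (h1 y rfl).1
    have e2 := List.prefix_iff_eq_take.1 (h1' y rfl).1
    rw [e1, e2, hl]

theorem pump_positions {Y B σ : Type} (f : Y → List B) (M : DFA Y σ)
    (w : List Y) (al U y V ga : List B) (hw : w.flatMap f = al ++ U ++ y ++ V ++ ga)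
    (h1 : lab f M w al.length = lab f M w (al ++ U).length)
    (h2 : lab f M w (al ++ U ++ y).length = lab f M w (al ++ U ++ y ++ V).length) :
    ∃ w1 u m v w3 : List Y, w = w1 ++ u ++ m ++ v ++ w3 ∧
      (∀ n : ℕ, al ++ (List.replicate n U).flatten ++ y ++ (List.replicate n V).flatten ++ ga =
        (w1 ++ (List.replicate n u).flatten ++ m ++ (List.replicate n v).flatten ++ w3).flatMap f) ∧
      (w ∈ M.accepts → ∀ n : ℕ,
        w1 ++ (List.replicate n u).flatten ++ m ++ (List.replicate n v).flatten ++ w3
          ∈ M.accepts) ∧
      w1.length = (loc f w al.length).1 ∧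
      (w1 ++ u).length = (loc f w (al ++ U).length).1 ∧
      (w1 ++ u ++ m).length = (loc f w (al ++ U ++ y).length).1 ∧
      (w1 ++ u ++ m ++ v).length = (loc f w (al ++ U ++ y ++ V).length).1 := by
  have hlen : (w.flatMap f).length = (al ++ U ++ y ++ V).length + ga.length := by
    rw [hw, List.length_append]
  have l1 : al.length ≤ (al ++ U).length := by simp
  have l2 : (al ++ U).length ≤ (al ++ U ++ y).length := by simp
  have l3 : (al ++ U ++ y).length ≤ (al ++ U ++ y ++ V).length := by simp
  have l4 : (al ++ U ++ y ++ V).length ≤ (w.flatMap f).length := by omega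
  obtain ⟨p1, a1, a2, a3, a4⟩ := loc_spec f w al.length (by omega)
  obtain ⟨p2, b1, b2, b3, b4⟩ := loc_spec f w (al ++ U).length (by omega)
  obtain ⟨p3, c1, c2, c3, c4⟩ := loc_spec f w (al ++ U ++ y).length (by omega)
  obtain ⟨p4, d1, d2, d3, d4⟩ := loc_spec f w (al ++ U ++ y ++ V).length (by omega)
  have m1 := loc_mono f w _ _ l1 (by omega)
  have m2 := loc_mono f w _ _ l2 (by omega)
  have m3 := loc_mono f w _ _ l3 (by omega)
  have m4 := loc_fst_le f w _ l4
  simp only [lab, Prod.mk.injEq] at h1 h2
  obtain ⟨h11, h12, h13⟩ := h1
  obtain ⟨h21, h22, h23⟩ := h2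
  have t1 : (w.flatMap f).take al.length = al := by
    rw [hw, List.append_assoc, List.append_assoc, List.append_assoc, List.take_left]
  have t2 : (w.flatMap f).take (al ++ U).length = al ++ U := by
    rw [hw, List.append_assoc, List.append_assoc, List.take_left]
  have t3 : (w.flatMap f).take (al ++ U ++ y).length = al ++ U ++ y := by
    rw [hw, List.append_assoc (al ++ U ++ y), List.take_left]
  have t4 : (w.flatMap f).take (al ++ U ++ y ++ V).length = al ++ U ++ y ++ V := by
    rw [hw, List.take_left]
  rw [t1] at a1
  rw [t2] at b1
  rw [t3] at c1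
  rw [t4] at d1
  -- same offsets
  have hp : p1 = p2 := by
    apply same_aux f (w[(loc f w al.length).1]?) p1 p2 (by rw [a2, b2, h12]) a3 a4
    · rw [h11]; exact b3
    · rw [h11]; exact b4
  have hr : p3 = p4 := by
    apply same_aux f (w[(loc f w (al ++ U ++ y).length).1]?) p3 p4 (by rw [c2, d2, h22]) c3 c4
    · rw [h21]; exact d3
    · rw [h21]; exact d4
  subst hp
  subst hr
  generalize hk1 : (loc f w al.length).1 = k1 at *
  generalize hk2 : (loc f w (al ++ U).length).1 = k2 at *
  generalize hk3 : (loc f w (al ++ U ++ y).length).1 = k3 at *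
  generalize hk4 : (loc f w (al ++ U ++ y ++ V).length).1 = k4 at *
  have e2 : w.take k2 = w.take k1 ++ (w.take k2).drop k1 := by
    have := List.take_append_drop k1 (w.take k2)
    rw [List.take_take, min_eq_left m1] at this
    exact this.symm
  have e3 : w.take k3 = w.take k2 ++ (w.take k3).drop k2 := by
    have := List.take_append_drop k2 (w.take k3)
    rw [List.take_take, min_eq_left m2] at this
    exact this.symm
  have e4 : w.take k4 = w.take k3 ++ (w.take k4).drop k3 := by
    have := List.take_append_drop k3 (w.take k4)
    rw [List.take_take, min_eq_left m3] at this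
    exact this.symm
  have e5 : w = w.take k4 ++ w.drop k4 := (List.take_append_drop k4 w).symm
  generalize hw1 : w.take k1 = w1 at *
  generalize hu : (w.take k2).drop k1 = u at *
  generalize hm : (w.take k3).drop k2 = m at *
  generalize hv : (w.take k4).drop k3 = v at *
  generalize hw3 : w.drop k4 = w3 at *
  have q2 : w.take k2 = w1 ++ u := e2
  have q3 : w.take k3 = w1 ++ u ++ m := by rw [e3, q2]
  have q4 : w.take k4 = w1 ++ u ++ m ++ v := by rw [e4, q3]
  have q5 : w = w1 ++ u ++ m ++ v ++ w3 := by rw [← q4]; exact e5
  rw [q2] at b1 h13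
  rw [q3] at c1 h23
  rw [q4] at d1 h23
  -- the four relations
  have r1 : p1 ++ U = u.flatMap f ++ p1 := by
    have : al ++ U = (w1 ++ u).flatMap f ++ p1 := b1
    rw [a1, List.flatMap_append, List.append_assoc, List.append_assoc] at this
    exact List.append_cancel_left this
  have r2 : p1 ++ y = m.flatMap f ++ p3 := by
    have : (al ++ U) ++ y = (w1 ++ u ++ m).flatMap f ++ p3 := c1
    rw [b1, List.flatMap_append (xs := w1 ++ u), List.append_assoc, List.append_assoc] at this
    exact List.append_cancel_left this
  have r3 : p3 ++ V = v.flatMap f ++ p3 := by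
    have : (al ++ U ++ y) ++ V = (w1 ++ u ++ m ++ v).flatMap f ++ p3 := d1
    rw [c1, List.flatMap_append (xs := w1 ++ u ++ m),
      List.append_assoc (List.flatMap f (w1 ++ u ++ m)) p3 V,
      List.append_assoc (List.flatMap f (w1 ++ u ++ m)) (List.flatMap f v) p3] at this
    exact List.append_cancel_left this
  have r4 : p3 ++ ga = w3.flatMap f := by
    have : (al ++ U ++ y ++ V) ++ ga = (w1 ++ u ++ m ++ v ++ w3).flatMap f := by
      rw [← q5]; exact hw.symm
    rw [d1, List.flatMap_append (xs := w1 ++ u ++ m ++ v), List.append_assoc] at this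
    exact List.append_cancel_left this
  refine ⟨w1, u, m, v, w3, q5, ?_, ?_, ?_, ?_, ?_, ?_⟩
  · intro n
    have s1 := pump_aux f p1 U u r1 n
    have s2 := pump_aux f p3 V v r3 n
    simp only [List.flatMap_append]
    rw [← r4]
    calc al ++ (List.replicate n U).flatten ++ y ++ (List.replicate n V).flatten ++ ga
        = w1.flatMap f ++ (p1 ++ (List.replicate n U).flatten) ++ y ++
          (List.replicate n V).flatten ++ ga := by
          conv_lhs => rw [a1]
          simp only [List.append_assoc]
      _ = w1.flatMap f ++ ((List.replicate n u).flatten).flatMap f ++ (p1 ++ y) ++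
          (List.replicate n V).flatten ++ ga := by
          rw [s1]; simp only [List.append_assoc]
      _ = w1.flatMap f ++ ((List.replicate n u).flatten).flatMap f ++ m.flatMap f ++
          (p3 ++ (List.replicate n V).flatten) ++ ga := by
          rw [r2]; simp only [List.append_assoc]
      _ = _ := by
          rw [s2]; simp only [List.append_assoc]
  · intro hacc n
    rw [DFA.mem_accepts] at hacc ⊢
    have g1 : M.evalFrom (M.eval w1) u = M.eval w1 := by
      have : M.eval (w1 ++ u) = M.evalFrom (M.eval w1) u := by
        unfold DFA.eval; exact M.evalFrom_of_append _ _ _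
      rw [← this]; exact h13.symm
    have g2 : M.evalFrom (M.eval (w1 ++ u ++ m)) v = M.eval (w1 ++ u ++ m) := by
      have : M.eval (w1 ++ u ++ m ++ v) = M.evalFrom (M.eval (w1 ++ u ++ m)) v := by
        unfold DFA.eval; exact M.evalFrom_of_append _ _ _
      rw [← this]; exact h23.symm
    have g3 : M.eval (w1 ++ u ++ m) = M.evalFrom (M.eval w1) m := by
      have a : M.eval (w1 ++ u ++ m) = M.evalFrom (M.eval (w1 ++ u)) m := by
        unfold DFA.eval; exact M.evalFrom_of_append _ _ _
      rw [a, ← h13]
    have g4 : M.eval (w1 ++ (List.replicate n u).flatten ++ m ++ (List.replicate n v).flatten ++ w3)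
        = M.evalFrom (M.evalFrom (M.evalFrom (M.evalFrom (M.eval w1) (List.replicate n u).flatten) m)
          (List.replicate n v).flatten) w3 := by
      unfold DFA.eval
      rw [M.evalFrom_of_append, M.evalFrom_of_append, M.evalFrom_of_append, M.evalFrom_of_append]
    have g5 : M.eval w = M.evalFrom (M.eval (w1 ++ u ++ m)) w3 := by
      rw [q5, ← g2]
      unfold DFA.eval
      rw [M.evalFrom_of_append, M.evalFrom_of_append (x := w1 ++ u ++ m)]
    rw [g4, eval_aux M _ u g1 n, ← g3, eval_aux M _ v g2 n, ← g5]
    exact hacc
  · rw [← hw1, List.length_take, min_eq_left (by omega)]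
  · rw [← q2, List.length_take, min_eq_left (by omega)]
  · rw [← q3, List.length_take, min_eq_left (by omega)]
  · rw [← q4, List.length_take, min_eq_left (by omega)]

end Pool.Agent.Helper450.NP
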