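import Mathlib
import Pool.Agent.Helper450.NP.Base

set_option autoImplicit false

/-!
Derivation trees of context-free grammars, unambiguous grammars, contexts, and the pair
languages used to show that the cylinder of unambiguous context-free languages is not principal.
-/

namespace Pool.Agent.Helper450.NP


namespace KP

variable {X Γ Q : Type}

def lw (x : List X) : List (Option (X ⊕ Γ)) := x.map (fun a => some (Sum.inl a))
def rw' (y : List Γ) : List (Option (X ⊕ Γ)) := y.map (fun c => some (Sum.inr c))

theorem wd_eq (x : List X) (y : List Γ) : wd x y = lw x ++ none :: rw' y := rfl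

theorem lw_append (x x' : List X) : (lw (x ++ x') : List (Option (X ⊕ Γ))) = lw x ++ lw x' := by
  simp [lw]
theorem rw_append (x x' : List Γ) : (rw' (x ++ x') : List (Option (X ⊕ Γ))) = rw' x ++ rw' x' := by
  simp [rw']

theorem lw_length (x : List X) : (lw x : List (Option (X ⊕ Γ))).length = x.length := by
  simp [lw]
theorem rw_length (x : List Γ) : (rw' x : List (Option (X ⊕ Γ))).length = x.length := by
  simp [rw']

theorem lw_wd (x x' : List X) (y : List Γ) : lw x ++ wd x' y = wd (x ++ x') y := by
  simp [wd_eq, lw_append]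
theorem wd_rw (x : List X) (y y' : List Γ) : wd x y ++ rw' y' = wd x (y ++ y') := by
  simp [wd_eq, rw_append]

theorem lw_inj {x x' : List X} (h : (lw x : List (Option (X ⊕ Γ))) = lw x') : x = x' := by
  have hf : Function.Injective (fun a : X => (some (Sum.inl a) : Option (X ⊕ Γ))) := by
    intro a b hab
    simpa using hab
  exact List.map_injective_iff.2 hf h
theorem rw_inj {x x' : List Γ} (h : (rw' x : List (Option (X ⊕ Γ))) = rw' x') : x = x' := by
  have hf : Function.Injective (fun a : Γ => (some (Sum.inr a) : Option (X ⊕ Γ))) := by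
    intro a b hab
    simpa using hab
  exact List.map_injective_iff.2 hf h

theorem lw_split {x : List X} {a b : List (Option (X ⊕ Γ))} (h : lw x = a ++ b) :
    ∃ x1 x2, x = x1 ++ x2 ∧ a = lw x1 ∧ b = lw x2 := by
  obtain ⟨x1, x2, h1, h2, h3⟩ := List.map_eq_append_iff.1 h
  exact ⟨x1, x2, h1, h2.symm, h3.symm⟩
theorem rw_split {x : List Γ} {a b : List (Option (X ⊕ Γ))} (h : rw' x = a ++ b) :
    ∃ x1 x2, x = x1 ++ x2 ∧ a = rw' x1 ∧ b = rw' x2 := by
  obtain ⟨x1, x2, h1, h2, h3⟩ := List.map_eq_append_iff.1 h
  exact ⟨x1, x2, h1, h2.symm, h3.symm⟩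

theorem wd_split {x : List X} {y : List Γ} {a b : List (Option (X ⊕ Γ))} (h : wd x y = a ++ b) :
    (∃ y1 y2, y = y1 ++ y2 ∧ a = wd x y1 ∧ b = rw' y2) ∨
      (∃ x1 x2, x = x1 ++ x2 ∧ a = lw x1 ∧ b = wd x2 y) := by
  rw [wd_eq, List.append_eq_append_iff] at h
  rcases h with ⟨a', h1, h2⟩ | ⟨c', h1, h2⟩
  · cases a' with
    | nil =>
      right
      refine ⟨x, [], by simp, by simpa using h1, ?_⟩
      simp only [List.nil_append] at h2
      rw [wd_eq, ← h2]
      simp [lw]
    | cons t a'' =>
      left
      simp only [List.cons_append, List.cons.injEq] at h2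
      obtain ⟨h3, h4⟩ := h2
      obtain ⟨y1, y2, e1, e2, e3⟩ := rw_split h4
      refine ⟨y1, y2, e1, ?_, e3⟩
      rw [h1, ← h3, e2, wd_eq]
  · right
    obtain ⟨x1, x2, e1, e2, e3⟩ := lw_split h1
    refine ⟨x1, x2, e1, e2, ?_⟩
    rw [h2, e3, wd_eq]

theorem wd_inj {x x' : List X} {y y' : List Γ} (h : wd x y = wd x' y') : x = x' ∧ y = y' := by
  have h0 : wd x y = lw x' ++ none :: rw' y' := h
  rcases wd_split h0 with ⟨y1, y2, e1, e2, e3⟩ | ⟨x1, x2, e1, e2, e3⟩
  · exfalso
    have : none ∈ (lw x' : List (Option (X ⊕ Γ))) := by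
      rw [e2, wd_eq]; simp
    simp [lw] at this
  · have hx1 := lw_inj e2
    rw [wd_eq] at e3
    cases x2 with
    | nil =>
      simp only [lw, List.map_nil, List.nil_append, List.cons.injEq, true_and] at e3
      refine ⟨by rw [e1, List.append_nil, hx1], (rw_inj e3).symm⟩
    | cons t x2 =>
      simp [lw] at e3

theorem count_lw (x : List X) :
    (lw x : List (Option (X ⊕ Γ))).countP (fun s => s.isNone) = 0 := by
  rw [List.countP_eq_zero]
  intro a ha
  simp only [lw, List.mem_map] at ha
  obtain ⟨b, -, rfl⟩ := ha
  simp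
theorem count_rw (x : List Γ) :
    (rw' x : List (Option (X ⊕ Γ))).countP (fun s => s.isNone) = 0 := by
  rw [List.countP_eq_zero]
  intro a ha
  simp only [rw', List.mem_map] at ha
  obtain ⟨b, -, rfl⟩ := ha
  simp
theorem count_wd (x : List X) (y : List Γ) : (wd x y).countP (fun s => s.isNone) = 1 := by
  rw [wd_eq, List.countP_append, count_lw, List.countP_cons, count_rw]
  simp

theorem count_K {A : DFA X Q} {φ : Bool → X → List Γ} {E : Bool → List Γ}
    {w : List (Option (X ⊕ Γ))} (h : w ∈ K A φ E) : w.countP (fun s => s.isNone) = 1 := by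
  obtain ⟨i, x, hx, rfl⟩ := h
  exact count_wd _ _

theorem mem_K {A : DFA X Q} {φ : Bool → X → List Γ} {E : Bool → List Γ}
    {x : List X} {y : List Γ} (h : wd x y ∈ K A φ E) :
    x ∈ A.accepts ∧ ∃ i, y.reverse = out (φ i) (E i) x := by
  obtain ⟨i, x', hx, h⟩ := h
  obtain ⟨rfl, rfl⟩ := wd_inj h
  exact ⟨hx, i, by rw [List.reverse_reverse]⟩

theorem word_lemma {U Y Z V S X' : List Γ} (h2 : X' ++ (U ++ U) ++ Y = Z ++ (V ++ V) ++ S)
    (h3 : X' ++ (U ++ (U ++ U)) ++ Y = Z ++ (V ++ (V ++ V)) ++ S) :
    X' ++ U ++ Y = Z ++ V ++ S := by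
  simp only [List.append_assoc] at h2 h3 ⊢
  rcases List.append_eq_append_iff.1 h2 with ⟨D, e1, e2⟩ | ⟨D, e1, e2⟩
  · -- Z = X' ++ D, U U Y = D V V S
    subst e1
    simp only [List.append_assoc] at h3 ⊢
    have h3' := List.append_cancel_left h3
    -- U U U Y = D V V V S
    rw [e2] at h3'
    have h4 : (U ++ D) ++ (V ++ (V ++ S)) = (D ++ V) ++ (V ++ (V ++ S)) := by
      simpa [List.append_assoc] using h3'
    have h5 : U ++ D = D ++ V := List.append_cancel_right h4
    have h6 : U ++ (U ++ Y) = U ++ (D ++ (V ++ S)) := by
      rw [e2, ← List.append_assoc, ← h5, List.append_assoc]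
    rw [List.append_cancel_left h6]
  · -- X' = Z ++ D, V V S = D U U Y
    subst e1
    simp only [List.append_assoc] at h3 ⊢
    have h3' := List.append_cancel_left h3
    rw [e2] at h3'
    have h4 : (D ++ U) ++ (U ++ (U ++ Y)) = (V ++ D) ++ (U ++ (U ++ Y)) := by
      simpa [List.append_assoc] using h3'
    have h5 : D ++ U = V ++ D := List.append_cancel_right h4
    have h6 : V ++ (V ++ S) = V ++ (D ++ (U ++ Y)) := by
      rw [e2, ← List.append_assoc, h5, List.append_assoc]
    rw [List.append_cancel_left h6]

theorem flat_len {φ : X → List Γ} (hφ : ∀ a, φ a ≠ []) (x : List X)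
    (h : (x.flatMap φ).length = 0) : x = [] := by
  cases x with
  | nil => rfl
  | cons a x =>
    exfalso
    simp only [List.flatMap_cons, List.length_append] at h
    have : 0 < (φ a).length := List.length_pos_iff.2 (hφ a)
    omega

theorem out_len {φ : X → List Γ} {E : List Γ} (x : List X) :
    (out φ E x).length = (x.flatMap φ).length + E.length := by
  simp only [out, List.length_append]

end KP

theorem K_pump {X Γ Q : Type} (A : DFA X Q) (φ : Bool → X → List Γ) (E : Bool → List Γ)
    (hφ : ∀ i a, φ i a ≠ []) (hD : Disj A φ E) (i : Bool) (x : List X) (hx : x ∈ A.accepts)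
    (w1 u m v w3 : List (Option (X ⊕ Γ)))
    (hw : wd x (out (φ i) (E i) x).reverse = w1 ++ u ++ m ++ v ++ w3)
    (h2 : w1 ++ (u ++ u) ++ m ++ (v ++ v) ++ w3 ∈ K A φ E)
    (h3 : w1 ++ (u ++ (u ++ u)) ++ m ++ (v ++ (v ++ v)) ++ w3 ∈ K A φ E) :
    (u = [] ∧ v = []) ∨
      ((w1 ++ u).length ≤ x.length ∧ x.length < (w1 ++ u ++ m).length ∧
        ((x.take w1.length).flatMap (φ i)).length + v.length =
          ((x.take (w1 ++ u).length).flatMap (φ i)).length) := by
  have hc2 := KP.count_K h2
  generalize hy : (out (φ i) (E i) x).reverse = y at hw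
  have hy' : y.reverse = out (φ i) (E i) x := by rw [← hy, List.reverse_reverse]
  have hyl : y.length = (x.flatMap (φ i)).length + (E i).length := by
    rw [← KP.out_len, ← hy', List.length_reverse]
  have hw' : wd x y = w1 ++ (u ++ (m ++ (v ++ w3))) := by
    simpa only [List.append_assoc] using hw
  rcases KP.wd_split hw' with ⟨ya, y', e1, e2, e3⟩ | ⟨xa, x', e1, e2, e3⟩
  · -- none in w1
    left
    obtain ⟨yu, y'', f1, f2, f3⟩ := KP.rw_split e3.symm
    obtain ⟨ym, y3, g1, g2, g3⟩ := KP.rw_split f3.symm
    obtain ⟨yv, yc, k1, k2, k3⟩ := KP.rw_split g3.symm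
    subst e2 f2 g2 k2 k3
    have a2 : wd x ya ++ (KP.rw' yu ++ KP.rw' yu) ++ KP.rw' ym ++ (KP.rw' yv ++ KP.rw' yv) ++
        KP.rw' yc = wd x (ya ++ (yu ++ yu) ++ ym ++ (yv ++ yv) ++ yc) := by
      simp only [← KP.rw_append, KP.wd_rw]
    have a3 : wd x ya ++ (KP.rw' yu ++ (KP.rw' yu ++ KP.rw' yu)) ++ KP.rw' ym ++
        (KP.rw' yv ++ (KP.rw' yv ++ KP.rw' yv)) ++
        KP.rw' yc = wd x (ya ++ (yu ++ (yu ++ yu)) ++ ym ++ (yv ++ (yv ++ yv)) ++ yc) := by
      simp only [← KP.rw_append, KP.wd_rw]
    rw [a2] at h2
    rw [a3] at h3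
    obtain ⟨-, i2, b2⟩ := KP.mem_K h2
    obtain ⟨-, i3, b3⟩ := KP.mem_K h3
    have c1 := congrArg List.length hy'
    have c2 := congrArg List.length b2
    have c3 := congrArg List.length b3
    have hlen : yu.length + yv.length = 0 := by
      rw [e1, f1, g1, k1] at c1
      simp only [List.length_reverse, List.length_append] at c1 c2 c3
      by_cases hi : i2 = i
      · subst hi; omega
      · by_cases hi' : i3 = i
        · subst hi'; omega
        · have : i2 = i3 := by
            cases i <;> cases i2 <;> cases i3 <;> simp_all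
          subst this; omega
    have h5 : yu = [] := List.length_eq_zero_iff.1 (by omega)
    have h6 : yv = [] := List.length_eq_zero_iff.1 (by omega)
    subst h5 h6
    exact ⟨rfl, rfl⟩
  · rcases KP.wd_split e3.symm with ⟨y1, y2, f1, f2, f3⟩ | ⟨xu, x'', f1, f2, f3⟩
    · -- none in u
      exfalso
      rw [f2] at hc2
      simp only [List.countP_append, KP.count_wd] at hc2
      omega
    · rcases KP.wd_split f3.symm with ⟨yb, y'', g1, g2, g3⟩ | ⟨xm, x3, g1, g2, g3⟩
      · -- none in m
        right
        obtain ⟨yv, yc, k1, k2, k3⟩ := KP.rw_split g3.symm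
        subst e2 f2 g2 k2 k3
        have a2 : KP.lw xa ++ (KP.lw xu ++ KP.lw xu) ++ wd x'' yb ++ (KP.rw' yv ++ KP.rw' yv) ++
            KP.rw' yc = wd (xa ++ (xu ++ xu) ++ x'') (yb ++ (yv ++ yv) ++ yc) := by
          simp only [← KP.rw_append, ← KP.lw_append, KP.wd_rw, KP.lw_wd]
        have a3 : KP.lw xa ++ (KP.lw xu ++ (KP.lw xu ++ KP.lw xu)) ++ wd x'' yb ++
            (KP.rw' yv ++ (KP.rw' yv ++ KP.rw' yv)) ++
            KP.rw' yc = wd (xa ++ (xu ++ (xu ++ xu)) ++ x'') (yb ++ (yv ++ (yv ++ yv)) ++ yc) := by
          simp only [← KP.rw_append, ← KP.lw_append, KP.wd_rw, KP.lw_wd]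
        rw [a2] at h2
        rw [a3] at h3
        obtain ⟨-, i2, b2⟩ := KP.mem_K h2
        obtain ⟨-, i3, b3⟩ := KP.mem_K h3
        have hxe : x = xa ++ (xu ++ x'') := by rw [e1, f1]
        have hye : y = yb ++ (yv ++ yc) := by rw [g1, k1]
        have c1 := congrArg List.length hy'
        have c2 := congrArg List.length b2
        have c3 := congrArg List.length b3
        rw [hxe, hye] at c1
        simp only [out, List.length_reverse, List.length_append, List.flatMap_append] at c1 c2 c3
        have key : (xu.flatMap (φ i)).length = yv.length := by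
          by_cases hi : i2 = i
          · subst hi; omega
          · by_cases hi' : i3 = i
            · subst hi'; omega
            · exfalso
              have hii : i2 = i3 := by
                cases i <;> cases i2 <;> cases i3 <;> simp_all
              subst hii
              have b2' : yc.reverse ++ (yv.reverse ++ yv.reverse) ++ yb.reverse =
                  xa.flatMap (φ i2) ++ (xu.flatMap (φ i2) ++ xu.flatMap (φ i2)) ++
                    (x''.flatMap (φ i2) ++ E i2) := by
                have := b2
                simp only [out, List.reverse_append, List.flatMap_append,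
                  List.append_assoc] at this ⊢
                exact this
              have b3' : yc.reverse ++ (yv.reverse ++ (yv.reverse ++ yv.reverse)) ++ yb.reverse =
                  xa.flatMap (φ i2) ++ (xu.flatMap (φ i2) ++ (xu.flatMap (φ i2) ++
                    xu.flatMap (φ i2))) ++ (x''.flatMap (φ i2) ++ E i2) := by
                have := b3
                simp only [out, List.reverse_append, List.flatMap_append,
                  List.append_assoc] at this ⊢
                exact this
              have b1 := KP.word_lemma b2' b3'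
              have b1' : out (φ i) (E i) x = out (φ i2) (E i2) x := by
                rw [← hy', hye]
                conv_rhs => rw [hxe]
                simp only [out, List.reverse_append, List.flatMap_append,
                  List.append_assoc] at b1 ⊢
                exact b1
              have hne := hD x hx
              cases i <;> cases i2
              · exact hi rfl
              · exact hne b1'
              · exact hne b1'.symm
              · exact hi rfl
        refine ⟨?_, ?_, ?_⟩
        · rw [hxe]
          simp only [List.length_append, KP.lw_length]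
          omega
        · rw [hxe, KP.wd_eq]
          simp only [List.length_append, KP.lw_length, List.length_cons]
          omega
        · have t1 : x.take (KP.lw xa : List (Option (X ⊕ Γ))).length = xa := by
            rw [hxe, KP.lw_length, List.take_left]
          have t2 : x.take (KP.lw xa ++ KP.lw xu : List (Option (X ⊕ Γ))).length =
              xa ++ xu := by
            rw [hxe, List.length_append, KP.lw_length, KP.lw_length, ← List.append_assoc,
              ← List.length_append, List.take_left]
          rw [t1, t2, KP.rw_length, List.flatMap_append, List.length_append, key]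
      · rcases KP.wd_split g3.symm with ⟨y1, y2, k1, k2, k3⟩ | ⟨xv, xc, k1, k2, k3⟩
        · exfalso
          rw [k2] at hc2
          simp only [List.countP_append, KP.count_wd] at hc2
          omega
        · -- none in w3
          left
          subst e2 f2 g2 k2 k3
          have a2 : KP.lw xa ++ (KP.lw xu ++ KP.lw xu) ++ KP.lw xm ++ (KP.lw xv ++ KP.lw xv) ++
              wd xc y = wd (xa ++ (xu ++ xu) ++ xm ++ (xv ++ xv) ++ xc) y := by
            simp only [← KP.lw_append, KP.lw_wd]
          have a3 : KP.lw xa ++ (KP.lw xu ++ (KP.lw xu ++ KP.lw xu)) ++ KP.lw xm ++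
              (KP.lw xv ++ (KP.lw xv ++ KP.lw xv)) ++
              wd xc y = wd (xa ++ (xu ++ (xu ++ xu)) ++ xm ++ (xv ++ (xv ++ xv)) ++ xc) y := by
            simp only [← KP.lw_append, KP.lw_wd]
          rw [a2] at h2
          rw [a3] at h3
          obtain ⟨-, i2, b2⟩ := KP.mem_K h2
          obtain ⟨-, i3, b3⟩ := KP.mem_K h3
          have hxe : x = xa ++ (xu ++ (xm ++ (xv ++ xc))) := by rw [e1, f1, g1, k1]
          have c1 := congrArg List.length hy'
          have c2 := congrArg List.length b2
          have c3 := congrArg List.length b3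
          rw [hxe] at c1
          simp only [out, List.length_reverse, List.length_append, List.flatMap_append]
            at c1 c2 c3
          have key : ∃ j, (xu.flatMap (φ j)).length = 0 ∧ (xv.flatMap (φ j)).length = 0 := by
            by_cases hi : i2 = i
            · subst hi
              exact ⟨i2, by omega, by omega⟩
            · by_cases hi' : i3 = i
              · subst hi'
                exact ⟨i3, by omega, by omega⟩
              · have hii : i2 = i3 := by
                  cases i <;> cases i2 <;> cases i3 <;> simp_all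
                subst hii
                exact ⟨i2, by omega, by omega⟩
          obtain ⟨j, j1, j2⟩ := key
          have h5 : xu = [] := KP.flat_len (hφ j) xu j1
          have h6 : xv = [] := KP.flat_len (hφ j) xv j2
          subst h5 h6
          exact ⟨rfl, rfl⟩


end Pool.Agent.Helper450.NP
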