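import Mathlib
import Pool.Agent.Helper450.NP.Base

set_option autoImplicit false

/-!
Derivation trees of context-free grammars, unambiguous grammars, contexts, and the pair
languages used to show that the cylinder of unambiguous context-free languages is not principal.
-/

namespace Pool.Agent.Helper450.NP


/-! ### auxiliary lemmas -/

/-- concatenation of forests -/
def T.app_e2a {α N : Type} : T α N → T α N → T α N
  | .nil, f => f
  | .tm a g, f => .tm a (T.app_e2a g f)
  | .nd r t g, f => .nd r t (T.app_e2a g f)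

theorem T.yield_app_e2a {α N : Type} (g f : T α N) : (T.app_e2a g f).yield = g.yield ++ f.yield := by
  induction g with
  | nil => rfl
  | tm a g ih => simp only [T.app_e2a, T.yield, ih, List.cons_append]
  | nd r t g _ ih => simp only [T.app_e2a, T.yield, ih, List.append_assoc]

theorem Ok.app_e2a {α N : Type} {P : Set (ContextFreeRule α N)} {g f : T α N} {s s' : List (Symbol α N)}
    (hg : Ok P g s) (hf : Ok P f s') : Ok P (T.app_e2a g f) (s ++ s') := by
  induction hg with
  | nil => exact hf
  | tm a g s _ ih => exact Ok.tm a _ _ ih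
  | nd r t g s hr ht _ _ ih => exact Ok.nd r t _ _ hr ht ih

theorem Gen.app_e2a {α N : Type} {P : Set (ContextFreeRule α N)} {s s' : List (Symbol α N)} {w w' : List α}
    (h : Gen P s w) (h' : Gen P s' w') : Gen P (s ++ s') (w ++ w') := by
  obtain ⟨t, h1, h2⟩ := h
  obtain ⟨t', h3, h4⟩ := h'
  exact ⟨T.app_e2a t t', h1.app_e2a h3, by rw [T.yield_app_e2a, h2, h4]⟩

theorem Gen.rule {α N : Type} {P : Set (ContextFreeRule α N)} {r : ContextFreeRule α N} (hr : r ∈ P) {w : List α}
    (h : Gen P r.output w) : Gen P [.nonterminal r.input] w := by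
  obtain ⟨t, h1, h2⟩ := h
  exact ⟨.nd r t .nil, Ok.nd r t .nil [] hr h1 Ok.nil, by simp [T.yield, h2]⟩

theorem Cx.trans {α N : Type} {P : Set (ContextFreeRule α N)} {A B : N} {U V : List α} (h : Cx P A U B V) :
    ∀ {U' : List α} {C : N} {V' : List α}, Cx P B U' C V' → Cx P A (U ++ U') C (V' ++ V) := by
  induction h with
  | refl A => intro U' C V' h'; simpa using h'
  | step r s1 s2 B w1 w2 U C V hr ho h1 h2 _ ih =>
    intro U' C' V' h'
    have := Cx.step r s1 s2 B w1 w2 _ _ _ hr ho h1 h2 (ih h')
    simpa [List.append_assoc] using this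

theorem Cx.plug {α N : Type} {P : Set (ContextFreeRule α N)} {A B : N} {U V : List α} (h : Cx P A U B V) {y : List α}
    (hy : Gen P [.nonterminal B] y) : Gen P [.nonterminal A] (U ++ y ++ V) := by
  induction h with
  | refl A => simpa using hy
  | step r s1 s2 B w1 w2 U C V hr ho h1 h2 _ ih =>
    apply Gen.rule hr
    rw [ho]
    have h3 := h1.app_e2a ((ih hy).app_e2a h2)
    simpa [List.append_assoc] using h3

theorem rimg_append {X Γ B : Type} (f : Option (X ⊕ Γ) → List B) (y y' : List Γ) :
    rimg f (y ++ y') = rimg f y ++ rimg f y' := by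
  simp [rimg]

theorem exists_bound_list (l : List ℕ) : ∃ C, ∀ n ∈ l, n ≤ C := by
  induction l with
  | nil => exact ⟨0, by simp⟩
  | cons a l ih =>
    obtain ⟨C, hC⟩ := ih
    refine ⟨max a C, ?_⟩
    intro n hn
    rcases List.mem_cons.mp hn with h | h
    · rw [h]; exact le_max_left _ _
    · exact (hC n h).trans (le_max_right _ _)

/-- what an item knows about the prefix -/
def Pre {B N X Γ : Type} (P : Set (ContextFreeRule B N)) (S : N) (f : Option (X ⊕ Γ) → List B) (φ : X → List Γ)
    (p : List X) (b : Item B N) : Prop :=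
  ∃ al ga, Cx P S al b.2.1 ga ∧ p.flatMap (fun a => f (some (Sum.inl a))) = al ++ b.1 ∧
    rimg f (p.flatMap φ).reverse = b.2.2 ++ ga

/-- what an item knows about the suffix -/
def Post {B N X Γ : Type} (P : Set (ContextFreeRule B N)) (f : Option (X ⊕ Γ) → List B) (φ : X → List Γ)
    (E : List Γ) (s : List X) (b : Item B N) : Prop :=
  Gen P [.nonterminal b.2.1] (b.1 ++ (s.flatMap (fun a => f (some (Sum.inl a))) ++ ((f none ++ rimg f E.reverse) ++
    (rimg f (s.flatMap φ).reverse ++ b.2.2))))

theorem Pre.move {B N X Γ : Type} {P : Set (ContextFreeRule B N)} {S : N} {f : Option (X ⊕ Γ) → List B}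
    {φ : X → List Γ} {p : List X} {b b' : Item B N} {a : X} (h : Pre P S f φ p b)
    (hm : Move P b b' (f (some (Sum.inl a))) (rimg f (φ a).reverse)) : Pre P S f φ (p ++ [a]) b' := by
  obtain ⟨al, ga, h1, h2, h3⟩ := h
  obtain ⟨U, V, h4, h5, h6⟩ := hm
  refine ⟨al ++ U, V ++ ga, h1.trans h4, ?_, ?_⟩
  · rw [List.flatMap_append, h2, List.append_assoc, List.append_assoc]
    simp only [List.flatMap_cons, List.flatMap_nil, List.append_nil]
    rw [h5]
  · rw [List.flatMap_append, List.reverse_append, rimg_append, h3]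
    simp only [List.flatMap_cons, List.flatMap_nil, List.append_nil]
    rw [← List.append_assoc, h6, List.append_assoc]

theorem Post.move {B N X Γ : Type} {P : Set (ContextFreeRule B N)} {f : Option (X ⊕ Γ) → List B}
    {φ : X → List Γ} {E : List Γ} {s : List X} {b b' : Item B N} {a : X} (h : Post P f φ E s b')
    (hm : Move P b b' (f (some (Sum.inl a))) (rimg f (φ a).reverse)) : Post P f φ E (a :: s) b := by
  obtain ⟨U, V, h4, h5, h6⟩ := hm
  have h7 := h4.plug h
  unfold Post
  convert h7 using 1
  rw [List.flatMap_cons, List.flatMap_cons, List.reverse_append, rimg_append]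
  simp only [List.append_assoc]
  rw [h6, ← List.append_assoc b.1, h5]
  simp only [List.append_assoc]

/-- From a certificate: for every accepted word `x` and every prefix `p` of it there is a node in
a derivation tree of the image of `x $ (φ(x) E)^R` whose contexts are within bounded distance of the
images of `p` and of `φ(p)^R`. -/
theorem trace {B N X Γ Q : Type} (P : Set (ContextFreeRule B N)) (S : N)
    (f : Option (X ⊕ Γ) → List B) (A : DFA X Q) (φ : X → List Γ) (E : List Γ)
    (h : Cert P S A f φ E) :
    ∃ C : ℕ, ∀ x ∈ A.accepts, ∀ p s, x = p ++ s → ∃ (al : List B) (D : N) (ga y : List B),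
      Cx P S al D ga ∧ Gen P [.nonterminal D] y ∧
      al ++ y ++ ga = (wd x (out φ E x).reverse).flatMap f ∧
      al.length ≤ (p.flatMap (fun a => f (some (Sum.inl a)))).length ∧
      (p.flatMap (fun a => f (some (Sum.inl a)))).length ≤ al.length + C ∧
      ga.length ≤ (rimg f (p.flatMap φ).reverse).length ∧
      (rimg f (p.flatMap φ).reverse).length ≤ ga.length + C := by
  obtain ⟨F, hF0, hFs, hFf⟩ := h
  obtain ⟨C, hC⟩ := exists_bound_list ((F.flatMap (fun c => c.2)).map (fun b => b.1.length + b.2.2.length))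
  have hCb : ∀ c ∈ F, ∀ b ∈ c.2, b.1.length + b.2.2.length ≤ C := by
    intro c hc b hb
    apply hC
    exact List.mem_map.mpr ⟨b, List.mem_flatMap.mpr ⟨c, hc, hb⟩, rfl⟩
  have hpre : ∀ p : List X, ∃ c ∈ F, c.1 = A.eval p ∧ ∀ b ∈ c.2, Pre P S f φ p b := by
    intro p
    induction p using List.reverseRecOn with
    | nil =>
      refine ⟨_, hF0, rfl, ?_⟩
      intro b hb
      rw [List.mem_singleton] at hb
      subst hb
      exact ⟨[], [], Cx.refl S, by simp, by simp [rimg]⟩
    | append_singleton p a ih =>
      obtain ⟨c, hc, h1, h2⟩ := ih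
      obtain ⟨c', hc', h3, h4⟩ := hFs c hc a
      refine ⟨c', hc', ?_, ?_⟩
      · rw [h3, h1, DFA.eval_append_singleton]
      · intro b' hb'
        obtain ⟨b, hb, hm⟩ := h4 b' hb'
        exact (h2 b hb).move hm
  have hpost : ∀ s : List X, ∀ c ∈ F, A.evalFrom c.1 s ∈ A.accept → ∃ b ∈ c.2, Post P f φ E s b := by
    intro s
    induction s with
    | nil =>
      intro c hc hacc
      obtain ⟨b, hb, hfin⟩ := hFf c hc hacc
      refine ⟨b, hb, ?_⟩
      unfold Final at hfin
      unfold Post
      simpa [rimg, List.append_assoc] using hfin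
    | cons a s ih =>
      intro c hc hacc
      obtain ⟨c', hc', h3, h4⟩ := hFs c hc a
      obtain ⟨b', hb', hp⟩ := ih c' hc' (by rw [h3]; exact hacc)
      obtain ⟨b, hb, hm⟩ := h4 b' hb'
      exact ⟨b, hb, hp.move hm⟩
  refine ⟨C, ?_⟩
  rintro x hx p s rfl
  obtain ⟨c, hc, h1, h2⟩ := hpre p
  obtain ⟨b, hb, hpo⟩ := hpost s c hc (by
    rw [h1]
    have : A.eval (p ++ s) ∈ A.accept := hx
    rwa [DFA.eval, DFA.evalFrom_of_append] at this)
  obtain ⟨al, ga, h3, h4, h5⟩ := h2 b hb
  have hb1 := hCb c hc b hb
  refine ⟨al, b.2.1, ga, _, h3, hpo, ?_, ?_, ?_, ?_, ?_⟩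
  · have e1 : ∀ l : List X, (l.map (fun a => some (Sum.inl a) : X → Option (X ⊕ Γ))).flatMap f =
        l.flatMap (fun a => f (some (Sum.inl a))) := by
      intro l
      rw [List.flatMap_map]
    have e2 : ∀ l : List Γ, (l.map (fun a => some (Sum.inr a) : Γ → Option (X ⊕ Γ))).flatMap f =
        rimg f l := by
      intro l
      rw [List.flatMap_map]; rfl
    unfold wd out
    rw [List.flatMap_append, List.flatMap_cons, e1, e2, List.flatMap_append, List.flatMap_append,
      List.reverse_append, List.reverse_append, rimg_append, rimg_append, h4, h5]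
    simp only [List.append_assoc]
  · rw [h4, List.length_append]; omega
  · rw [h4, List.length_append]; omega
  · rw [h5, List.length_append]; omega
  · rw [h5, List.length_append]; omega

end Pool.Agent.Helper450.NP
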