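import Mathlib
import Pool.Agent.Helper450.NP.Base

set_option autoImplicit false

/-!
Derivation trees of context-free grammars, unambiguous grammars, contexts, and the pair
languages used to show that the cylinder of unambiguous context-free languages is not principal.
-/

namespace Pool.Agent.Helper450.NP


/-- One rewriting step of sentential forms. -/
def RStep {α N : Type} (P : Set (ContextFreeRule α N)) (s s' : List (Symbol α N)) : Prop :=
  ∃ r ∈ P, ∃ p q, s = p ++ .nonterminal r.input :: q ∧ s' = p ++ r.output ++ q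

namespace T

/-- concatenation of forests -/
def app {α N : Type} : T α N → T α N → T α N
  | nil, g => g
  | tm a f, g => tm a (f.app g)
  | nd r t f, g => nd r t (f.app g)

theorem yield_app {α N : Type} (f g : T α N) : (f.app g).yield = f.yield ++ g.yield := by
  induction f with
  | nil => rfl
  | tm a f ih => simp [app, yield, ih]
  | nd r t f _ ih => simp [app, yield, ih]

end T

theorem Ok.app {α N : Type} {P : Set (ContextFreeRule α N)} {f g : T α N}
    {s s' : List (Symbol α N)} (h : Ok P f s) (h' : Ok P g s') : Ok P (f.app g) (s ++ s') := by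
  induction h with
  | nil => exact h'
  | tm a f s _ ih => exact Ok.tm a _ _ ih
  | nd r t f s hr ht _ _ ih => exact Ok.nd r _ _ _ hr ht ih

theorem Ok.split {α N : Type} {P : Set (ContextFreeRule α N)} (s1 s2 : List (Symbol α N)) :
    ∀ t : T α N, Ok P t (s1 ++ s2) → ∃ f g, t = T.app f g ∧ Ok P f s1 ∧ Ok P g s2 := by
  induction s1 with
  | nil => exact fun t h => ⟨.nil, t, rfl, Ok.nil, h⟩
  | cons x s1 ih =>
    intro t h
    rw [List.cons_append] at h
    cases h with
    | tm a f _ hf =>
      obtain ⟨f', g, rfl, h1, h2⟩ := ih _ hf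
      exact ⟨.tm a f', g, rfl, Ok.tm a _ _ h1, h2⟩
    | nd r t f _ hr ht hf =>
      obtain ⟨f', g, rfl, h1, h2⟩ := ih _ hf
      exact ⟨.nd r t f', g, rfl, Ok.nd r _ _ _ hr ht h1, h2⟩

theorem gen_nil {α N : Type} (P : Set (ContextFreeRule α N)) (w : List α) :
    Gen P [] w ↔ w = [] := by
  constructor
  · rintro ⟨t, h, rfl⟩
    cases h
    rfl
  · rintro rfl
    exact ⟨.nil, Ok.nil, rfl⟩

theorem gen_append {α N : Type} (P : Set (ContextFreeRule α N)) (s1 s2 : List (Symbol α N))
    (w : List α) : Gen P (s1 ++ s2) w ↔ ∃ w1 w2, w = w1 ++ w2 ∧ Gen P s1 w1 ∧ Gen P s2 w2 := by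
  constructor
  · rintro ⟨t, h, rfl⟩
    obtain ⟨f, g, rfl, h1, h2⟩ := Ok.split _ _ _ h
    exact ⟨_, _, T.yield_app f g, ⟨f, h1, rfl⟩, ⟨g, h2, rfl⟩⟩
  · rintro ⟨w1, w2, rfl, ⟨f, h1, rfl⟩, ⟨g, h2, rfl⟩⟩
    exact ⟨f.app g, h1.app h2, T.yield_app f g⟩

theorem gen_tm {α N : Type} (P : Set (ContextFreeRule α N)) (a : α) (s : List (Symbol α N))
    (w : List α) : Gen P (.terminal a :: s) w ↔ ∃ w', w = a :: w' ∧ Gen P s w' := by
  constructor
  · rintro ⟨t, h, rfl⟩
    cases h with
    | tm _ f _ hf => exact ⟨_, rfl, f, hf, rfl⟩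
  · rintro ⟨w', rfl, f, hf, rfl⟩
    exact ⟨.tm a f, Ok.tm a _ _ hf, rfl⟩

theorem gen_nt {α N : Type} (P : Set (ContextFreeRule α N)) (A : N) (s : List (Symbol α N))
    (w : List α) : Gen P (.nonterminal A :: s) w ↔
      ∃ r ∈ P, r.input = A ∧ ∃ w1 w2, w = w1 ++ w2 ∧ Gen P r.output w1 ∧ Gen P s w2 := by
  constructor
  · rintro ⟨t, h, rfl⟩
    cases h with
    | nd r t f _ hr ht hf => exact ⟨r, hr, rfl, _, _, rfl, ⟨t, ht, rfl⟩, ⟨f, hf, rfl⟩⟩
  · rintro ⟨r, hr, rfl, w1, w2, rfl, ⟨t, ht, rfl⟩, ⟨f, hf, rfl⟩⟩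
    exact ⟨.nd r t f, Ok.nd r _ _ _ hr ht hf, rfl⟩

theorem gen_word {α N : Type} (P : Set (ContextFreeRule α N)) (w : List α) :
    Gen P (w.map .terminal) w := by
  induction w with
  | nil => exact (gen_nil P []).2 rfl
  | cons a w ih =>
    rw [List.map_cons, gen_tm]
    exact ⟨w, rfl, ih⟩

theorem RStep.ctx {α N : Type} {P : Set (ContextFreeRule α N)} {s s' : List (Symbol α N)}
    (h : RStep P s s') (p q : List (Symbol α N)) : RStep P (p ++ s ++ q) (p ++ s' ++ q) := by
  obtain ⟨r, hr, p', q', rfl, rfl⟩ := h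
  exact ⟨r, hr, p ++ p', q' ++ q, by simp, by simp⟩

theorem steps_ctx {α N : Type} {P : Set (ContextFreeRule α N)} {s s' : List (Symbol α N)}
    (h : Relation.ReflTransGen (RStep P) s s') (p q : List (Symbol α N)) :
    Relation.ReflTransGen (RStep P) (p ++ s ++ q) (p ++ s' ++ q) := by
  induction h with
  | refl => exact Relation.ReflTransGen.refl
  | tail _ h2 ih => exact ih.tail (RStep.ctx h2 p q)

theorem gen_back {α N : Type} {P : Set (ContextFreeRule α N)} {s s' : List (Symbol α N)}
    (h : RStep P s s') {w : List α} (hw : Gen P s' w) : Gen P s w := by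
  obtain ⟨r, hr, p, q, rfl, rfl⟩ := h
  rw [gen_append] at hw
  obtain ⟨w12, w3, rfl, h12, h3⟩ := hw
  rw [gen_append] at h12
  obtain ⟨w1, w2, rfl, h1, h2⟩ := h12
  rw [gen_append]
  refine ⟨w1, w2 ++ w3, by simp, h1, ?_⟩
  rw [gen_nt]
  exact ⟨r, hr, rfl, w2, w3, rfl, h2, h3⟩

theorem ok_steps {α N : Type} {P : Set (ContextFreeRule α N)} {t : T α N}
    {s : List (Symbol α N)} (h : Ok P t s) :
    Relation.ReflTransGen (RStep P) s (t.yield.map .terminal) := by
  induction h with
  | nil => exact Relation.ReflTransGen.refl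
  | tm a f s _ ih =>
    have := steps_ctx ih [.terminal a] []
    simpa [T.yield] using this
  | nd r t f s hr _ _ iht ihf =>
    have h1 : RStep P (.nonterminal r.input :: s) (r.output ++ s) :=
      ⟨r, hr, [], s, rfl, rfl⟩
    have h2 := steps_ctx iht [] s
    have h3 := steps_ctx ihf (t.yield.map .terminal) []
    simp only [List.nil_append, List.append_nil] at h2 h3
    have h4 := (Relation.ReflTransGen.single h1).trans (h2.trans h3)
    simpa [T.yield] using h4

theorem gen_iff {α N : Type} (P : Set (ContextFreeRule α N)) (s : List (Symbol α N))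
    (w : List α) :
    Gen P s w ↔ Relation.ReflTransGen (RStep P) s (w.map .terminal) := by
  constructor
  · rintro ⟨t, h, rfl⟩
    exact ok_steps h
  · intro h
    induction h using Relation.ReflTransGen.head_induction_on with
    | refl => exact gen_word P w
    | head h1 _ ih => exact gen_back h1 ih

theorem split_cons {β : Type} (l1 l2 s1 s2 : List β) (x : β) (h : l1 ++ l2 = s1 ++ x :: s2) :
    (∃ t, l1 = s1 ++ x :: t ∧ s2 = t ++ l2) ∨ (∃ t, s1 = l1 ++ t ∧ l2 = t ++ x :: s2) := by
  rw [List.append_eq_append_iff] at h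
  rcases h with ⟨a, h1, h2⟩ | ⟨c, h1, h2⟩
  · exact Or.inr ⟨a, h1, h2⟩
  · cases c with
    | nil =>
      right
      refine ⟨[], ?_, ?_⟩
      · simpa using h1.symm
      · simpa using h2.symm
    | cons y c =>
      left
      rw [List.cons_append, List.cons.injEq] at h2
      obtain ⟨rfl, rfl⟩ := h2
      exact ⟨c, h1, rfl⟩

theorem cx_back {α N : Type} (P : Set (ContextFreeRule α N)) (U : List α) (B : N)
    (V : List α) (s : List (Symbol α N))
    (h : Relation.ReflTransGen (RStep P) s (U.map .terminal ++ .nonterminal B :: V.map .terminal)) :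
    ∃ (s1 : List (Symbol α N)) (A' : N) (s2 : List (Symbol α N)) (U1 V2 U' V' : List α),
      s = s1 ++ .nonterminal A' :: s2 ∧ Gen P s1 U1 ∧ Gen P s2 V2 ∧ Cx P A' U' B V' ∧
      U = U1 ++ U' ∧ V = V' ++ V2 := by
  induction h using Relation.ReflTransGen.head_induction_on with
  | refl => exact ⟨_, B, _, U, V, [], [], rfl, gen_word P U, gen_word P V, Cx.refl B, by simp, by simp⟩
  | head h1 _ ih =>
    obtain ⟨r, hr, p, q, rfl, rfl⟩ := h1
    obtain ⟨s1, A', s2, U1, V2, U', V', he, hU1, hV2, hcx, rfl, rfl⟩ := ih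
    rw [List.append_assoc] at he
    rcases split_cons _ _ _ _ _ he with ⟨t, h1, h2⟩ | ⟨t, h1, h2⟩
    · -- in `p`
      refine ⟨s1, A', t ++ .nonterminal r.input :: q, U1, V2, U', V', ?_, hU1, ?_, hcx, rfl, rfl⟩
      · rw [h1]; simp
      · refine gen_back ⟨r, hr, t, q, rfl, rfl⟩ ?_
        rw [List.append_assoc, ← h2]
        exact hV2
    · rcases split_cons _ _ _ _ _ h2 with ⟨t', h3, h4⟩ | ⟨t', h3, h4⟩
      · -- in the output
        rw [h1, gen_append] at hU1
        rw [h4, gen_append] at hV2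
        obtain ⟨Up, Uo, rfl, hUp, hUo⟩ := hU1
        obtain ⟨Vo, Vq, rfl, hVo, hVq⟩ := hV2
        exact ⟨p, r.input, q, Up, Vq, Uo ++ U', V' ++ Vo, rfl, hUp, hVq,
          Cx.step r t t' A' Uo Vo U' B V' hr h3 hUo hVo hcx, by simp, by simp⟩
      · -- in `q`
        refine ⟨p ++ .nonterminal r.input :: t', A', s2, U1, V2, U', V', ?_, ?_, hV2, hcx, rfl, rfl⟩
        · rw [h4]; simp
        · refine gen_back ⟨r, hr, p, t', rfl, rfl⟩ ?_
          rw [List.append_assoc, ← h3, ← h1]
          exact hU1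

theorem cx_iff {α N : Type} (P : Set (ContextFreeRule α N)) (A : N) (U : List α) (B : N)
    (V : List α) :
    Cx P A U B V ↔ Relation.ReflTransGen (RStep P) [.nonterminal A]
      (U.map .terminal ++ .nonterminal B :: V.map .terminal) := by
  constructor
  · intro h
    induction h with
    | refl A => exact Relation.ReflTransGen.refl
    | step r s1 s2 B w1 w2 U C V hr ho h1 h2 _ ih =>
      have e1 : RStep P [.nonterminal r.input] r.output := ⟨r, hr, [], [], rfl, by simp⟩
      have e2 := steps_ctx ((gen_iff P s1 w1).1 h1) [] (.nonterminal B :: s2)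
      have e3 := steps_ctx ((gen_iff P s2 w2).1 h2) (w1.map .terminal ++ [.nonterminal B]) []
      have e4 := steps_ctx ih (w1.map .terminal) (w2.map .terminal)
      rw [ho] at e1
      simp only [List.nil_append, List.append_nil, List.append_assoc, List.singleton_append,
        List.cons_append] at e2 e3 e4
      have e5 := (Relation.ReflTransGen.single e1).trans (e2.trans (e3.trans e4))
      simpa using e5
  · intro h
    obtain ⟨s1, A', s2, U1, V2, U', V', he, hU1, hV2, hcx, rfl, rfl⟩ := cx_back P U B V _ h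
    have h1 : s1 = [] ∧ A' = A ∧ s2 = [] := by
      cases s1 with
      | nil =>
        rw [List.nil_append, List.cons.injEq] at he
        refine ⟨rfl, ?_, he.2.symm⟩
        have := he.1
        injection this with h
        exact h.symm
      | cons y s1 =>
        rw [List.cons_append, List.cons.injEq] at he
        have := he.2
        exact absurd this (by simp)
    obtain ⟨rfl, rfl, rfl⟩ := h1
    rw [gen_nil] at hU1 hV2
    subst hU1 hV2
    simpa using hcx

end Pool.Agent.Helper450.NP
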