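import Mathlib
import Pool.Agent.Helper450.NP.Base
import Pool.Agent.Helper450.NP.C1
import Pool.Agent.Helper450.NP.C3
import Pool.Agent.Helper450.NP.C4
import Pool.Agent.Helper450.NP.E2a
import Pool.Agent.Helper450.NP.F1

set_option autoImplicit false

namespace Pool.Agent.Helper450.NP

/-- Iterated contexts. -/
theorem Cx.iter {α N : Type} {P : Set (ContextFreeRule α N)} {A : N} {U V : List α}
    (h : Cx P A U A V) (n : ℕ) :
    Cx P A (List.replicate n U).flatten A (List.replicate n V).flatten := by
  induction n with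
  | zero => exact Cx.refl A
  | succ n ih =>
    have h1 := ih.trans h
    have e1 : (List.replicate n U).flatten ++ U = (List.replicate (n + 1) U).flatten := by
      rw [List.replicate_succ', List.flatten_append]; simp
    have e2 : V ++ (List.replicate n V).flatten = (List.replicate (n + 1) V).flatten := by
      rw [List.replicate_succ, List.flatten_cons]
    rw [e1, e2] at h1
    exact h1

section main

variable {B N X Γ Q σ : Type}
  (P : Set (ContextFreeRule B N)) (S : N)
  (f : Option (X ⊕ Γ) → List B) (hf : ∀ y, f y ≠ []) (M : DFA (Option (X ⊕ Γ)) σ)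
  (A : DFA X Q) (φ : Bool → X → List Γ) (E : Bool → List Γ)
  (hφ : ∀ i a, φ i a ≠ []) (hD : Disj A φ E)
  (hK : ∀ w, w ∈ K A φ E ↔ (Gen P [.nonterminal S] (w.flatMap f) ∧ w ∈ M.accepts))
  (i : Bool)

/-- The word of the `i`-th pair language. -/
abbrev ww (x : List X) : List (Option (X ⊕ Γ)) := wd x (out (φ i) (E i) x).reverse

include hφ hD hK in
theorem loop_lemma (x : List X) (hx : x ∈ A.accepts) (al U y V ga : List B) (D : N)
    (hw : (ww φ E i x).flatMap f = al ++ U ++ y ++ V ++ ga)
    (hc1 : Cx P S al D ga) (hc2 : Cx P D U D V) (hy : Gen P [.nonterminal D] y)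
    (h1 : lab f M (ww φ E i x) al.length = lab f M (ww φ E i x) (al ++ U).length)
    (h2 : lab f M (ww φ E i x) (al ++ U ++ y).length =
      lab f M (ww φ E i x) (al ++ U ++ y ++ V).length) :
    (U = [] ∧ V = []) ∨
    ((loc f (ww φ E i x) (al ++ U).length).1 ≤ x.length ∧
      x.length < (loc f (ww φ E i x) (al ++ U ++ y).length).1 ∧
      ((x.take (loc f (ww φ E i x) al.length).1).flatMap (φ i)).length +
        (loc f (ww φ E i x) (al ++ U ++ y ++ V).length).1 =
      ((x.take (loc f (ww φ E i x) (al ++ U).length).1).flatMap (φ i)).length +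
        (loc f (ww φ E i x) (al ++ U ++ y).length).1 ∧
      ¬ ((loc f (ww φ E i x) al.length).1 = (loc f (ww φ E i x) (al ++ U).length).1 ∧
        (loc f (ww φ E i x) (al ++ U ++ y).length).1 =
          (loc f (ww φ E i x) (al ++ U ++ y ++ V).length).1)) := by
  have hwK : ww φ E i x ∈ K A φ E := ⟨i, x, hx, rfl⟩
  obtain ⟨w1, u, m, v, w3, hwe, hp, hacc, e1, e2, e3, e4⟩ :=
    pump_positions f M (ww φ E i x) al U y V ga hw h1 h2
  have hMw := ((hK _).1 hwK).2
  have hmem : ∀ n : ℕ, w1 ++ (List.replicate n u).flatten ++ m ++ (List.replicate n v).flatten ++ w3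
      ∈ K A φ E := by
    intro n
    rw [hK]
    refine ⟨?_, hacc hMw n⟩
    rw [← hp n]
    have := hc1.plug ((hc2.iter n).plug hy)
    simpa [List.append_assoc] using this
  have m2 : w1 ++ (u ++ u) ++ m ++ (v ++ v) ++ w3 ∈ K A φ E := by
    have := hmem 2
    simpa [List.replicate_succ] using this
  have m3 : w1 ++ (u ++ (u ++ u)) ++ m ++ (v ++ (v ++ v)) ++ w3 ∈ K A φ E := by
    have := hmem 3
    simpa [List.replicate_succ] using this
  have huv : (u = [] ∧ v = []) → (U = [] ∧ V = []) := by
    rintro ⟨rfl, rfl⟩
    have h0 := congrArg List.length (hp 0)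
    have h1' := congrArg List.length (hp 1)
    simp only [List.replicate_succ, List.replicate_zero, List.flatten_cons, List.flatten_nil,
      List.append_nil, List.length_append, List.nil_append] at h0 h1'
    constructor
    · exact List.eq_nil_of_length_eq_zero (by omega)
    · exact List.eq_nil_of_length_eq_zero (by omega)
  rcases K_pump A φ E hφ hD i x hx w1 u m v w3 hwe m2 m3 with h | ⟨g1, g2, g3⟩
  · exact Or.inl (huv h)
  · by_cases hUV : U = [] ∧ V = []
    · exact Or.inl hUV
    · right
      rw [← e1, ← e2, ← e3, ← e4]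
      refine ⟨g1, g2, ?_, ?_⟩
      · rw [← g3]
        simp only [List.length_append]
        omega
      · rintro ⟨q1, q2⟩
        apply hUV
        apply huv
        simp only [List.length_append] at q1 q2
        exact ⟨List.eq_nil_of_length_eq_zero (by omega), List.eq_nil_of_length_eq_zero (by omega)⟩

end main

end Pool.Agent.Helper450.NP
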