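import Mathlib
import Pool.Agent.Helper450.NP.C5a

set_option autoImplicit false

namespace Pool.Agent.Helper450.NP

theorem exists_output_bound {α N : Type} {P : Set (ContextFreeRule α N)} (hP : P.Finite) :
    ∃ b, ∀ r ∈ P, r.output.length ≤ b := by
  obtain ⟨b, hb⟩ := (hP.image (fun r => r.output.length)).bddAbove
  exact ⟨b, fun r hr => hb ⟨r, hr, rfl⟩⟩

theorem exists_image_bound {Y B : Type} [Finite Y] (f : Y → List B) :
    ∃ m, ∀ y, (f y).length ≤ m := by
  obtain ⟨b, hb⟩ := (Set.finite_range (fun y => (f y).length)).bddAbove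
  exact ⟨b, fun y => hb ⟨y, rfl⟩⟩

/-- Composition of consecutive contexts. -/
theorem cx_range {α N : Type} {P : Set (ContextFreeRule α N)} (n : ℕ) (a : ℕ → N)
    (U V : ℕ → List α)
    (h : ∀ j < n, ∃ u v, Cx P (a j) u (a (j + 1)) v ∧ U (j + 1) = U j ++ u ∧
        V (j + 1) = v ++ V j) (j k : ℕ) (hjk : j ≤ k) (hk : k ≤ n) :
    ∃ u v, Cx P (a j) u (a k) v ∧ U k = U j ++ u ∧ V k = v ++ V j := by
  induction k with
  | zero =>
    have : j = 0 := by omega
    subst this
    exact ⟨[], [], Cx.refl _, by simp, by simp⟩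
  | succ k ih =>
    rcases Nat.lt_or_ge j (k + 1) with hlt | hge
    · obtain ⟨u, v, h1, h2, h3⟩ := ih (by omega) (by omega)
      obtain ⟨u', v', h1', h2', h3'⟩ := h k (by omega)
      exact ⟨u ++ u', v' ++ v, h1.trans h1', by rw [h2', h2, List.append_assoc],
        by rw [h3', h3, List.append_assoc]⟩
    · have : j = k + 1 := by omega
      subst this
      exact ⟨[], [], Cx.refl _, by simp, by simp⟩

section main

variable {B N X Γ Q σ : Type}
  (P : Set (ContextFreeRule B N)) (S : N)
  (f : Option (X ⊕ Γ) → List B) (hf : ∀ y, f y ≠ []) (M : DFA (Option (X ⊕ Γ)) σ)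
  (A : DFA X Q) (φ : Bool → X → List Γ) (E : Bool → List Γ)
  (hφ : ∀ i a, φ i a ≠ []) (hD : Disj A φ E)
  (hK : ∀ w, w ∈ K A φ E ↔ (Gen P [.nonterminal S] (w.flatMap f) ∧ w ∈ M.accepts))
  (i : Bool)

/-- Length of the image of the left part. -/
def dd (x : List X) : ℕ := ((x.map (fun a => (some (Sum.inl a) : Option (X ⊕ Γ)))).flatMap f).length

theorem ww_split (x : List X) : ww φ E i x = x.map (fun a => some (Sum.inl a)) ++
    (none :: (out (φ i) (E i) x).reverse.map (fun c => some (Sum.inr c))) := rfl

include hf in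
theorem loc_dd (x : List X) : loc f (ww φ E i x) (dd f x) = (x.length, 0) := by
  have := loc_boundary f hf (x.map (fun a => some (Sum.inl a)))
    (none :: (out (φ i) (E i) x).reverse.map (fun c => some (Sum.inr c)))
  rw [ww_split]
  unfold dd
  rw [this]
  simp

/-- The finite version of the label of a position. -/
def flab (m : ℕ) (w : List (Option (X ⊕ Γ))) (p : ℕ) : Option (Option (X ⊕ Γ)) × Fin (m + 1) × σ :=
  ((lab f M w p).1, ⟨min (lab f M w p).2.1 m, by omega⟩, (lab f M w p).2.2)

theorem lab_eq_of_flab (m : ℕ) (hm : ∀ y, (f y).length ≤ m) (w : List (Option (X ⊕ Γ)))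
    (p q : ℕ) (hp : p ≤ (w.flatMap f).length) (hq : q ≤ (w.flatMap f).length)
    (h : flab f M m w p = flab f M m w q) : lab f M w p = lab f M w q := by
  simp only [flab, Prod.mk.injEq, Fin.mk.injEq] at h
  obtain ⟨h1, h2, h3⟩ := h
  have b1 := loc_snd_bound f m hm w p hp
  have b2 := loc_snd_bound f m hm w q hq
  refine Prod.ext h1 (Prod.ext ?_ h3)
  simp only [lab] at h2 ⊢
  omega

include hf hφ hD hK in
theorem nonspine [Finite N] [Finite X] [Finite Γ] [Finite σ] (hP : P.Finite) :
    ∃ C1 : ℕ, ∀ x ∈ A.accepts, ∀ (al y ga : List B) (D : N), Cx P S al D ga →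
      Gen P [.nonterminal D] y → al ++ y ++ ga = (ww φ E i x).flatMap f →
      (al.length + y.length ≤ dd f x ∨ dd f x ≤ al.length) → y.length ≤ C1 := by
  obtain ⟨b, hb⟩ := exists_output_bound hP
  obtain ⟨m, hm⟩ := exists_image_bound f
  let Lb := N × (Option (Option (X ⊕ Γ)) × Fin (m + 1) × σ) ×
    (Option (Option (X ⊕ Γ)) × Fin (m + 1) × σ)
  have : Fintype Lb := Fintype.ofFinite _
  refine ⟨b ^ (Fintype.card Lb), ?_⟩
  intro x hx al y ga D hc hg hw hns
  by_contra hlt
  push Not at hlt
  obtain ⟨a, U, V, Y, ha0, hU0, hV0, hY, hst⟩ :=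
    chain_of_long P b hb (Fintype.card Lb) D y hg hlt
  set w := ww φ E i x with hwdef
  -- contexts from the root
  have hfull : ∀ j ≤ Fintype.card Lb, Cx P S (al ++ U j) (a j) (V j ++ ga) := by
    intro j hj
    obtain ⟨u, v, h1, h2, h3⟩ := cx_range (Fintype.card Lb) a U V
      (fun j hj => by obtain ⟨u, v, h1, h2, h3, _⟩ := hst j hj; exact ⟨u, v, h1, h2, h3⟩)
      0 j (Nat.zero_le _) hj
    rw [hU0, List.nil_append] at h2
    rw [hV0, List.append_nil] at h3
    rw [ha0] at h1
    rw [h2, h3]
    exact hc.trans h1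
  let g : Fin (Fintype.card Lb + 1) → Lb := fun j =>
    (a j, flab f M m w (al ++ U j).length, flab f M m w (al ++ U j ++ Y j).length)
  obtain ⟨j0, k0, hne, hgeq⟩ := Fintype.exists_ne_map_eq_of_card_lt g (by simp)
  -- order the two indices
  obtain ⟨j, k, hjk, hkn, hgjk⟩ : ∃ j k : ℕ, j < k ∧ k ≤ Fintype.card Lb ∧
      (a j, flab f M m w (al ++ U j).length, flab f M m w (al ++ U j ++ Y j).length) =
      (a k, flab f M m w (al ++ U k).length, flab f M m w (al ++ U k ++ Y k).length) := by
    rcases Nat.lt_or_ge j0.1 k0.1 with h | h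
    · exact ⟨j0, k0, h, by omega, hgeq⟩
    · refine ⟨k0, j0, ?_, by omega, hgeq.symm⟩
      have : j0.1 ≠ k0.1 := fun h => hne (Fin.ext h)
      omega
  obtain ⟨u, v, hc2, hUk, hVk⟩ := cx_range (Fintype.card Lb) a U V
    (fun j hj => by obtain ⟨u, v, h1, h2, h3, _⟩ := hst j hj; exact ⟨u, v, h1, h2, h3⟩)
    j k hjk.le hkn
  have huv : 1 ≤ u.length + v.length := by
    obtain ⟨u1, v1, _, e1, e2, e3⟩ := hst j (by omega)
    obtain ⟨u2, v2, _, e4, e5⟩ := cx_range (Fintype.card Lb) a U V
      (fun j hj => by obtain ⟨u, v, h1, h2, h3, _⟩ := hst j hj; exact ⟨u, v, h1, h2, h3⟩)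
      (j + 1) k hjk hkn
    have l1 := congrArg List.length hUk
    have l2 := congrArg List.length hVk
    have l3 := congrArg List.length e1
    have l4 := congrArg List.length e2
    have l5 := congrArg List.length e4
    have l6 := congrArg List.length e5
    simp only [List.length_append] at l1 l2 l3 l4 l5 l6
    omega
  obtain ⟨hYj1, hYj2⟩ := hY j (by omega)
  obtain ⟨hYk1, hYk2⟩ := hY k hkn
  have hyj : Y j = u ++ Y k ++ v := by
    rw [hYj2, hUk, hVk] at hYk2
    simp only [List.append_assoc] at hYk2
    have := List.append_cancel_left hYk2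
    rw [← List.append_assoc, ← List.append_assoc] at this
    exact List.append_cancel_right this
  simp only [Prod.mk.injEq] at hgjk
  obtain ⟨haj, hl1, hl2⟩ := hgjk
  have hwl : (w.flatMap f).length = al.length + y.length + ga.length := by
    rw [← hw]; simp only [List.length_append]
  have hyl : y.length = (U j).length + (u.length + (Y k).length + v.length) + (V j).length := by
    rw [hYj2, hyj]; simp only [List.length_append]
  have hUkl : (U k).length = (U j).length + u.length := by
    rw [hUk, List.length_append]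
  -- labels
  have hlab1 : lab f M w (al ++ U j).length = lab f M w (al ++ U j ++ u).length := by
    have := lab_eq_of_flab f M m hm w _ _ (by simp only [List.length_append]; omega)
      (by simp only [List.length_append]; omega) hl1
    rw [this, hUk]
    simp only [List.append_assoc]
  have hlab2 : lab f M w (al ++ U j ++ u ++ Y k).length =
      lab f M w (al ++ U j ++ u ++ Y k ++ v).length := by
    have := lab_eq_of_flab f M m hm w _ _ (by simp only [List.length_append, hyj]; omega)
      (by simp only [List.length_append]; omega) hl2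
    rw [hUk, hyj] at this
    simp only [List.append_assoc] at this ⊢
    exact this.symm
  have hwe : w.flatMap f = (al ++ U j) ++ u ++ Y k ++ v ++ (V j ++ ga) := by
    rw [← hw, hYj2, hyj]
    simp only [List.append_assoc]
  have hgk : Gen P [.nonterminal (a j)] (Y k) := by rw [haj]; exact hYk1
  have hc2' : Cx P (a j) u (a j) v := by
    have := hc2
    rw [← haj] at this
    exact this
  rcases loop_lemma P S f M A φ E hφ hD hK i x hx (al ++ U j) u (Y k) v (V j ++ ga) (a j) hwe
    (hfull j (by omega)) hc2' hgk hlab1 hlab2 with ⟨h1, h2⟩ | ⟨h1, h2, h3, h4⟩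
  · rw [h1, h2] at huv
    simp at huv
  · rw [← hwdef] at h1 h2 h3 h4
    have hdd : (loc f w (dd f x)).1 = x.length := by rw [hwdef, loc_dd f hf φ E i x]
    have hddle : dd f x ≤ (w.flatMap f).length := by
      rw [hwdef, ww_split, List.flatMap_append, List.length_append]
      unfold dd
      omega
    rcases hns with hns | hns
    · -- left of the middle
      have := loc_mono f w (al ++ U j ++ u ++ Y k).length (dd f x)
        (by simp only [List.length_append]; omega) hddle
      rw [hdd] at this
      omega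
    · have m1 := loc_mono f w (dd f x) (al ++ U j).length
        (by simp only [List.length_append]; omega) (by simp only [List.length_append]; omega)
      have m2 := loc_mono f w (al ++ U j).length (al ++ U j ++ u).length
        (by simp only [List.length_append]; omega) (by simp only [List.length_append]; omega)
      rw [hdd] at m1
      have e1 : (loc f w (al ++ U j).length).1 = (loc f w (al ++ U j ++ u).length).1 := by omega
      rw [e1] at h3
      apply h4
      exact ⟨e1, by omega⟩

end main

end Pool.Agent.Helper450.NP
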