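import Mathlib
import Pool.Agent.Helper450.NP.C2
import Pool.Agent.Helper450.NP.C5b

set_option autoImplicit false

namespace Pool.Agent.Helper450.NP

theorem seg_bound {B N : Type} (P : Set (ContextFreeRule B N)) (S : N) (W : List B) (d C1 : ℕ)
    (hC1 : ∀ (al y ga : List B) (D : N), Cx P S al D ga → Gen P [.nonterminal D] y →
      al ++ y ++ ga = W → (al.length + y.length ≤ d ∨ d ≤ al.length) → y.length ≤ C1)
    (hC1' : 1 ≤ C1) (r : ContextFreeRule B N) (hr : r ∈ P) (al ga : List B)
    (hc : Cx P S al r.input ga) (s' : List (Symbol B N)) (u' : List B) (hs' : Gen P s' u') :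
    ∀ (s : List (Symbol B N)) (s0 : List (Symbol B N)) (u0 u : List B),
      r.output = s0 ++ s ++ s' → Gen P s0 u0 → Gen P s u →
      al ++ u0 ++ u ++ u' ++ ga = W →
      (al.length + u0.length + u.length ≤ d ∨ d ≤ al.length + u0.length) →
      u.length ≤ s.length * C1 := by
  intro s
  induction s with
  | nil =>
    intro s0 u0 u _ _ hu _ _
    rw [gen_nil] at hu
    simp [hu]
  | cons Z s ih =>
    intro s0 u0 u ho h0 hu hW hd
    cases Z with
    | terminal c =>
      rw [gen_tm] at hu
      obtain ⟨u2, rfl, hu2⟩ := hu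
      have h0' : Gen P (s0 ++ [.terminal c]) (u0 ++ [c]) := by
        rw [gen_append]
        exact ⟨u0, [c], rfl, h0, by rw [gen_tm]; exact ⟨[], rfl, (gen_nil P []).2 rfl⟩⟩
      have := ih (s0 ++ [.terminal c]) (u0 ++ [c]) u2 (by rw [ho]; simp) h0' hu2
        (by rw [← hW]; simp) (by
          simp only [List.length_append, List.length_cons, List.length_nil] at hd ⊢
          omega)
      simp only [List.length_cons]
      rw [Nat.add_mul]
      omega
    | nonterminal D =>
      have hu' : Gen P ([.nonterminal D] ++ s) u := hu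
      rw [gen_append] at hu'
      obtain ⟨u1, u2, rfl, hu1, hu2⟩ := hu'
      have h0' : Gen P (s0 ++ [.nonterminal D]) (u0 ++ u1) := by
        rw [gen_append]
        exact ⟨u0, u1, rfl, h0, hu1⟩
      have h1 := ih (s0 ++ [.nonterminal D]) (u0 ++ u1) u2 (by rw [ho]; simp) h0' hu2
        (by rw [← hW]; simp) (by
          simp only [List.length_append] at hd ⊢
          omega)
      have hss : Gen P (s ++ s') (u2 ++ u') := by
        rw [gen_append]
        exact ⟨u2, u', rfl, hu2, hs'⟩
      have hcx := hc.trans (Cx.step r s0 (s ++ s') D u0 (u2 ++ u') [] D [] hr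
        (by rw [ho]; simp) h0 hss (Cx.refl D))
      have h2 := hC1 _ u1 _ D hcx hu1 (by rw [← hW]; simp) (by
        simp only [List.length_append, List.length_nil] at hd ⊢
        omega)
      simp only [List.length_cons, List.length_append]
      rw [Nat.add_mul]
      omega

section main

variable {B N X Γ Q σ : Type}
  (P : Set (ContextFreeRule B N)) (S : N)
  (f : Option (X ⊕ Γ) → List B) (hf : ∀ y, f y ≠ []) (M : DFA (Option (X ⊕ Γ)) σ)
  (A : DFA X Q) (φ : Bool → X → List Γ) (E : Bool → List Γ)
  (hφ : ∀ i a, φ i a ≠ []) (hD : Disj A φ E)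
  (hK : ∀ w, w ∈ K A φ E ↔ (Gen P [.nonterminal S] (w.flatMap f) ∧ w ∈ M.accepts))
  (i : Bool)

include hf hφ hD hK in
theorem spine_bounded [Finite N] [Finite X] [Finite Γ] [Finite σ] (hP : P.Finite) :
    ∃ C2 : ℕ, ∀ x ∈ A.accepts, ∃ (t : ℕ) (a : ℕ → N) (U V : ℕ → List B),
      a 0 = S ∧ U 0 = [] ∧ V 0 = [] ∧
      (∀ k < t, ∃ u v, Cx P (a k) u (a (k + 1)) v ∧ U (k + 1) = U k ++ u ∧
        V (k + 1) = v ++ V k ∧ u.length ≤ C2 ∧ v.length ≤ C2) ∧
      (∀ k ≤ t, ∃ y, Gen P [.nonterminal (a k)] y ∧
        (ww φ E i x).flatMap f = U k ++ y ++ V k ∧ (U k).length ≤ dd f x ∧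
        dd f x + (V k).length < ((ww φ E i x).flatMap f).length) ∧
      dd f x ≤ (U t).length + C2 := by
  obtain ⟨b, hb⟩ := exists_output_bound hP
  obtain ⟨C1, hC1⟩ := nonspine P S f hf M A φ E hφ hD hK i hP
  refine ⟨b * (C1 + 1), ?_⟩
  intro x hx
  have hC1x : ∀ (al y ga : List B) (D : N), Cx P S al D ga → Gen P [.nonterminal D] y →
      al ++ y ++ ga = (ww φ E i x).flatMap f →
      (al.length + y.length ≤ dd f x ∨ dd f x ≤ al.length) → y.length ≤ C1 + 1 := by
    intro al y ga D h1 h2 h3 h4
    have := hC1 x hx al y ga D h1 h2 h3 h4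
    omega
  have hwK : ww φ E i x ∈ K A φ E := ⟨i, x, hx, rfl⟩
  have hgen := ((hK _).1 hwK).1
  obtain ⟨c, fn, hfn⟩ : ∃ c fn, f none = c :: fn := by
    cases h : f none with
    | nil => exact absurd h (hf none)
    | cons c fn => exact ⟨c, fn, rfl⟩
  set y1 : List B := (x.map (fun a => (some (Sum.inl a) : Option (X ⊕ Γ)))).flatMap f with hy1
  set y2 : List B := fn ++ ((out (φ i) (E i) x).reverse.map
    (fun c => (some (Sum.inr c) : Option (X ⊕ Γ)))).flatMap f with hy2
  have hW : (ww φ E i x).flatMap f = y1 ++ c :: y2 := by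
    rw [ww_split, List.flatMap_append, List.flatMap_cons, hfn, hy1, hy2]
    simp
  have hdd : dd f x = y1.length := rfl
  rw [hW] at hgen
  obtain ⟨t, a, U, V, ha0, hU0, hV0, hst, hmid, hlast⟩ := spine_path P S y1 y2 c hgen
  have hctx : ∀ k ≤ t, Cx P S (U k) (a k) (V k) := by
    intro k hk
    obtain ⟨u, v, h1, h2, h3⟩ := cx_range t a U V (fun j hj => by
      obtain ⟨r, hr, hin, s1, s2, u, v, ho, h1, h2, h3, h4⟩ := hst j hj
      refine ⟨u, v, ?_, h3, h4⟩
      have := Cx.step r s1 s2 (a (j + 1)) u v [] (a (j + 1)) [] hr ho h1 h2 (Cx.refl _)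
      rw [hin] at this
      simpa using this) 0 k (Nat.zero_le _) hk
    rw [hU0, List.nil_append] at h2
    rw [hV0, List.append_nil] at h3
    rw [ha0] at h1
    rw [h2, h3]
    exact h1
  refine ⟨t, a, U, V, ha0, hU0, hV0, ?_, ?_, ?_⟩
  · intro k hk
    obtain ⟨r, hr, hin, s1, s2, u, v, ho, h1, h2, h3, h4⟩ := hst k hk
    obtain ⟨m1, m2, e1, e2, hg⟩ := hmid (k + 1) (by omega)
    have hcx : Cx P (a k) u (a (k + 1)) v := by
      have := Cx.step r s1 s2 (a (k + 1)) u v [] (a (k + 1)) [] hr ho h1 h2 (Cx.refl _)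
      rw [hin] at this
      simpa using this
    have hck : Cx P S (U k) r.input (V k) := by rw [hin]; exact hctx k (by omega)
    have hol := hb r hr
    have hol2 : s1.length ≤ b ∧ s2.length ≤ b := by
      rw [ho] at hol
      simp only [List.length_append, List.length_cons] at hol
      omega
    have l1 := congrArg List.length e1
    rw [h3] at l1
    simp only [List.length_append] at l1
    refine ⟨u, v, hcx, h3, h4, ?_, ?_⟩
    · have hs' : Gen P (.nonterminal (a (k + 1)) :: s2) ((m1 ++ c :: m2) ++ v) := by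
        have : Gen P ([.nonterminal (a (k + 1))] ++ s2) ((m1 ++ c :: m2) ++ v) := by
          rw [gen_append]
          exact ⟨_, _, rfl, hg, h2⟩
        exact this
      have := seg_bound P S _ (dd f x) (C1 + 1) hC1x (by omega) r hr (U k) (V k) hck _ _ hs'
        s1 [] [] u (by rw [ho]; simp) ((gen_nil P []).2 rfl) h1
        (by rw [hW, e1, e2, h3, h4]; simp) (by
          left
          rw [hdd]
          simp only [List.length_nil]
          omega)
      calc u.length ≤ s1.length * (C1 + 1) := this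
        _ ≤ b * (C1 + 1) := Nat.mul_le_mul_right _ hol2.1
    · have h0' : Gen P (s1 ++ [.nonterminal (a (k + 1))]) (u ++ (m1 ++ c :: m2)) := by
        rw [gen_append]
        exact ⟨_, _, rfl, h1, hg⟩
      have := seg_bound P S _ (dd f x) (C1 + 1) hC1x (by omega) r hr (U k) (V k) hck [] []
        ((gen_nil P []).2 rfl)
        s2 (s1 ++ [.nonterminal (a (k + 1))]) (u ++ (m1 ++ c :: m2)) v (by rw [ho]; simp) h0' h2
        (by rw [hW, e1, e2, h3, h4]; simp) (by
          right
          rw [hdd]
          simp only [List.length_append, List.length_cons]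
          omega)
      calc v.length ≤ s2.length * (C1 + 1) := this
        _ ≤ b * (C1 + 1) := Nat.mul_le_mul_right _ hol2.2
  · intro k hk
    obtain ⟨m1, m2, e1, e2, hg⟩ := hmid k hk
    refine ⟨m1 ++ c :: m2, hg, ?_, ?_, ?_⟩
    · rw [hW, e1, e2]; simp
    · rw [hdd, e1, List.length_append]; omega
    · rw [hW, hdd]
      have l2 := congrArg List.length e2
      simp only [List.length_append, List.length_cons] at l2 ⊢
      omega
  · obtain ⟨r, hr, hin, s1, s2, u, v, ho, h1, h2, e1, e2⟩ := hlast
    have hck : Cx P S (U t) r.input (V t) := by rw [hin]; exact hctx t le_rfl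
    have hol := hb r hr
    have hol2 : s1.length ≤ b := by
      rw [ho] at hol
      simp only [List.length_append, List.length_cons] at hol
      omega
    have hs' : Gen P (.terminal c :: s2) (c :: v) := by
      rw [gen_tm]
      exact ⟨v, rfl, h2⟩
    have := seg_bound P S _ (dd f x) (C1 + 1) hC1x (by omega) r hr (U t) (V t) hck _ _ hs'
      s1 [] [] u (by rw [ho]; simp) ((gen_nil P []).2 rfl) h1
      (by rw [hW, e1, e2]; simp) (by
        left
        rw [hdd, e1]
        simp only [List.length_nil, List.length_append]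
        omega)
    have h5 : s1.length * (C1 + 1) ≤ b * (C1 + 1) := Nat.mul_le_mul_right _ hol2
    rw [hdd, e1, List.length_append]
    omega

end main

end Pool.Agent.Helper450.NP
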