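import Mathlib
import Pool.Agent.Helper450.NP.C5c

set_option autoImplicit false

namespace Pool.Agent.Helper450.NP

theorem walk_aux {L : Type} [DecidableEq L] (D : ℕ → ℤ) (lb : ℕ → L) (t : ℕ) (C : ℤ)
    (hC : 0 ≤ C) (hsame : ∀ j ≤ t, ∀ k ≤ t, lb j = lb k → D j = D k)
    (hstep : ∀ k < t, |D (k + 1) - D k| ≤ C) :
    ∀ (n : ℕ) (Z : Finset L), Z.card = n → ∀ j k, j ≤ k → k ≤ t →
      (∀ l, j ≤ l → l ≤ k → lb l ∈ Z) → |D k - D j| ≤ n * C := by
  intro n
  induction n with
  | zero =>
    intro Z hZ j k hjk hk h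
    rw [Finset.card_eq_zero] at hZ
    have := h j le_rfl hjk
    simp [hZ] at this
  | succ n ih =>
    intro Z hZ j k hjk hk h
    set j' := Nat.findGreatest (fun l => lb l = lb j) k with hj'
    have h1 : lb j' = lb j := Nat.findGreatest_spec (P := fun l => lb l = lb j) hjk rfl
    have h2 : j ≤ j' := Nat.le_findGreatest hjk rfl
    have h3 : j' ≤ k := Nat.findGreatest_le k
    have h4 : D j' = D j := hsame j' (by omega) j (by omega) h1
    rcases Nat.lt_or_ge j' k with hlt | hge
    · have h5 : ∀ l, j' + 1 ≤ l → l ≤ k → lb l ∈ Z.erase (lb j) := by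
        intro l hl1 hl2
        rw [Finset.mem_erase]
        refine ⟨?_, h l (by omega) hl2⟩
        intro he
        have : l ≤ j' := Nat.le_findGreatest hl2 he
        omega
      have h6 := ih (Z.erase (lb j)) (by
        rw [Finset.card_erase_of_mem (h j le_rfl hjk), hZ]; rfl) (j' + 1) k (by omega) hk h5
      have h7 := hstep j' (by omega)
      rw [h4] at h7
      have h8 : D k - D j = (D k - D (j' + 1)) + (D (j' + 1) - D j) := by ring
      rw [h8]
      push_cast
      calc |(D k - D (j' + 1)) + (D (j' + 1) - D j)|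
          ≤ |D k - D (j' + 1)| + |D (j' + 1) - D j| := abs_add_le _ _
        _ ≤ n * C + C := add_le_add h6 h7
        _ = (n + 1) * C := by ring
    · have : j' = k := by omega
      rw [this] at h4
      rw [h4]
      simp only [sub_self, abs_zero]
      positivity

theorem walk {L : Type} [Fintype L] (D : ℕ → ℤ) (lb : ℕ → L) (t : ℕ) (C : ℤ)
    (hC : 0 ≤ C) (hsame : ∀ j ≤ t, ∀ k ≤ t, lb j = lb k → D j = D k)
    (hstep : ∀ k < t, |D (k + 1) - D k| ≤ C) (k : ℕ) (hk : k ≤ t) :
    |D k - D 0| ≤ Fintype.card L * C := by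
  classical
  exact walk_aux D lb t C hC hsame hstep _ Finset.univ rfl 0 k (Nat.zero_le _) hk (by simp)

theorem numeric (FL g : ℕ → ℕ) (W Xl m mf C2 C4 : ℕ)
    (hFL : ∀ a b, a ≤ b → b ≤ W → FL a + (b - a) ≤ FL b ∧ FL b ≤ FL a + m * (b - a))
    (hg : ∀ a b, a ≤ b → b ≤ Xl → g a + (b - a) ≤ g b ∧ g b ≤ g a + mf * (b - a))
    (hXW : Xl ≤ W) (kl kr pl pr j : ℕ) (hkl : kl ≤ Xl) (hkr : kr ≤ W)
    (hpl1 : FL kl ≤ pl) (hpl2 : pl ≤ FL kl + m) (hpr1 : FL kr ≤ pr) (hpr2 : pr ≤ FL kr + m)
    (hD1 : g kl + kr ≤ W + C4) (hD2 : W ≤ g kl + kr + C4)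
    (hj : j ≤ Xl) (hjl : pl ≤ FL j) (hgj : g j ≤ W)
    (hcase : FL j ≤ pl + C2 ∨ pr ≤ FL (W - g j) + C2) :
    FL j ≤ pl + (C2 + m + m * (C2 + C4) + m * (C4 + mf * (C2 + m))) ∧
    pr ≤ FL (W - g j) + (C2 + m + m * (C2 + C4) + m * (C4 + mf * (C2 + m))) := by
  have hklj : kl ≤ j := by
    by_contra hlt
    push Not at hlt
    have := (hFL j kl hlt.le (by omega)).1
    omega
  rcases hcase with h | h
  · refine ⟨by omega, ?_⟩
    have h1 := (hFL kl j hklj (by omega)).1
    have h2 : j - kl ≤ C2 + m := by omega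
    have h3 := (hg kl j hklj hj).2
    have h4 : mf * (j - kl) ≤ mf * (C2 + m) := Nat.mul_le_mul_left _ h2
    rcases Nat.lt_or_ge (W - g j) kr with h5 | h5
    · have h6 := (hFL (W - g j) kr h5.le hkr).2
      have h7 : kr - (W - g j) ≤ C4 + mf * (C2 + m) := by omega
      have h8 : m * (kr - (W - g j)) ≤ m * (C4 + mf * (C2 + m)) := Nat.mul_le_mul_left _ h7
      omega
    · have h6 := (hFL kr (W - g j) h5 (by omega)).1
      omega
  · refine ⟨?_, by omega⟩
    have h1 : kr ≤ (W - g j) + C2 := by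
      by_contra hlt
      push Not at hlt
      have := (hFL (W - g j) kr (by omega) hkr).1
      omega
    have h2 := (hg kl j hklj hj).1
    have h3 : j - kl ≤ C2 + C4 := by omega
    have h4 := (hFL kl j hklj (by omega)).2
    have h5 : m * (j - kl) ≤ m * (C2 + C4) := Nat.mul_le_mul_left _ h3
    omega

/-- Length of the image of a prefix. -/
def FLn {Y B : Type} (f : Y → List B) (w : List Y) (n : ℕ) : ℕ := ((w.take n).flatMap f).length

theorem flatMap_len_bounds {Y B : Type} (f : Y → List B) (hf : ∀ y, f y ≠ []) (m : ℕ)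
    (hm : ∀ y, (f y).length ≤ m) (l : List Y) :
    l.length ≤ (l.flatMap f).length ∧ (l.flatMap f).length ≤ m * l.length := by
  induction l with
  | nil => simp
  | cons y l ih =>
    simp only [List.flatMap_cons, List.length_append, List.length_cons]
    have h1 : 1 ≤ (f y).length := by
      rw [Nat.one_le_iff_ne_zero, ne_eq, List.length_eq_zero_iff]
      exact hf y
    have h2 := hm y
    rw [Nat.mul_add]
    omega

theorem FLn_bounds {Y B : Type} (f : Y → List B) (hf : ∀ y, f y ≠ []) (m : ℕ)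
    (hm : ∀ y, (f y).length ≤ m) (w : List Y) (a b : ℕ) (hab : a ≤ b) (hb : b ≤ w.length) :
    FLn f w a + (b - a) ≤ FLn f w b ∧ FLn f w b ≤ FLn f w a + m * (b - a) := by
  have h1 : w.take b = w.take a ++ (w.take b).drop a := by
    have := List.take_append_drop a (w.take b)
    rw [List.take_take, min_eq_left hab] at this
    exact this.symm
  have h2 : ((w.take b).drop a).length = b - a := by
    rw [List.length_drop, List.length_take, min_eq_left hb]
  have h3 := flatMap_len_bounds f hf m hm ((w.take b).drop a)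
  rw [h2] at h3
  have h4 : FLn f w b = FLn f w a + (((w.take b).drop a).flatMap f).length := by
    unfold FLn
    conv_lhs => rw [h1]
    rw [List.flatMap_append, List.length_append]
  omega

theorem loc_bounds {Y B : Type} (f : Y → List B) (m : ℕ) (hm : ∀ y, (f y).length ≤ m)
    (w : List Y) (p : ℕ) (hp : p ≤ (w.flatMap f).length) :
    FLn f w (loc f w p).1 ≤ p ∧ p ≤ FLn f w (loc f w p).1 + m := by
  obtain ⟨l, h1, h2, _, _⟩ := loc_spec f w p hp
  have h3 := loc_snd_bound f m hm w p hp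
  have h4 := congrArg List.length h1
  rw [List.length_take, min_eq_left hp, List.length_append] at h4
  unfold FLn
  omega

end Pool.Agent.Helper450.NP
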