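import Mathlib
import Pool.Agent.Helper450.NP.C5d

set_option autoImplicit false

namespace Pool.Agent.Helper450.NP

section main

variable {B N X Γ Q σ : Type}
  (P : Set (ContextFreeRule B N)) (S : N)
  (f : Option (X ⊕ Γ) → List B) (hf : ∀ y, f y ≠ []) (M : DFA (Option (X ⊕ Γ)) σ)
  (A : DFA X Q) (φ : Bool → X → List Γ) (E : Bool → List Γ)
  (hφ : ∀ i a, φ i a ≠ []) (hD : Disj A φ E)
  (hK : ∀ w, w ∈ K A φ E ↔ (Gen P [.nonterminal S] (w.flatMap f) ∧ w ∈ M.accepts))
  (i : Bool)

include hf hφ hD hK in
/-- Along a spine the delay stays bounded. -/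
theorem delay_bounded [Finite N] [Finite X] [Finite Γ] [Finite σ] (m : ℕ)
    (hm : ∀ y, (f y).length ≤ m) (mf : ℕ) (hmf : ∀ a, (φ i a).length ≤ mf) (C2 : ℕ) :
    ∃ C4 : ℕ, ∀ x ∈ A.accepts, ∀ (t : ℕ) (a : ℕ → N) (U V : ℕ → List B),
      a 0 = S → U 0 = [] → V 0 = [] →
      (∀ k < t, ∃ u v, Cx P (a k) u (a (k + 1)) v ∧ U (k + 1) = U k ++ u ∧
        V (k + 1) = v ++ V k ∧ u.length ≤ C2 ∧ v.length ≤ C2) →
      (∀ k ≤ t, ∃ y, Gen P [.nonterminal (a k)] y ∧
        (ww φ E i x).flatMap f = U k ++ y ++ V k ∧ (U k).length ≤ dd f x ∧
        dd f x + (V k).length < ((ww φ E i x).flatMap f).length) →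
      ∀ k ≤ t,
        ((x.take (loc f (ww φ E i x) (U k).length).1).flatMap (φ i)).length +
          (loc f (ww φ E i x) (((ww φ E i x).flatMap f).length - (V k).length)).1 ≤
            (ww φ E i x).length + C4 ∧
        (ww φ E i x).length ≤
        ((x.take (loc f (ww φ E i x) (U k).length).1).flatMap (φ i)).length +
          (loc f (ww φ E i x) (((ww φ E i x).flatMap f).length - (V k).length)).1 + C4 := by
  let Lb := N × (Option (Option (X ⊕ Γ)) × Fin (m + 1) × σ) ×
    (Option (Option (X ⊕ Γ)) × Fin (m + 1) × σ)
  have : Fintype Lb := Fintype.ofFinite _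
  refine ⟨Fintype.card Lb * ((mf + 1) * (C2 + m)), ?_⟩
  intro x hx t a U V ha0 hU0 hV0 hst hY k hk
  set w := ww φ E i x with hwdef
  set T := (w.flatMap f).length with hT
  let kl : ℕ → ℕ := fun k => (loc f w (U k).length).1
  let kr : ℕ → ℕ := fun k => (loc f w (T - (V k).length)).1
  let g : ℕ → ℕ := fun n => ((x.take n).flatMap (φ i)).length
  let D : ℕ → ℤ := fun k => (g (kl k) : ℤ) + kr k - w.length
  let lb : ℕ → Lb := fun k => (a k, flab f M m w (U k).length, flab f M m w (T - (V k).length))
  have hst' : ∀ j < t, ∃ u v, Cx P (a j) u (a (j + 1)) v ∧ U (j + 1) = U j ++ u ∧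
      V (j + 1) = v ++ V j := by
    intro j hj
    obtain ⟨u, v, h1, h2, h3, _⟩ := hst j hj
    exact ⟨u, v, h1, h2, h3⟩
  have hddT : dd f x ≤ T := by
    rw [hT, hwdef, ww_split, List.flatMap_append, List.length_append]
    unfold dd
    omega
  have hlocd : (loc f w (dd f x)).1 = x.length := by rw [hwdef, loc_dd f hf φ E i x]
  have hklx : ∀ k ≤ t, kl k ≤ x.length := by
    intro k hk
    obtain ⟨y, _, _, h1, _⟩ := hY k hk
    have := loc_mono f w (U k).length (dd f x) h1 hddT
    rw [hlocd] at this
    exact this
  have key : ∀ j ≤ t, ∀ k ≤ t, j < k → lb j = lb k → D j = D k := by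
    intro j hj k hk hjk hlb
    have haj : a j = a k := congrArg (fun z : Lb => z.1) hlb
    have hl1 : flab f M m w (U j).length = flab f M m w (U k).length :=
      congrArg (fun z : Lb => z.2.1) hlb
    have hl2 : flab f M m w (T - (V j).length) = flab f M m w (T - (V k).length) :=
      congrArg (fun z : Lb => z.2.2) hlb
    obtain ⟨u, v, hc2, hUk, hVk⟩ := cx_range t a U V hst' j k hjk.le hk
    obtain ⟨u0, v0, hc1, hUj0, hVj0⟩ := cx_range t a U V hst' 0 j (Nat.zero_le _) hj
    obtain ⟨yj, gj, ej, lj, rj⟩ := hY j hj
    obtain ⟨yk, gk, ek, lk, rk⟩ := hY k hk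
    have hcj : Cx P S (U j) (a j) (V j) := by
      rw [hU0, List.nil_append] at hUj0
      rw [hV0, List.append_nil] at hVj0
      rw [ha0] at hc1
      rw [hUj0, hVj0]; exact hc1
    have hwe : w.flatMap f = U j ++ u ++ yk ++ v ++ V j := by
      rw [ek, hUk, hVk]; simp only [List.append_assoc]
    have hTe : T = (U j).length + u.length + yk.length + v.length + (V j).length := by
      rw [hT, hwe]; simp only [List.length_append]
    have hVkl : (V k).length = v.length + (V j).length := by rw [hVk, List.length_append]
    have p1 : (U j ++ u ++ yk).length = T - (V k).length := by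
      simp only [List.length_append]; omega
    have p2 : (U j ++ u ++ yk ++ v).length = T - (V j).length := by
      simp only [List.length_append]; omega
    have hlab1 : lab f M w (U j).length = lab f M w (U j ++ u).length := by
      have := lab_eq_of_flab f M m hm w _ _ (by omega)
        (by rw [hUk, List.length_append]; omega) hl1
      rw [this, hUk]
    have hlab2 : lab f M w (U j ++ u ++ yk).length = lab f M w (U j ++ u ++ yk ++ v).length := by
      rw [p1, p2]
      exact (lab_eq_of_flab f M m hm w _ _ (by omega) (by omega) hl2).symm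
    have hc2' : Cx P (a j) u (a j) v := by
      have := hc2
      rw [← haj] at this
      exact this
    have hgk' : Gen P [.nonterminal (a j)] yk := by rw [haj]; exact gk
    rcases loop_lemma P S f M A φ E hφ hD hK i x hx (U j) u yk v (V j) (a j) hwe
      hcj hc2' hgk' hlab1 hlab2 with ⟨h1, h2⟩ | ⟨h1, h2, h3, h4⟩
    · have e1 : U k = U j := by rw [hUk, h1, List.append_nil]
      have e2 : V k = V j := by rw [hVk, h2, List.nil_append]
      simp only [D, kl, kr, e1, e2]
    · rw [← hwdef, p1, p2, ← hUk] at h3
      simp only [D, kl, kr, g]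
      omega
  have hsame : ∀ j ≤ t, ∀ k ≤ t, lb j = lb k → D j = D k := by
    intro j hj k hk h
    rcases Nat.lt_trichotomy j k with hlt | heq | hgt
    · exact key j hj k hk hlt h
    · rw [heq]
    · exact (key k hk j hj hgt h.symm).symm
  have hstep : ∀ k < t, |D (k + 1) - D k| ≤ (((mf + 1) * (C2 + m) : ℕ) : ℤ) := by
    intro k hk
    obtain ⟨u, v, _, hU1, hV1, bu, bv⟩ := hst k hk
    obtain ⟨yk, _, ek, lk, rk⟩ := hY k hk.le
    obtain ⟨yk', _, ek', lk', rk'⟩ := hY (k + 1) hk
    have hUl : (U (k + 1)).length = (U k).length + u.length := by rw [hU1, List.length_append]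
    have hVl : (V (k + 1)).length = v.length + (V k).length := by rw [hV1, List.length_append]
    have hT1 : (U k).length + (V k).length ≤ T := by
      rw [hT, ek]; simp only [List.length_append]; omega
    have hT2 : (U (k + 1)).length + (V (k + 1)).length ≤ T := by
      rw [hT, ek']; simp only [List.length_append]; omega
    have b1 := loc_bounds f m hm w (U k).length (by omega)
    have b2 := loc_bounds f m hm w (U (k + 1)).length (by omega)
    have b3 := loc_bounds f m hm w (T - (V k).length) (by omega)
    have b4 := loc_bounds f m hm w (T - (V (k + 1)).length) (by omega)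
    have m1 : kl k ≤ kl (k + 1) := loc_mono f w _ _ (by omega) (by omega)
    have m2 : kr (k + 1) ≤ kr k := loc_mono f w _ _ (by omega) (by omega)
    have hkr : kr k ≤ w.length := loc_fst_le f w _ (by omega)
    have hkl : kl (k + 1) ≤ x.length := hklx (k + 1) hk
    have hxw : x.length ≤ w.length := by
      rw [hwdef, ww_split, List.length_append, List.length_map]; omega
    have c1 := (FLn_bounds f hf m hm w (kl k) (kl (k + 1)) m1 (by omega)).1
    have c2 := (FLn_bounds f hf m hm w (kr (k + 1)) (kr k) m2 hkr).1
    have d1 : kl (k + 1) - kl k ≤ C2 + m := by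
      simp only [kl] at c1 ⊢
      omega
    have d2 : kr k - kr (k + 1) ≤ C2 + m := by
      simp only [kr] at c2 ⊢
      omega
    have d3 := FLn_bounds (φ i) (hφ i) mf hmf x (kl k) (kl (k + 1)) m1 hkl
    have d3' : g (kl k) + (kl (k + 1) - kl k) ≤ g (kl (k + 1)) ∧
      g (kl (k + 1)) ≤ g (kl k) + mf * (kl (k + 1) - kl k) := d3
    have d4 : mf * (kl (k + 1) - kl k) ≤ mf * (C2 + m) := Nat.mul_le_mul_left _ d1
    have hz : (mf + 1) * (C2 + m) = mf * (C2 + m) + (C2 + m) := by ring
    rw [abs_le, hz]
    simp only [D]
    generalize mf * (C2 + m) = z at d4 ⊢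
    push_cast
    constructor <;> omega
  have hD0 : D 0 = 0 := by
    have e1 : kl 0 = 0 := by
      have := loc_boundary f hf [] w
      simp only [List.nil_append, List.flatMap_nil, List.length_nil] at this
      simp only [kl, hU0, List.length_nil, this]
    have e2 : kr 0 = w.length := by
      have := loc_boundary f hf w []
      simp only [List.append_nil] at this
      simp only [kr, hV0, List.length_nil, Nat.sub_zero, hT, this]
    simp only [D, e1, e2, g]
    simp
  have hfin := walk D lb t (((mf + 1) * (C2 + m) : ℕ) : ℤ) (by positivity) hsame hstep k hk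
  rw [hD0, sub_zero, abs_le] at hfin
  simp only [D, kl, kr, g] at hfin
  rw [← Nat.cast_mul] at hfin
  omega

theorem wd_suffix (x0 : List X) (s : List X) (ψ : X → List Γ) (E0 : List Γ) :
    wd (x0 ++ s) (out ψ E0 (x0 ++ s)).reverse =
      wd (x0 ++ s) (out ψ E0 s).reverse ++
        (x0.flatMap ψ).reverse.map (fun c => some (Sum.inr c)) := by
  unfold wd out
  simp [List.flatMap_append]

include hf hφ hD hK in
theorem chain_exists [Finite N] [Finite X] [Finite Γ] [Finite σ] (hP : P.Finite) :
    ∃ C : ℕ, ∀ x ∈ A.accepts, ∃ it : ℕ → Item B N, it 0 = ([], S, []) ∧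
      (∀ j (hj : j < x.length), Move P (it j) (it (j + 1)) (f (some (Sum.inl x[j])))
        (rimg f (φ i x[j]).reverse)) ∧
      (∀ j ≤ x.length, (it j).1.length ≤ C ∧ (it j).2.2.length ≤ C) ∧
      Final P (it x.length) (f none ++ rimg f (E i).reverse) := by
  obtain ⟨m, hm⟩ := exists_image_bound f
  obtain ⟨mf, hmf⟩ := exists_image_bound (φ i)
  obtain ⟨C2, hC2⟩ := spine_bounded P S f hf M A φ E hφ hD hK i hP
  obtain ⟨C4, hC4⟩ := delay_bounded P S f hf M A φ E hφ hD hK i m hm mf hmf C2
  refine ⟨C2 + m + m * (C2 + C4) + m * (C4 + mf * (C2 + m)), ?_⟩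
  intro x hx
  obtain ⟨t, a, U, V, ha0, hU0, hV0, hst, hY, hlast⟩ := hC2 x hx
  have hdel := hC4 x hx t a U V ha0 hU0 hV0 hst hY
  set w := ww φ E i x with hwdef
  set T := (w.flatMap f).length with hT
  have hst' : ∀ j < t, ∃ u v, Cx P (a j) u (a (j + 1)) v ∧ U (j + 1) = U j ++ u ∧
      V (j + 1) = v ++ V j := by
    intro j hj
    obtain ⟨u, v, h1, h2, h3, _⟩ := hst j hj
    exact ⟨u, v, h1, h2, h3⟩
  -- images of prefixes
  let fl : ℕ → List B := fun j => (x.take j).flatMap (fun a => f (some (Sum.inl a)))
  let fr : ℕ → List B := fun j => rimg f ((x.take j).flatMap (φ i)).reverse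
  have hwj : ∀ j, w = wd x (out (φ i) (E i) (x.drop j)).reverse ++
      ((x.take j).flatMap (φ i)).reverse.map (fun c => some (Sum.inr c)) := by
    intro j
    have := wd_suffix (x.take j) (x.drop j) (φ i) (E i)
    rw [List.take_append_drop] at this
    exact this
  have hlx : ∀ y : List X, (y.map (fun a => (some (Sum.inl a) : Option (X ⊕ Γ)))).flatMap f =
      y.flatMap (fun a => f (some (Sum.inl a))) := by
    intro y
    rw [List.flatMap_map]
  have hrx : ∀ y : List Γ, (y.map (fun a => (some (Sum.inr a) : Option (X ⊕ Γ)))).flatMap f =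
      rimg f y := by
    intro y
    rw [List.flatMap_map]; rfl
  have hfw : ∀ j, w.flatMap f = fl j ++ ((x.drop j).flatMap (fun a => f (some (Sum.inl a))) ++
      (f none ++ rimg f (E i).reverse) ++ rimg f ((x.drop j).flatMap (φ i)).reverse) ++ fr j := by
    intro j
    rw [hwj j, List.flatMap_append, hrx]
    unfold wd out
    simp only [fl, fr]
    have hx' : x.flatMap (fun a => f (some (Sum.inl a))) =
        (x.take j).flatMap (fun a => f (some (Sum.inl a))) ++
        (x.drop j).flatMap (fun a => f (some (Sum.inl a))) := by
      rw [← List.flatMap_append, List.take_append_drop]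
    simp only [List.flatMap_append, List.flatMap_cons, List.reverse_append, hlx,
      List.map_append, hrx, List.append_assoc]
    rw [hx']
    simp only [List.append_assoc]
  have hddx : dd f x = (fl x.length).length := by
    simp only [dd, fl, List.take_length, hlx]
  -- monotonicity of the contexts
  have hmonoU : ∀ j k, j ≤ k → k ≤ t → (U j).length ≤ (U k).length ∧
      (V j).length ≤ (V k).length := by
    intro j k hjk hk
    obtain ⟨u, v, _, h1, h2⟩ := cx_range t a U V hst' j k hjk hk
    rw [h1, h2]; simp only [List.length_append]; omega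
  let pr : ℕ → ℕ → Prop := fun j k => (U k).length ≤ (fl j).length ∧ (V k).length ≤ (fr j).length
  classical
  let κ : ℕ → ℕ := fun j => if j = 0 then 0 else Nat.findGreatest (pr j) t
  have hκt : ∀ j, κ j ≤ t := by
    intro j
    simp only [κ]
    split_ifs
    · exact Nat.zero_le _
    · exact Nat.findGreatest_le t
  have hpr0 : ∀ j, pr j 0 := fun j => by simp [pr, hU0, hV0]
  have hκp : ∀ j, pr j (κ j) := by
    intro j
    simp only [κ]
    split_ifs
    · exact hpr0 j
    · exact Nat.findGreatest_spec (P := pr j) (Nat.zero_le t) (hpr0 j)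
  have hflmono : ∀ (j) (hj : j < x.length), fl (j + 1) = fl j ++ f (some (Sum.inl x[j])) := by
    intro j hj
    simp only [fl]
    rw [← List.take_append_getElem hj, List.flatMap_append]
    simp
  have hfrmono : ∀ (j) (hj : j < x.length), fr (j + 1) = rimg f (φ i x[j]).reverse ++ fr j := by
    intro j hj
    simp only [fr]
    rw [← List.take_append_getElem hj, List.flatMap_append, List.reverse_append, rimg_append]
    simp
  have hκmono : ∀ j, j < x.length → κ j ≤ κ (j + 1) := by
    intro j hj
    have h1 : pr (j + 1) (κ j) := by
      have := hκp j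
      simp only [pr] at this ⊢
      rw [hflmono j hj, hfrmono j hj]
      simp only [List.length_append]
      omega
    have : κ (j + 1) = Nat.findGreatest (pr (j + 1)) t := by simp [κ]
    rw [this]
    exact Nat.le_findGreatest (hκt j) h1
  -- splitting
  have hspl : ∀ j, ∃ u v, fl j = U (κ j) ++ u ∧ fr j = v ++ V (κ j) := by
    intro j
    obtain ⟨y, _, e, _, _⟩ := hY (κ j) (hκt j)
    obtain ⟨h1, h2⟩ := hκp j
    have hp1 : U (κ j) <+: w.flatMap f := by rw [e, List.append_assoc]; exact List.prefix_append _ _
    have hp2 : fl j <+: w.flatMap f := by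
      rw [hfw j, List.append_assoc]; exact List.prefix_append _ _
    have hs1 : V (κ j) <:+ w.flatMap f := by rw [e]; exact List.suffix_append _ _
    have hs2 : fr j <:+ w.flatMap f := by rw [hfw j]; exact List.suffix_append _ _
    obtain ⟨u, hu⟩ := List.prefix_of_prefix_length_le hp1 hp2 h1
    obtain ⟨v, hv⟩ := List.suffix_of_suffix_length_le hs1 hs2 h2
    exact ⟨u, v, hu.symm, hv.symm⟩
  choose iu iv hiu hiv using hspl
  have hκ0 : κ 0 = 0 := by simp [κ]
  have hiu0 : iu 0 = [] := by
    have := hiu 0
    simp only [fl, List.take_zero, List.flatMap_nil] at this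
    exact (List.append_eq_nil_iff.1 this.symm).2
  have hiv0 : iv 0 = [] := by
    have := hiv 0
    simp only [fr, List.take_zero, List.flatMap_nil, List.reverse_nil, rimg] at this
    exact (List.append_eq_nil_iff.1 this.symm).1
  refine ⟨fun j => (iu j, a (κ j), iv j), ?_, ?_, ?_, ?_⟩
  · simp only [hκ0, ha0, hiu0, hiv0]
  · intro j hj
    obtain ⟨u, v, hc, h1, h2⟩ := cx_range t a U V hst' (κ j) (κ (j + 1)) (hκmono j hj)
      (hκt (j + 1))
    refine ⟨u, v, hc, ?_, ?_⟩
    · have e1 := hflmono j hj
      rw [hiu (j + 1), hiu j, h1] at e1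
      simp only [List.append_assoc] at e1
      have := List.append_cancel_left e1
      exact this.symm
    · have e1 := hfrmono j hj
      rw [hiv (j + 1), hiv j, h2] at e1
      simp only [← List.append_assoc] at e1
      have := List.append_cancel_right e1
      exact this.symm
  · intro j hj
    rcases Nat.eq_zero_or_pos j with rfl | hjpos
    · simp [hiu0, hiv0]
    · obtain ⟨y, _, e, hUd, hVd⟩ := hY (κ j) (hκt j)
      obtain ⟨hp1, hp2⟩ := hκp j
      have hTl : (U (κ j)).length + (V (κ j)).length ≤ T := by
        rw [hT, e]; simp only [List.length_append]; omega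
      have hxw : x.length ≤ w.length := by
        rw [hwdef, ww_split, List.length_append, List.length_map]; omega
      have hgl : ((x.take j).flatMap (φ i)).length ≤ w.length := by
        rw [hwj j]
        simp only [List.length_append, List.length_map, List.length_reverse]
        omega
      have hFLj : FLn f w j = (fl j).length := by
        unfold FLn
        have : w.take j = (x.take j).map (fun a => some (Sum.inl a)) := by
          rw [hwdef, ww_split, List.take_append_of_le_length (by simpa using hj), List.map_take]
        rw [this, hlx]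
      have hFLr : FLn f w (w.length - ((x.take j).flatMap (φ i)).length) + (fr j).length = T := by
        unfold FLn
        have e1 : w.take (w.length - ((x.take j).flatMap (φ i)).length) =
            wd x (out (φ i) (E i) (x.drop j)).reverse := by
          conv_lhs => rw [hwj j]
          rw [List.take_append_of_le_length]
          · rw [List.take_of_length_le]
            simp only [List.length_append, List.length_map, List.length_reverse]
            omega
          · simp only [List.length_append, List.length_map, List.length_reverse]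
            omega
        rw [e1, hT]
        conv_rhs => rw [hwj j, List.flatMap_append, hrx, List.length_append]
      have b1 := loc_bounds f m hm w (U (κ j)).length (by omega)
      have b2 := loc_bounds f m hm w (T - (V (κ j)).length) (by omega)
      have hd := hdel (κ j) (hκt j)
      have hkl : (loc f w (U (κ j)).length).1 ≤ x.length := by
        have h1 := loc_mono f w (U (κ j)).length (dd f x) hUd (by omega)
        rw [hwdef, loc_dd f hf φ E i x] at h1
        exact h1
      have hcase : FLn f w j ≤ (U (κ j)).length + C2 ∨
          T - (V (κ j)).length ≤ FLn f w (w.length - ((x.take j).flatMap (φ i)).length) + C2 := by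
        rcases Nat.lt_or_ge (κ j) t with hlt | hge
        · have hnot : ¬ pr j (κ j + 1) := by
            have h1 : κ j = Nat.findGreatest (pr j) t := by
              simp only [κ]
              rw [if_neg (by omega)]
            have := Nat.findGreatest_is_greatest (P := pr j) (n := t) (k := κ j + 1)
              (by rw [← h1]; omega) (by omega)
            exact this
          obtain ⟨u, v, _, h1, h2, h3, h4⟩ := hst (κ j) hlt
          have l1 : (U (κ j + 1)).length = (U (κ j)).length + u.length := by
            rw [h1, List.length_append]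
          have l2 : (V (κ j + 1)).length = v.length + (V (κ j)).length := by
            rw [h2, List.length_append]
          simp only [pr, not_and_or, not_le] at hnot
          rcases hnot with h | h
          · left; omega
          · right; omega
        · have h1 : κ j = t := le_antisymm (hκt j) hge
          left
          rw [h1]
          have h2 : (fl j).length ≤ (fl x.length).length := by
            have := (FLn_bounds f hf m hm w j x.length hj hxw).1
            have h3 : FLn f w x.length = (fl x.length).length := by
              unfold FLn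
              have : w.take x.length = (x.take x.length).map (fun a => some (Sum.inl a)) := by
                rw [hwdef, ww_split, List.take_append_of_le_length (by simp), List.map_take]
              rw [this, hlx]
            omega
          omega
      have hnum := numeric (FLn f w) (fun n => ((x.take n).flatMap (φ i)).length) w.length
        x.length m mf C2 C4 (fun p q h1 h2 => FLn_bounds f hf m hm w p q h1 h2)
        (fun p q h1 h2 => FLn_bounds (φ i) (hφ i) mf hmf x p q h1 h2) hxw
        (loc f w (U (κ j)).length).1 (loc f w (T - (V (κ j)).length)).1 (U (κ j)).length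
        (T - (V (κ j)).length) j hkl (loc_fst_le f w _ (by omega)) b1.1 b1.2 b2.1 b2.2
        hd.1 hd.2 hj (by omega) hgl hcase
      have l1 := congrArg List.length (hiu j)
      have l2 := congrArg List.length (hiv j)
      simp only [List.length_append] at l1 l2
      simp only at hnum ⊢
      omega
  · obtain ⟨y, hg, e, _, _⟩ := hY (κ x.length) (hκt x.length)
    unfold Final
    simp only
    have e1 := hfw x.length
    rw [e, hiu x.length, hiv x.length] at e1
    simp only [List.drop_length, List.flatMap_nil, List.nil_append, List.reverse_nil, rimg,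
      List.append_nil] at e1
    have e2 : y = iu x.length ++ (f none ++ rimg f (E i).reverse) ++ iv x.length := by
      simp only [List.append_assoc] at e1
      have e3 := List.append_cancel_left e1
      simp only [← List.append_assoc] at e3
      have e4 := List.append_cancel_right e3
      rw [e4]
      simp [rimg]
    rw [← e2]
    exact hg

end main

end Pool.Agent.Helper450.NP
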