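import Mathlib
import Pool.Agent.Helper450.NP.Base

set_option autoImplicit false

/-!
Derivation trees of context-free grammars, unambiguous grammars, contexts, and the pair
languages used to show that the cylinder of unambiguous context-free languages is not principal.
-/

namespace Pool.Agent.Helper450.NP

variable {α N : Type}


theorem cert_of_chain {B N X Γ Q : Type} [Finite B] [Finite N] [Finite X] [Finite Q]
    (P : Set (ContextFreeRule B N)) (S : N) (f : Option (X ⊕ Γ) → List B)
    (A : DFA X Q) (φ : X → List Γ) (E : List Γ)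
    (h : ∃ C : ℕ, ∀ x ∈ A.accepts, ∃ it : ℕ → Item B N, it 0 = ([], S, []) ∧
      (∀ j (hj : j < x.length), Move P (it j) (it (j + 1)) (f (some (Sum.inl x[j])))
        (rimg f (φ x[j]).reverse)) ∧
      (∀ j ≤ x.length, (it j).1.length ≤ C ∧ (it j).2.2.length ≤ C) ∧
      Final P (it x.length) (f none ++ rimg f E.reverse)) :
    Cert P S A f φ E := by
  classical
  obtain ⟨C, hC⟩ := h
  let ini : Item B N := ([], S, [])
  let IC : Set (Item B N) := {b | b.1.length ≤ C ∧ b.2.2.length ≤ C}
  have hIC : IC.Finite := by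
    have h1 : {l : List B | l.length ≤ C}.Finite := List.finite_length_le B C
    refine (h1.prod ((Set.finite_univ (α := N)).prod h1)).subset ?_
    intro b hb
    exact ⟨hb.1, Set.mem_univ _, hb.2⟩
  let nxt : X → Set (Item B N) → Set (Item B N) := fun a Z =>
    {b' | b' ∈ IC ∧ ∃ b ∈ Z, Move P b b' (f (some (Sum.inl a))) (rimg f (φ a).reverse)}
  let Tp : List X → Set (Item B N) := fun p => p.foldl (fun Z a => nxt a Z) {ini}
  have hT0 : Tp [] = {ini} := rfl
  have hTs : ∀ p a, Tp (p ++ [a]) = nxt a (Tp p) := by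
    intro p a
    simp [Tp, List.foldl_append]
  have hini : ini ∈ IC := ⟨Nat.zero_le _, Nat.zero_le _⟩
  have hTI : ∀ p, Tp p ⊆ IC := by
    intro p
    rcases List.eq_nil_or_concat p with rfl | ⟨q, a, rfl⟩
    · rw [hT0, Set.singleton_subset_iff]
      exact hini
    · rw [List.concat_eq_append] at *
      rw [hTs]
      intro b hb
      exact hb.1
  let lst : Set (Item B N) → List (Item B N) := fun Z =>
    if Z = {ini} then [ini] else if h : Z.Finite then h.toFinset.toList else []
  have hl0 : lst {ini} = [ini] := if_pos rfl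
  have hlm : ∀ Z : Set (Item B N), Z.Finite → ∀ b, b ∈ lst Z ↔ b ∈ Z := by
    intro Z hZ b
    by_cases hz : Z = {ini}
    · rw [hz, hl0]
      simp
    · simp [lst, hz, hZ]
  have hTf : ∀ p, (Tp p).Finite := fun p => hIC.subset (hTI p)
  let Fs : Set (Q × List (Item B N)) := Set.range (fun p : List X => (A.eval p, lst (Tp p)))
  have hFs : Fs.Finite := by
    refine (((Set.finite_univ (α := Q)).prod hIC.finite_subsets).image
      (fun z => (z.1, lst z.2))).subset ?_
    rintro _ ⟨p, rfl⟩
    exact ⟨(A.eval p, Tp p), ⟨Set.mem_univ _, hTI p⟩, rfl⟩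
  have hmem : ∀ c, c ∈ hFs.toFinset.toList ↔ c ∈ Fs := by
    intro c
    simp
  refine ⟨hFs.toFinset.toList, ?_, ?_, ?_⟩
  · rw [hmem]
    refine ⟨[], ?_⟩
    show (A.eval [], lst (Tp [])) = _
    rw [hT0, hl0]
    rfl
  · intro c hc a
    rw [hmem] at hc
    obtain ⟨p, rfl⟩ := hc
    refine ⟨(A.eval (p ++ [a]), lst (Tp (p ++ [a]))), (hmem _).2 ⟨p ++ [a], rfl⟩, ?_, ?_⟩
    · exact A.eval_append_singleton p a
    · intro b' hb'
      have h1 := (hlm _ (hTf (p ++ [a])) b').1 hb'
      rw [hTs] at h1
      obtain ⟨-, b, hb, hm⟩ := h1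
      exact ⟨b, (hlm _ (hTf p) b).2 hb, hm⟩
  · intro c hc hacc
    rw [hmem] at hc
    obtain ⟨p, rfl⟩ := hc
    have hp : p ∈ A.accepts := (A.mem_accepts).2 hacc
    obtain ⟨it, h0, hmv, hb, hfin⟩ := hC p hp
    have key : ∀ j, j ≤ p.length → it j ∈ Tp (p.take j) := by
      intro j
      induction j with
      | zero =>
        intro _
        rw [List.take_zero, hT0, h0]
        exact Set.mem_singleton _
      | succ j ih =>
        intro hj
        rw [List.take_succ_eq_append_getElem (by omega : j < p.length), hTs]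
        exact ⟨hb (j + 1) hj, it j, ih (by omega), hmv j (by omega)⟩
    have h1 := key p.length le_rfl
    rw [List.take_length] at h1
    exact ⟨it p.length, (hlm _ (hTf p) _).2 h1, hfin⟩

end Pool.Agent.Helper450.NP
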