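import Mathlib
import Pool.Agent.Helper450.NP.Base

set_option autoImplicit false

/-!
Derivation trees of context-free grammars, unambiguous grammars, contexts, and the pair
languages used to show that the cylinder of unambiguous context-free languages is not principal.
-/

namespace Pool.Agent.Helper450.NP

variable {α N : Type}


/-- Nodes of a forest with their position intervals. -/
inductive At : T α N → ℕ → N → ℕ → Prop
  | here (r : ContextFreeRule α N) (t f : T α N) : At (.nd r t f) 0 r.input t.yield.length
  | child (r : ContextFreeRule α N) (t f : T α N) (i : ℕ) (A : N) (j : ℕ) :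
      At t i A j → At (.nd r t f) i A j
  | sib (r : ContextFreeRule α N) (t f : T α N) (i : ℕ) (A : N) (j : ℕ) :
      At f i A j → At (.nd r t f) (t.yield.length + i) A (t.yield.length + j)
  | tm (a : α) (f : T α N) (i : ℕ) (A : N) (j : ℕ) : At f i A j → At (.tm a f) (i + 1) A (j + 1)

theorem At.bound {t : T α N} {i : ℕ} {A : N} {j : ℕ} (h : At t i A j) :
    i ≤ j ∧ j ≤ t.yield.length := by
  induction h with
  | here r t f => simp [T.yield]
  | child r t f i A j _ ih => simp only [T.yield, List.length_append]; omega
  | sib r t f i A j _ ih => simp only [T.yield, List.length_append]; omega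
  | tm a f i A j _ ih => simp only [T.yield, List.length_cons]; omega

theorem laminar (t : T α N) : ∀ (i : ℕ) (A : N) (j i' : ℕ) (A' : N) (j' : ℕ),
    At t i A j → At t i' A' j' → ¬ (i' < i ∧ i < j' ∧ j' < j) := by
  induction t with
  | nil => intro i A j i' A' j' h; cases h
  | tm a f ih =>
    intro i A j i' A' j' h h'
    cases h with
    | tm _ _ i A j h =>
      cases h' with
      | tm _ _ i' A' j' h' =>
        have := ih i A j i' A' j' h h'
        omega
  | nd r t f iht ihf =>
    intro i A j i' A' j' h h'
    cases h with
    | here => omega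
    | child _ _ _ _ _ _ h =>
      have hb := h.bound
      cases h' with
      | here => omega
      | child _ _ _ _ _ _ h' => exact iht _ _ _ _ _ _ h h'
      | sib _ _ _ i' _ j' h' => omega
    | sib _ _ _ i _ j h =>
      have hb := h.bound
      cases h' with
      | here => omega
      | child _ _ _ _ _ _ h' =>
        have hb' := h'.bound
        omega
      | sib _ _ _ i' _ j' h' =>
        have := ihf _ _ _ _ _ _ h h'
        omega

/-- Concatenation of forests. -/
def app : T α N → T α N → T α N
  | .nil, g => g
  | .tm a f, g => .tm a (app f g)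
  | .nd r t f, g => .nd r t (app f g)

theorem app_yield (t g : T α N) : (app t g).yield = t.yield ++ g.yield := by
  induction t with
  | nil => simp [app, T.yield]
  | tm a f ih => simp [app, T.yield, ih]
  | nd r t f _ ih => simp [app, T.yield, ih]

theorem app_ok {P : Set (ContextFreeRule α N)} {t g : T α N} {s s' : List (Symbol α N)}
    (h : Ok P t s) (hg : Ok P g s') : Ok P (app t g) (s ++ s') := by
  induction h with
  | nil => simpa [app] using hg
  | tm a f s _ ih => exact Ok.tm _ _ _ ih
  | nd r t f s hr ht _ _ ih => exact Ok.nd _ _ _ _ hr ht ih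

theorem At.app_left {t : T α N} (g : T α N) {i : ℕ} {A : N} {j : ℕ} (h : At t i A j) :
    At (app t g) i A j := by
  induction h with
  | here r t f => exact At.here _ _ _
  | child r t f i A j h _ => exact At.child _ _ _ _ _ _ h
  | sib r t f i A j _ ih => exact At.sib _ _ _ _ _ _ ih
  | tm a f i A j _ ih => exact At.tm _ _ _ _ _ ih

theorem At.app_right (t : T α N) {g : T α N} {i : ℕ} {A : N} {j : ℕ} (h : At g i A j) :
    At (app t g) (t.yield.length + i) A (t.yield.length + j) := by
  induction t with
  | nil => simpa [app, T.yield] using h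
  | tm a f ih =>
    have := At.tm a _ _ _ _ ih
    simp only [T.yield, List.length_cons, app]
    have e1 : f.yield.length + 1 + i = f.yield.length + i + 1 := by omega
    have e2 : f.yield.length + 1 + j = f.yield.length + j + 1 := by omega
    rw [e1, e2]
    exact this
  | nd r t f _ ih =>
    have := At.sib r t _ _ _ _ ih
    simp only [T.yield, List.length_append, app]
    rw [add_assoc, add_assoc]
    exact this

theorem exists_at {P : Set (ContextFreeRule α N)} {S A : N} {al ga : List α}
    (c : Cx P S al A ga) {y : List α} (g : Gen P [.nonterminal A] y) :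
    ∃ t, Ok P t [.nonterminal S] ∧ t.yield = al ++ y ++ ga ∧
      At t al.length A (al.length + y.length) := by
  induction c with
  | refl A =>
    obtain ⟨t, ht, hy⟩ := g
    refine ⟨t, ht, by simpa using hy, ?_⟩
    cases ht with
    | nd r t f s hr h1 h2 =>
      cases h2
      have : y.length = t.yield.length := by rw [← hy]; simp [T.yield]
      simp only [List.length_nil, zero_add, this]
      exact At.here _ _ _
  | step r s1 s2 B w1 w2 U C V hr hout g1 g2 _ ih =>
    obtain ⟨tB, hB, hyB, haB⟩ := ih g
    obtain ⟨t1, ht1, hy1⟩ := g1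
    obtain ⟨t2, ht2, hy2⟩ := g2
    refine ⟨.nd r (app t1 (app tB t2)) .nil, ?_, ?_, ?_⟩
    · refine Ok.nd _ _ _ _ hr ?_ Ok.nil
      rw [hout]
      exact app_ok ht1 (app_ok hB ht2)
    · simp [T.yield, app_yield, hy1, hy2, hyB]
    · have := At.app_right t1 (haB.app_left t2)
      rw [hy1] at this
      rw [List.length_append, add_assoc]
      exact At.child _ _ _ _ _ _ this

theorem no_cross {α N : Type} (P : Set (ContextFreeRule α N)) (S : N) (hU : Una P S)
    (al1 ga1 y1 al2 ga2 y2 : List α) (A1 A2 : N)
    (c1 : Cx P S al1 A1 ga1) (g1 : Gen P [.nonterminal A1] y1)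
    (c2 : Cx P S al2 A2 ga2) (g2 : Gen P [.nonterminal A2] y2)
    (he : al1 ++ y1 ++ ga1 = al2 ++ y2 ++ ga2)
    (h1 : al2.length < al1.length) (h2 : ga1.length < ga2.length)
    (h3 : al1.length + ga2.length < (al1 ++ y1 ++ ga1).length) : False := by
  obtain ⟨t1, hk1, hy1, ha1⟩ := exists_at c1 g1
  obtain ⟨t2, hk2, hy2, ha2⟩ := exists_at c2 g2
  have : t1 = t2 := hU t1 t2 hk1 hk2 (by rw [hy1, hy2, he])
  subst this
  have hl := congrArg List.length he
  simp only [List.length_append] at hl h3
  exact laminar t1 _ _ _ _ _ _ ha1 ha2 ⟨h1, by omega, by omega⟩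

end Pool.Agent.Helper450.NP
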