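import Mathlib
import Pool.Agent.Helper450.NP.Base

set_option autoImplicit false

/-!
Derivation trees of context-free grammars, unambiguous grammars, contexts, and the pair
languages used to show that the cylinder of unambiguous context-free languages is not principal.
-/

namespace Pool.Agent.Helper450.NP

variable {α N : Type}


theorem len_flatMap_ge {α β : Type} (g : α → List β) (hg : ∀ a, g a ≠ []) (l : List α) :
    l.length ≤ (l.flatMap g).length := by
  induction l with
  | nil => simp
  | cons a l ih =>
    rw [List.flatMap_cons, List.length_append, List.length_cons]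
    have := List.length_pos_of_ne_nil (hg a)
    omega

theorem len_flatMap_le {α β : Type} (g : α → List β) (m : ℕ) (hg : ∀ a, (g a).length ≤ m)
    (l : List α) : (l.flatMap g).length ≤ l.length * m := by
  induction l with
  | nil => simp
  | cons a l ih =>
    rw [List.flatMap_cons, List.length_append, List.length_cons, Nat.succ_mul]
    have := hg a
    omega

theorem wd_flatMap {X Γ B : Type} (f : Option (X ⊕ Γ) → List B) (x : List X) (y : List Γ) :
    (wd x y).flatMap f = x.flatMap (fun a => f (some (Sum.inl a))) ++ (f none ++ rimg f y) := by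
  unfold wd rimg
  rw [List.flatMap_append, List.flatMap_cons]
  congr 1
  · rw [List.flatMap_map]
  · congr 1
    rw [List.flatMap_map]

theorem sound_of {B N X Γ Q : Type} [Finite X]
    (P : Set (ContextFreeRule B N)) (S : N)
    (f : Option (X ⊕ Γ) → List B) (hf : ∀ y, f y ≠ [])
    (A : DFA X Q) (φ0 φ1 : X → List Γ) (E0 E1 : List Γ)
    (no_cross : ∀ (al1 ga1 y1 al2 ga2 y2 : List B) (A1 A2 : N), Cx P S al1 A1 ga1 →
      Gen P [.nonterminal A1] y1 → Cx P S al2 A2 ga2 → Gen P [.nonterminal A2] y2 →
      al1 ++ y1 ++ ga1 = al2 ++ y2 ++ ga2 → al2.length < al1.length → ga1.length < ga2.length →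
      al1.length + ga2.length < (al1 ++ y1 ++ ga1).length → False)
    (trace : ∀ (φ : X → List Γ) (E : List Γ), Cert P S A f φ E →
      ∃ C : ℕ, ∀ x ∈ A.accepts, ∀ p s, x = p ++ s → ∃ (al : List B) (D : N) (ga y : List B),
        Cx P S al D ga ∧ Gen P [.nonterminal D] y ∧
        al ++ y ++ ga = (wd x (out φ E x).reverse).flatMap f ∧
        al.length ≤ (p.flatMap (fun a => f (some (Sum.inl a)))).length ∧
        (p.flatMap (fun a => f (some (Sum.inl a)))).length ≤ al.length + C ∧
        ga.length ≤ (rimg f (p.flatMap φ).reverse).length ∧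
        (rimg f (p.flatMap φ).reverse).length ≤ ga.length + C)
    (h0 : Cert P S A f φ0 E0) (h1 : Cert P S A f φ1 E1) :
    ∃ C : ℕ, ∀ x ∈ A.accepts, out φ0 E0 x = out φ1 E1 x → ∀ p s, x = p ++ s →
      (p.flatMap φ1).length < (p.flatMap φ0).length + C := by
  obtain ⟨C0, hC0⟩ := trace φ0 E0 h0
  obtain ⟨C1, hC1⟩ := trace φ1 E1 h1
  obtain ⟨m0, hm0⟩ : ∃ m0, ∀ a, (φ0 a).length ≤ m0 := by
    obtain ⟨m0, hm⟩ := (Set.finite_range (fun a => (φ0 a).length)).bddAbove
    exact ⟨m0, fun a => hm ⟨a, rfl⟩⟩
  obtain ⟨Cc, hCc⟩ : ∃ Cc, Cc = max C0 C1 := ⟨_, rfl⟩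
  have hC0c : C0 ≤ Cc := by rw [hCc]; exact le_max_left _ _
  have hC1c : C1 ≤ Cc := by rw [hCc]; exact le_max_right _ _
  refine ⟨Cc + (Cc + 1) * m0 + E0.length + 2, ?_⟩
  intro x hx hout p s hps
  by_contra hcon
  have hcon' := not_lt.1 hcon
  have hmm : Cc * m0 ≤ (Cc + 1) * m0 := Nat.mul_le_mul_right _ (by omega)
  -- length of s
  have hs : Cc + 1 ≤ s.length := by
    by_contra hs
    have hs' : s.length ≤ Cc := by omega
    have e0 : (out φ0 E0 x).length = (p.flatMap φ0).length + (s.flatMap φ0).length + E0.length := by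
      unfold out
      rw [hps, List.flatMap_append, List.length_append, List.length_append]
    have e1 : (out φ1 E1 x).length = (p.flatMap φ1).length + (s.flatMap φ1).length + E1.length := by
      unfold out
      rw [hps, List.flatMap_append, List.length_append, List.length_append]
    have e2 := len_flatMap_le φ0 m0 hm0 s
    have e3 : s.length * m0 ≤ Cc * m0 := Nat.mul_le_mul_right _ hs'
    rw [hout, e1] at e0
    omega
  obtain ⟨s1, hs1⟩ : ∃ s1, s1 = s.take (Cc + 1) := ⟨_, rfl⟩
  obtain ⟨s2, hs2⟩ : ∃ s2, s2 = s.drop (Cc + 1) := ⟨_, rfl⟩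
  have hss : s = s1 ++ s2 := by rw [hs1, hs2, List.take_append_drop]
  have hs1l : s1.length = Cc + 1 := by
    rw [hs1, List.length_take]
    omega
  have hx1 : x = (p ++ s1) ++ s2 := by rw [hps, hss, List.append_assoc]
  obtain ⟨al2, D2, ga2, y2, c2, g2, w2, a2, b2, d2, f2⟩ := hC1 x hx p s hps
  obtain ⟨al1, D1, ga1, y1, c1, g1, w1, a1, b1, d1, f1⟩ := hC0 x hx (p ++ s1) s2 hx1
  -- lengths of the left parts
  have hfL : ∀ a, (fun a => f (some (Sum.inl a))) a ≠ ([] : List B) := fun a => hf _
  have l1 := len_flatMap_ge (fun a => f (some (Sum.inl a))) hfL s1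
  rw [List.flatMap_append, List.length_append] at a1 b1
  have hal : al2.length < al1.length := by omega
  -- right parts
  have hlen0 : ((p ++ s1).flatMap φ0).length ≤ (p.flatMap φ0).length + (Cc + 1) * m0 := by
    rw [List.flatMap_append, List.length_append]
    have := len_flatMap_le φ0 m0 hm0 s1
    rw [hs1l] at this
    omega
  have hpre0 : ((p ++ s1).flatMap φ0) <+: out φ0 E0 x := by
    refine ⟨s2.flatMap φ0 ++ E0, ?_⟩
    unfold out
    rw [hx1, List.flatMap_append (xs := p ++ s1), List.append_assoc]
  have hpre1 : (p.flatMap φ1) <+: out φ0 E0 x := by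
    rw [hout]
    refine ⟨s.flatMap φ1 ++ E1, ?_⟩
    unfold out
    rw [hps, List.flatMap_append, List.append_assoc]
  obtain ⟨z, hz⟩ := List.prefix_of_prefix_length_le hpre0 hpre1 (by omega)
  have hzl : Cc + 1 ≤ z.length := by
    have := congrArg List.length hz
    rw [List.length_append] at this
    omega
  have hR : ∀ c, (fun c => f (some (Sum.inr c))) c ≠ ([] : List B) := fun c => hf _
  have hrz : (rimg f (p.flatMap φ1).reverse).length =
      (rimg f z.reverse).length + (rimg f ((p ++ s1).flatMap φ0).reverse).length := by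
    rw [← hz, List.reverse_append]
    unfold rimg
    rw [List.flatMap_append, List.length_append]
  have hrz2 : z.length ≤ (rimg f z.reverse).length := by
    have := len_flatMap_ge (fun c => f (some (Sum.inr c))) hR z.reverse
    rw [List.length_reverse] at this
    exact this
  have hga : ga1.length < ga2.length := by omega
  -- the total length
  have hw : al1 ++ y1 ++ ga1 = al2 ++ y2 ++ ga2 := by rw [w1, w2, hout]
  have htot : al1.length + ga2.length < (al1 ++ y1 ++ ga1).length := by
    rw [w1, wd_flatMap, List.length_append, List.length_append]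
    have t1 : 0 < (f none).length := List.length_pos_of_ne_nil (hf none)
    have t2 : (x.flatMap (fun a => f (some (Sum.inl a)))).length =
        (p.flatMap (fun a => f (some (Sum.inl a)))).length +
        (s1.flatMap (fun a => f (some (Sum.inl a)))).length +
        (s2.flatMap (fun a => f (some (Sum.inl a)))).length := by
      rw [hx1, List.flatMap_append, List.flatMap_append, List.length_append, List.length_append]
    have t3 : (rimg f (p.flatMap φ1).reverse).length ≤ (rimg f (out φ0 E0 x).reverse).length := by
      obtain ⟨u, hu⟩ := hpre1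
      rw [← hu, List.reverse_append]
      unfold rimg
      rw [List.flatMap_append, List.length_append]
      omega
    omega
  exact no_cross al1 ga1 y1 al2 ga2 y2 D1 D2 c1 g1 c2 g2 hw hal hga htot

end Pool.Agent.Helper450.NP
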