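import Mathlib
import Pool.Agent.Helper450.NP.Base
import Pool.Agent.Helper450.NP.FLib
import Pool.Agent.Helper450.NP.F1

set_option autoImplicit false

namespace Pool.Agent.Helper450.NP

open Relation

/-- Reachability along an r.e. relation is r.e. -/
theorem re_reach {β : Type} [Primcodable β] {r : β → β → Prop}
    (hr : REPred fun z : β × β => r z.1 z.2) :
    REPred fun z : β × β => ReflTransGen r z.1 z.2 := by
  have h1 : REPred fun z : β × β => ∃ L : List β,
      ((L[0]? = some z.1 ∧ L[L.length - 1]? = some z.2) ∧
      ∀ i < L.length - 1, ∃ xy : β × β, (L[i]? = some xy.1 ∧ L[i+1]? = some xy.2) ∧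
        r xy.1 xy.2) := by
    refine RE.ex (p := fun (z : β × β) (L : List β) => ((L[0]? = some z.1 ∧
      L[L.length - 1]? = some z.2) ∧ ∀ i < L.length - 1, ∃ xy : β × β,
      (L[i]? = some xy.1 ∧ L[i+1]? = some xy.2) ∧ r xy.1 xy.2)) ?_
    have hlen : Computable fun x : (β × β) × List β => x.2.length - 1 :=
      (Primrec.nat_sub.comp (Primrec.list_length.comp Primrec.snd) (Primrec.const 1)).to_comp
    refine RE.and (RE.and ?_ ?_) ?_
    · exact RE.eq (Computable.list_getElem?.comp Computable.snd (Computable.const 0))
        (Computable.option_some.comp (Computable.fst.comp Computable.fst))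
    · exact RE.eq (Computable.list_getElem?.comp Computable.snd hlen)
        (Computable.option_some.comp (Computable.snd.comp Computable.fst))
    · refine RE.all_lt (p := fun (x : (β × β) × List β) (i : ℕ) => ∃ xy : β × β,
        (x.2[i]? = some xy.1 ∧ x.2[i+1]? = some xy.2) ∧ r xy.1 xy.2) ?_ hlen
      refine RE.ex (p := fun (x : ((β × β) × List β) × ℕ) (xy : β × β) =>
        (x.1.2[x.2]? = some xy.1 ∧ x.1.2[x.2+1]? = some xy.2) ∧ r xy.1 xy.2) ?_
      have hL : Computable fun x : (((β × β) × List β) × ℕ) × (β × β) => x.1.1.2 :=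
        Computable.snd.comp (Computable.fst.comp Computable.fst)
      have hi : Computable fun x : (((β × β) × List β) × ℕ) × (β × β) => x.1.2 :=
        Computable.snd.comp Computable.fst
      refine RE.and (RE.and ?_ ?_) ?_
      · exact RE.eq (Computable.list_getElem?.comp hL hi)
          (Computable.option_some.comp (Computable.fst.comp Computable.snd))
      · exact RE.eq (Computable.list_getElem?.comp hL (Computable.succ.comp hi))
          (Computable.option_some.comp (Computable.snd.comp Computable.snd))
      · exact RE.comp hr Computable.snd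
  refine h1.of_eq fun z => ?_
  obtain ⟨a, b⟩ := z
  simp only
  constructor
  · rintro ⟨L, ⟨h0, hl⟩, hs⟩
    have key : ∀ i, i ≤ L.length - 1 → ∀ x, L[i]? = some x → ReflTransGen r a x := by
      intro i
      induction i with
      | zero =>
        intro _ x hx
        rw [h0] at hx
        cases hx
        exact ReflTransGen.refl
      | succ i ih =>
        intro hi x hx
        obtain ⟨⟨x1, y1⟩, ⟨h2, h3⟩, h4⟩ := hs i (by omega)
        rw [hx] at h3
        cases h3
        exact (ih (by omega) x1 h2).tail h4
    exact key _ le_rfl b hl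
  · intro h
    induction h with
    | refl => exact ⟨[a], by simp⟩
    | @tail c d _ h2 ih =>
      obtain ⟨L, ⟨h0, hl⟩, hs⟩ := ih
      have hpos : 0 < L.length := by
        by_contra hcon
        have : L = [] := List.eq_nil_of_length_eq_zero (by omega)
        subst this
        simp at h0
      refine ⟨L ++ [d], ⟨?_, ?_⟩, ?_⟩
      · rw [List.getElem?_append_left hpos]
        exact h0
      · simp
      · intro i hi
        simp only [List.length_append, List.length_cons, List.length_nil] at hi
        by_cases hi2 : i < L.length - 1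
        · obtain ⟨xy, ⟨h3, h4⟩, h5⟩ := hs i hi2
          refine ⟨xy, ⟨?_, ?_⟩, h5⟩
          · rw [List.getElem?_append_left (by omega)]
            exact h3
          · rw [List.getElem?_append_left (by omega)]
            exact h4
        · have h6 : i = L.length - 1 := by omega
          refine ⟨(c, d), ⟨?_, ?_⟩, h2⟩
          · rw [List.getElem?_append_left (by omega), h6]
            exact hl
          · have h7 : i + 1 = L.length := by omega
            rw [h7]
            simp

/-- Finite unions of r.e. predicates. -/
theorem re_ex_finset {α ι : Type} [Primcodable α] {s : Set ι} (hs : s.Finite)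
    {p : ι → α → Prop} (hp : ∀ i ∈ s, REPred (p i)) : REPred (fun a => ∃ i ∈ s, p i a) := by
  induction s, hs using Set.Finite.induction_on with
  | empty =>
    refine (RE.const (α := α) False).of_eq fun a => ?_
    simp
  | @insert i s _ _ ih =>
    refine (RE.or (hp i (Set.mem_insert _ _)) (ih fun j hj => hp j (Set.mem_insert_of_mem _ hj))).of_eq
      fun a => ?_
    simp

/-- Symbols as a sum type. -/
def symE (B N : Type) : Symbol B N ≃ B ⊕ N where
  toFun s := match s with
    | .terminal b => Sum.inl b
    | .nonterminal n => Sum.inr n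
  invFun s := match s with
    | Sum.inl b => .terminal b
    | Sum.inr n => .nonterminal n
  left_inv s := by cases s <;> rfl
  right_inv s := by cases s <;> rfl

section coded

variable {B N : Type} [Primcodable B] [Primcodable N]

instance : Primcodable (Symbol B N) := Primcodable.ofEquiv (B ⊕ N) (symE B N)

theorem prim_terminal : Primrec (Symbol.terminal : B → Symbol B N) :=
  ((Primrec.of_equiv_symm (e := symE B N)).comp Primrec.sumInl).of_eq fun _ => rfl

theorem prim_nonterminal : Primrec (Symbol.nonterminal : N → Symbol B N) :=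
  ((Primrec.of_equiv_symm (e := symE B N)).comp Primrec.sumInr).of_eq fun _ => rfl

theorem re_rstep {P : Set (ContextFreeRule B N)} (hP : P.Finite) :
    REPred fun z : List (Symbol B N) × List (Symbol B N) => RStep P z.1 z.2 := by
  refine re_ex_finset hP (p := fun (r : ContextFreeRule B N)
    (z : List (Symbol B N) × List (Symbol B N)) => ∃ p q,
      z.1 = p ++ .nonterminal r.input :: q ∧ z.2 = p ++ r.output ++ q) ?_
  intro r _
  refine RE.ex (p := fun (z : List (Symbol B N) × List (Symbol B N)) p => ∃ q,
      z.1 = p ++ .nonterminal r.input :: q ∧ z.2 = p ++ r.output ++ q) ?_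
  refine RE.ex (p := fun (z : (List (Symbol B N) × List (Symbol B N)) × List (Symbol B N)) q =>
      z.1.1 = z.2 ++ .nonterminal r.input :: q ∧ z.1.2 = z.2 ++ r.output ++ q) ?_
  refine RE.and (RE.eq (Computable.fst.comp (Computable.fst.comp Computable.fst)) ?_)
    (RE.eq (Computable.snd.comp (Computable.fst.comp Computable.fst)) ?_)
  · exact Computable.list_append.comp (Computable.snd.comp Computable.fst)
      (Computable.list_cons.comp (Computable.const _) Computable.snd)
  · exact Computable.list_append.comp (Computable.list_append.comp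
      (Computable.snd.comp Computable.fst) (Computable.const _)) Computable.snd

theorem comp_mapt {α : Type} [Primcodable α] {f : α → List B} (hf : Computable f) :
    Computable fun a => (f a).map (Symbol.terminal : B → Symbol B N) :=
  ((Primrec.list_map Primrec.id (prim_terminal.comp Primrec.snd).to₂).to_comp).comp hf

theorem re_cx {P : Set (ContextFreeRule B N)} (hP : P.Finite) {α : Type} [Primcodable α]
    {A C : α → N} {U V : α → List B} (hA : Computable A) (hU : Computable U)
    (hC : Computable C) (hV : Computable V) :
    REPred fun a => Cx P (A a) (U a) (C a) (V a) := by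
  have h1 := RE.comp (re_reach (re_rstep hP)) (f := fun a : α =>
    (([Symbol.nonterminal (A a)] : List (Symbol B N)),
      (U a).map .terminal ++ .nonterminal (C a) :: (V a).map .terminal)) ?_
  · refine h1.of_eq fun a => ?_
    exact (cx_iff P _ _ _ _).symm
  · refine Computable.pair ?_ ?_
    · exact Computable.list_cons.comp (prim_nonterminal.to_comp.comp hA) (Computable.const [])
    · exact Computable.list_append.comp (comp_mapt hU)
        (Computable.list_cons.comp (prim_nonterminal.to_comp.comp hC) (comp_mapt hV))

theorem re_gen {P : Set (ContextFreeRule B N)} (hP : P.Finite) {α : Type} [Primcodable α]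
    {A : α → N} {W : α → List B} (hA : Computable A) (hW : Computable W) :
    REPred fun a => Gen P [.nonterminal (A a)] (W a) := by
  have h1 := RE.comp (re_reach (re_rstep hP)) (f := fun a : α =>
    (([Symbol.nonterminal (A a)] : List (Symbol B N)), (W a).map .terminal)) ?_
  · refine h1.of_eq fun a => ?_
    exact (gen_iff P _ _).symm
  · refine Computable.pair ?_ (comp_mapt hW)
    exact Computable.list_cons.comp (prim_nonterminal.to_comp.comp hA) (Computable.const [])

theorem re_move {P : Set (ContextFreeRule B N)} (hP : P.Finite) {α : Type} [Primcodable α]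
    {a b : α → Item B N} {s t : α → List B} (ha : Computable a) (hb : Computable b)
    (hs : Computable s) (ht : Computable t) :
    REPred fun x => Move P (a x) (b x) (s x) (t x) := by
  refine RE.ex (p := fun (x : α) (U : List B) => ∃ V, Cx P (a x).2.1 U (b x).2.1 V ∧
    (a x).1 ++ s x = U ++ (b x).1 ∧ t x ++ (a x).2.2 = (b x).2.2 ++ V) ?_
  refine RE.ex (p := fun (y : α × List B) (V : List B) => Cx P (a y.1).2.1 y.2 (b y.1).2.1 V ∧
    (a y.1).1 ++ s y.1 = y.2 ++ (b y.1).1 ∧ t y.1 ++ (a y.1).2.2 = (b y.1).2.2 ++ V) ?_
  have h1 : Computable fun y : (α × List B) × List B => y.1.1 :=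
    Computable.fst.comp Computable.fst
  have ha' : Computable fun y : (α × List B) × List B => a y.1.1 := ha.comp h1
  have hb' : Computable fun y : (α × List B) × List B => b y.1.1 := hb.comp h1
  have hs' : Computable fun y : (α × List B) × List B => s y.1.1 := hs.comp h1
  have ht' : Computable fun y : (α × List B) × List B => t y.1.1 := ht.comp h1
  have hU : Computable fun y : (α × List B) × List B => y.1.2 :=
    Computable.snd.comp Computable.fst
  refine RE.and (re_cx hP (Computable.fst.comp (Computable.snd.comp ha')) hU
    (Computable.fst.comp (Computable.snd.comp hb')) Computable.snd) (RE.and ?_ ?_)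
  · exact RE.eq (Computable.list_append.comp (Computable.fst.comp ha') hs')
      (Computable.list_append.comp hU (Computable.fst.comp hb'))
  · exact RE.eq (Computable.list_append.comp ht' (Computable.snd.comp (Computable.snd.comp ha')))
      (Computable.list_append.comp (Computable.snd.comp (Computable.snd.comp hb')) Computable.snd)

theorem re_final {P : Set (ContextFreeRule B N)} (hP : P.Finite) {α : Type} [Primcodable α]
    {a : α → Item B N} {z : α → List B} (ha : Computable a) (hz : Computable z) :
    REPred fun x => Final P (a x) (z x) :=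
  re_gen hP (Computable.fst.comp (Computable.snd.comp ha))
    (Computable.list_append.comp (Computable.list_append.comp (Computable.fst.comp ha) hz)
      (Computable.snd.comp (Computable.snd.comp ha)))

/-- the assignment coded by a list -/
def fl {X Γ : Type} (idx : Option (X ⊕ Γ) → ℕ) (l : List (List B)) : Option (X ⊕ Γ) → List B :=
  fun y => l.getD (idx y) []

theorem comp_fl {X Γ α : Type} [Primcodable α] (idx : Option (X ⊕ Γ) → ℕ)
    {l : α → List (List B)} (hl : Computable l) (y : Option (X ⊕ Γ)) :
    Computable fun a => fl idx (l a) y :=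
  (Primrec.list_getD ([] : List B)).to_comp.comp hl (Computable.const (idx y))

theorem comp_rimg {X Γ α : Type} [Finite Γ] [Primcodable Γ] [Primcodable α]
    (idx : Option (X ⊕ Γ) → ℕ) {l : α → List (List B)} {w : α → List Γ}
    (hl : Computable l) (hw : Computable w) :
    Computable fun a => rimg (fl idx (l a)) (w a) := by
  have h1 : Primrec fun z : List (List B) × List Γ =>
      z.2.flatMap (fun c => z.1.getD (idx (some (Sum.inr c))) []) := by
    refine Primrec.list_flatMap Primrec.snd ?_
    have h2 : Primrec fun c : Γ => idx (some (Sum.inr c)) := Primrec.dom_finite _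
    exact (Primrec.list_getD ([] : List B)).comp (Primrec.fst.comp Primrec.fst)
      (h2.comp Primrec.snd)
  exact h1.to_comp.comp (hl.pair hw)

theorem re_cert {X Γ Q : Type} [Finite X] [Finite Γ] [Finite Q] [Primcodable Γ]
    [Primcodable Q] {P : Set (ContextFreeRule B N)} (hP : P.Finite) (S : N) (A : DFA X Q)
    (idx : Option (X ⊕ Γ) → ℕ) (φ : ℕ → X → List Γ) (hφ : ∀ a, Computable (fun n => φ n a))
    (E : List Γ) :
    REPred (fun z : ℕ × List (List B) => Cert P S A (fl idx z.2) (φ z.1) E) := by
  refine RE.ex (p := fun (z : ℕ × List (List B)) (F : List (Q × List (Item B N))) =>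
    (A.start, [([], S, [])]) ∈ F ∧
    (∀ c ∈ F, ∀ a : X, ∃ c' ∈ F, c'.1 = A.step c.1 a ∧
      ∀ b' ∈ c'.2, ∃ b ∈ c.2, Move P b b' (fl idx z.2 (some (Sum.inl a)))
        (rimg (fl idx z.2) (φ z.1 a).reverse)) ∧
    (∀ c ∈ F, c.1 ∈ A.accept → ∃ b ∈ c.2, Final P b (fl idx z.2 none ++
      rimg (fl idx z.2) E.reverse))) ?_
  refine RE.and (RE.mem_list (Computable.const _) Computable.snd) (RE.and ?_ ?_)
  · refine RE.all_mem (p := fun (z : (ℕ × List (List B)) × List (Q × List (Item B N)))
      (c : Q × List (Item B N)) => ∀ a : X, ∃ c' ∈ z.2, c'.1 = A.step c.1 a ∧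
      ∀ b' ∈ c'.2, ∃ b ∈ c.2, Move P b b' (fl idx z.1.2 (some (Sum.inl a)))
        (rimg (fl idx z.1.2) (φ z.1.1 a).reverse)) ?_ Computable.snd
    refine re_all_fin fun a => ?_
    refine RE.ex_mem (p := fun (z : ((ℕ × List (List B)) × List (Q × List (Item B N))) ×
      (Q × List (Item B N))) (c' : Q × List (Item B N)) => c'.1 = A.step z.2.1 a ∧
      ∀ b' ∈ c'.2, ∃ b ∈ z.2.2, Move P b b' (fl idx z.1.1.2 (some (Sum.inl a)))
        (rimg (fl idx z.1.1.2) (φ z.1.1.1 a).reverse)) ?_ (Computable.snd.comp Computable.fst)
    refine RE.and ?_ ?_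
    · have h1 : Computable fun q : Q => A.step q a := (Primrec.dom_finite _).to_comp
      exact RE.eq (Computable.fst.comp Computable.snd)
        (h1.comp (Computable.fst.comp (Computable.snd.comp Computable.fst)))
    · refine RE.all_mem (p := fun (z : (((ℕ × List (List B)) × List (Q × List (Item B N))) ×
        (Q × List (Item B N))) × (Q × List (Item B N))) (b' : Item B N) =>
        ∃ b ∈ z.1.2.2, Move P b b' (fl idx z.1.1.1.2 (some (Sum.inl a)))
        (rimg (fl idx z.1.1.1.2) (φ z.1.1.1.1 a).reverse)) ?_ (Computable.snd.comp Computable.snd)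
      refine RE.ex_mem (p := fun (z : ((((ℕ × List (List B)) × List (Q × List (Item B N))) ×
        (Q × List (Item B N))) × (Q × List (Item B N))) × Item B N) (b : Item B N) =>
        Move P b z.2 (fl idx z.1.1.1.1.2 (some (Sum.inl a)))
        (rimg (fl idx z.1.1.1.1.2) (φ z.1.1.1.1.1 a).reverse)) ?_
        (Computable.snd.comp (Computable.snd.comp (Computable.fst.comp Computable.fst)))
      have h0 : Computable fun z : (((((ℕ × List (List B)) × List (Q × List (Item B N))) ×
        (Q × List (Item B N))) × (Q × List (Item B N))) × Item B N) × Item B N =>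
          z.1.1.1.1.1 := Computable.fst.comp (Computable.fst.comp (Computable.fst.comp
            (Computable.fst.comp Computable.fst)))
      have hl := (Computable.snd.comp h0)
      have hn := (Computable.fst.comp h0)
      exact re_move hP Computable.snd (Computable.snd.comp Computable.fst)
        (comp_fl idx hl _) (comp_rimg idx hl (Computable.list_reverse.comp ((hφ a).comp hn)))
  · refine RE.all_mem (p := fun (z : (ℕ × List (List B)) × List (Q × List (Item B N)))
      (c : Q × List (Item B N)) => c.1 ∈ A.accept → ∃ b ∈ c.2, Final P b (fl idx z.1.2 none ++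
      rimg (fl idx z.1.2) E.reverse)) ?_ Computable.snd
    classical
    have h1 : REPred fun x : ((ℕ × List (List B)) × List (Q × List (Item B N))) ×
        (Q × List (Item B N)) => decide (x.2.1 ∉ A.accept) = true := by
      have h2 : Computable fun q : Q => decide (q ∉ A.accept) := (Primrec.dom_finite _).to_comp
      exact RE.of_bool (h2.comp (Computable.fst.comp Computable.snd))
    have h2 : REPred fun x : ((ℕ × List (List B)) × List (Q × List (Item B N))) ×
        (Q × List (Item B N)) => ∃ b ∈ x.2.2, Final P b (fl idx x.1.1.2 none ++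
          rimg (fl idx x.1.1.2) E.reverse) := by
      refine RE.ex_mem (p := fun (x : ((ℕ × List (List B)) × List (Q × List (Item B N))) ×
        (Q × List (Item B N))) (b : Item B N) => Final P b (fl idx x.1.1.2 none ++
          rimg (fl idx x.1.1.2) E.reverse)) ?_ (Computable.snd.comp Computable.snd)
      have hl : Computable fun x : (((ℕ × List (List B)) × List (Q × List (Item B N))) ×
        (Q × List (Item B N))) × Item B N => x.1.1.1.2 :=
        Computable.snd.comp (Computable.fst.comp (Computable.fst.comp Computable.fst))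
      exact re_final hP Computable.snd (Computable.list_append.comp (comp_fl idx hl _)
        (comp_rimg idx hl (Computable.const _)))
    refine (RE.or h1 h2).of_eq fun x => ?_
    rw [decide_eq_true_iff]
    constructor
    · rintro (h | h) h3
      · exact absurd h3 h
      · exact h
    · intro h
      by_cases h3 : x.2.1 ∈ A.accept
      · exact Or.inr (h h3)
      · exact Or.inl h3

theorem cert_re_aux {X Γ Q : Type} [Finite X] [Finite Γ] [Finite Q] [Primcodable Γ]
    [Primcodable Q] (P : Set (ContextFreeRule B N)) (hP : P.Finite) (S : N) (A : DFA X Q)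
    (φ0 : X → List Γ) (φ1 : ℕ → X → List Γ) (hφ : ∀ a, Computable (fun n => φ1 n a))
    (E0 E1 : List Γ) :
    REPred (fun n : ℕ => ∃ f : Option (X ⊕ Γ) → List B, (∀ y, f y ≠ []) ∧
      Cert P S A f φ0 E0 ∧ Cert P S A f (φ1 n) E1) := by
  obtain ⟨k, ⟨e⟩⟩ := Finite.exists_equiv_fin (Option (X ⊕ Γ))
  let idx : Option (X ⊕ Γ) → ℕ := fun y => (e y : ℕ)
  have h1 : REPred (fun n : ℕ => ∃ l : List (List B), (∀ y, fl idx l y ≠ []) ∧
      Cert P S A (fl idx l) φ0 E0 ∧ Cert P S A (fl idx l) (φ1 n) E1) := by
    refine RE.ex (p := fun (n : ℕ) (l : List (List B)) => (∀ y, fl idx l y ≠ []) ∧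
      Cert P S A (fl idx l) φ0 E0 ∧ Cert P S A (fl idx l) (φ1 n) E1) ?_
    refine RE.and (re_all_fin fun y => RE.ne (comp_fl idx Computable.snd y)
      (Computable.const [])) (RE.and ?_ ?_)
    · exact re_cert hP S A idx (fun _ => φ0) (fun a => Computable.const _) E0
    · exact re_cert hP S A idx φ1 hφ E1
  refine h1.of_eq fun n => ?_
  constructor
  · rintro ⟨l, hl⟩
    exact ⟨fl idx l, hl⟩
  · rintro ⟨f, hf⟩
    have h2 : f = fl idx (List.ofFn (fun i : Fin k => f (e.symm i))) := by
      funext y
      unfold fl
      rw [List.getD_eq_getElem _ _ (by simpa [idx] using (e y).2), List.getElem_ofFn]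
      simp [idx]
    rw [h2] at hf
    exact ⟨_, hf⟩

end coded

theorem cert_re {B N X Γ Q : Type} [Finite B] [Finite N] [Finite X] [Finite Γ] [Finite Q]
    [Primcodable Γ]
    (P : Set (ContextFreeRule B N)) (hP : P.Finite) (S : N) (A : DFA X Q)
    (φ0 : X → List Γ) (φ1 : ℕ → X → List Γ) (hφ : ∀ a, Computable (fun n => φ1 n a))
    (E0 E1 : List Γ) :
    REPred (fun n : ℕ => ∃ f : Option (X ⊕ Γ) → List B, (∀ y, f y ≠ []) ∧
      Cert P S A f φ0 E0 ∧ Cert P S A f (φ1 n) E1) := by
  obtain ⟨k1, ⟨e1⟩⟩ := Finite.exists_equiv_fin B
  obtain ⟨k2, ⟨e2⟩⟩ := Finite.exists_equiv_fin N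
  obtain ⟨k3, ⟨e3⟩⟩ := Finite.exists_equiv_fin Q
  letI : Primcodable B := Primcodable.ofEquiv (Fin k1) e1
  letI : Primcodable N := Primcodable.ofEquiv (Fin k2) e2
  letI : Primcodable Q := Primcodable.ofEquiv (Fin k3) e3
  exact cert_re_aux P hP S A φ0 φ1 hφ E0 E1

end Pool.Agent.Helper450.NP
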