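import Mathlib
import Pool.Agent.Helper450.NP.Univ

set_option autoImplicit false

namespace Pool.Agent.Helper450.NPM.G1

open Turing Relation Pool.Agent.Helper450.NPM.Queue Pool.Agent.Helper450.NPM.Univ
open Turing.PartrecToTM2 (trNat)

/-- A finite type can be primitively coded. -/
theorem exists_primcodable (S : Type) [Finite S] : Nonempty (Primcodable S) := by
  obtain ⟨k, ⟨e⟩⟩ := Finite.exists_equiv_fin S
  exact ⟨Primcodable.ofEquiv (Fin k) e⟩

theorem exists_queue : ∃ (S : Type) (_ : Finite S) (_ : Primcodable S) (P : S → S → List S)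
    (kill : S) (z0 : ℕ → List S) (H : ℕ → Prop),
    (∀ a b, 2 ≤ (P a b).length ∨ P a b = [kill]) ∧ Computable z0 ∧ (∀ n, 2 ≤ (z0 n).length) ∧
    (∀ n, QReach P (z0 n) [kill] ↔ H n) ∧ ¬ REPred (fun n => ¬ H n) := by
  obtain ⟨Λ, _, _, M, hM⟩ := exists_machine
  have : Finite (TM2to1.Γ' PartrecToTM2.K' (fun _ => PartrecToTM2.Γ')) := by
    have h1 : Finite PartrecToTM2.K' := by
      refine Finite.of_injective (fun k : PartrecToTM2.K' => match k with
        | .main => (0 : Fin 4) | .rev => 1 | .aux => 2 | .stack => 3) ?_
      intro a b h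
      cases a <;> cases b <;> simp_all
    unfold TM2to1.Γ'
    infer_instance
  obtain ⟨pc⟩ := exists_primcodable
    (Sym (TM2to1.Γ' PartrecToTM2.K' (fun _ => PartrecToTM2.Γ')) Λ)
  let inp : ℕ → List (TM2to1.Γ' PartrecToTM2.K' (fun _ => PartrecToTM2.Γ')) := fun n =>
    sym true .cons :: (trNat n).reverse.map (sym false)
  refine ⟨Sym (TM2to1.Γ' PartrecToTM2.K' (fun _ => PartrecToTM2.Γ')) Λ, inferInstance, pc,
    prod M, .kill, fun n => initWord (inp n), fun n => (u n).Dom, prod_length M, ?_,
    fun n => initWord_length _, fun n => ?_, ?_⟩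
  · -- computability
    have h1 := digits_computable (fun a => Encodable.encode
      (Sym.cell (sym false a) : Sym (TM2to1.Γ' PartrecToTM2.K' (fun _ => PartrecToTM2.Γ')) Λ))
    have h2 : Computable (fun n : ℕ => ((trNat n).map (fun a =>
        (Sym.cell (sym false a) :
          Sym (TM2to1.Γ' PartrecToTM2.K' (fun _ => PartrecToTM2.Γ')) Λ)))) := by
      have h3 : Primrec (fun l : List ℕ => l.filterMap (fun m => (Encodable.decode m :
          Option (Sym (TM2to1.Γ' PartrecToTM2.K' (fun _ => PartrecToTM2.Γ')) Λ)))) :=
        Primrec.listFilterMap Primrec.id (Primrec.decode.comp Primrec.snd)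
      refine (h3.to_comp.comp h1).of_eq fun n => ?_
      induction trNat n with
      | nil => rfl
      | cons a l ih => simp_all
    have h4 : Computable (fun n : ℕ => ((trNat n).map (fun a =>
        (Sym.cell (sym false a) :
          Sym (TM2to1.Γ' PartrecToTM2.K' (fun _ => PartrecToTM2.Γ')) Λ))).reverse) :=
      Primrec.list_reverse.to_comp.comp h2
    have h5 : Computable (fun n : ℕ => (trNat n).length) := by
      refine (Primrec.list_length.to_comp.comp h2).of_eq fun n => ?_
      simp
    refine (Computable.cond (c := fun n : ℕ => decide (((trNat n).length + 1) % 2 = 0))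
      (f := fun n : ℕ => .mark :: .head default (sym true .cons) ::
        ((trNat n).map (fun a => (Sym.cell (sym false a) :
          Sym (TM2to1.Γ' PartrecToTM2.K' (fun _ => PartrecToTM2.Γ')) Λ))).reverse)
      (g := fun n : ℕ => .mark :: .cell default :: .head default (sym true .cons) ::
        ((trNat n).map (fun a => (Sym.cell (sym false a) :
          Sym (TM2to1.Γ' PartrecToTM2.K' (fun _ => PartrecToTM2.Γ')) Λ))).reverse)
      ?_ ?_ ?_).of_eq fun n => ?_
    · have : Primrec (fun m : ℕ => decide ((m + 1) % 2 = 0)) :=
        (Primrec.eq.decide.comp (Primrec.nat_mod.comp Primrec.succ (Primrec.const 2))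
          (Primrec.const 0))
      exact this.to_comp.comp h5
    · exact Computable.list_cons.comp (Computable.const _)
        (Computable.list_cons.comp (Computable.const _) h4)
    · exact Computable.list_cons.comp (Computable.const _)
        (Computable.list_cons.comp (Computable.const _)
        (Computable.list_cons.comp (Computable.const _) h4))
    · simp only [initWord, inp, List.length_cons, List.length_map, List.length_reverse,
        List.headI_cons, List.tail_cons]
      by_cases h : ((trNat n).length + 1) % 2 = 0 <;> simp [h, List.map_reverse]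
  · rw [rep_halts M (rep_init (inp n) (by simp [inp])), hM]
  · intro hre
    classical
    apply u_not_computable
    rw [ComputablePred.computable_iff_re_compl_re]
    exact ⟨Partrec.dom_re u_partrec, hre⟩

end Pool.Agent.Helper450.NPM.G1
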