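import Mathlib
import Pool.Agent.Helper450.NP.Base

set_option autoImplicit false

/-!
Derivation trees of context-free grammars, unambiguous grammars, contexts, and the pair
languages used to show that the cylinder of unambiguous context-free languages is not principal.
-/

namespace Pool.Agent.Helper450.NP

variable {α N : Type}


/-- One step of the queue system with block productions `P`. -/
inductive QStep {S : Type} (P : S → S → List S) : List S → List S → Prop
  | mk (x y : S) (t : List S) : QStep P (x :: y :: t) (t ++ P x y)


/-- transition function -/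
def g2step {S : Type} : Option Bool → (S × S) ⊕ Option Bool → Option Bool
  | some false, .inr (some _) => some false
  | some false, .inr none => some true
  | some true, .inl _ => some true
  | _, _ => none

/-- the automaton -/
def g2A (S : Type) : DFA ((S × S) ⊕ Option Bool) (Option Bool) where
  step := g2step
  start := some false
  accept := {some true}

theorem g2_none {S : Type} (x : List ((S × S) ⊕ Option Bool)) :
    (g2A S).evalFrom none x = none := by
  induction x with
  | nil => rfl
  | cons a x ih =>
    have h : (g2A S).evalFrom none (a :: x) = (g2A S).evalFrom none x := by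
      show (g2A S).evalFrom ((g2A S).step none a) x = _
      rfl
    rw [h, ih]

theorem g2_one {S : Type} (x : List ((S × S) ⊕ Option Bool)) :
    (g2A S).evalFrom (some true) x = some true ↔ ∃ r : List (S × S), x = r.map Sum.inl := by
  induction x with
  | nil => exact ⟨fun _ => ⟨[], rfl⟩, fun _ => rfl⟩
  | cons a x ih =>
    rcases a with a | b
    · have h : (g2A S).evalFrom (some true) (Sum.inl a :: x) = (g2A S).evalFrom (some true) x := rfl
      rw [h, ih]
      constructor
      · rintro ⟨r, rfl⟩
        exact ⟨a :: r, rfl⟩
      · rintro ⟨r, hr⟩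
        cases r with
        | nil => simp at hr
        | cons c r =>
          simp only [List.map_cons, List.cons.injEq] at hr
          exact ⟨r, hr.2⟩
    · have h : (g2A S).evalFrom (some true) (Sum.inr b :: x) = (g2A S).evalFrom none x := rfl
      rw [h, g2_none]
      constructor
      · intro h; simp at h
      · rintro ⟨r, hr⟩
        cases r with
        | nil => simp at hr
        | cons c r => simp at hr

theorem g2_zero {S : Type} (x : List ((S × S) ⊕ Option Bool)) :
    (g2A S).evalFrom (some false) x = some true ↔ ∃ (y : List Bool) (r : List (S × S)),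
      x = y.map (fun b => Sum.inr (some b)) ++ Sum.inr none :: r.map Sum.inl := by
  induction x with
  | nil =>
    constructor
    · intro h
      have h' : (some false : Option Bool) = some true := h
      simp at h'
    · rintro ⟨y, r, h⟩
      simp at h
  | cons a x ih =>
    rcases a with a | (_ | b)
    · have h : (g2A S).evalFrom (some false) (Sum.inl a :: x) = (g2A S).evalFrom none x := rfl
      rw [h, g2_none]
      constructor
      · intro h; simp at h
      · rintro ⟨y, r, hr⟩
        cases y with
        | nil => simp at hr
        | cons c y => simp at hr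
    · have h : (g2A S).evalFrom (some false) (Sum.inr none :: x) =
        (g2A S).evalFrom (some true) x := rfl
      rw [h, g2_one]
      constructor
      · rintro ⟨r, rfl⟩
        exact ⟨[], r, rfl⟩
      · rintro ⟨y, r, hr⟩
        cases y with
        | nil =>
          simp only [List.map_nil, List.nil_append, List.cons.injEq, true_and] at hr
          exact ⟨r, hr⟩
        | cons c y => simp at hr
    · have h : (g2A S).evalFrom (some false) (Sum.inr (some b) :: x) =
        (g2A S).evalFrom (some false) x := rfl
      rw [h, ih]
      constructor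
      · rintro ⟨y, r, rfl⟩
        exact ⟨b :: y, r, rfl⟩
      · rintro ⟨y, r, hr⟩
        cases y with
        | nil => simp at hr
        | cons c y =>
          simp only [List.map_cons, List.cons_append, List.cons.injEq] at hr
          exact ⟨y, r, hr.2⟩

theorem g2_acc {S : Type} (x : List ((S × S) ⊕ Option Bool)) :
    x ∈ (g2A S).accepts ↔ ∃ (y : List Bool) (r : List (S × S)),
      x = y.map (fun b => Sum.inr (some b)) ++ Sum.inr none :: r.map Sum.inl :=
  g2_zero x

/-- embedding of symbols -/
def g2e {S : Type} (a : S) : Option (Option S) := some (some a)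

/-- first morphism -/
def g2f0 {S : Type} : (S × S) ⊕ Option Bool → List (Option (Option S))
  | .inl (a, b) => [g2e a, g2e b]
  | .inr none => [some none]
  | .inr (some false) => [none]
  | .inr (some true) => [none, none]

/-- second morphism -/
def g2f1 {S : Type} (P : S → S → List S) (z : List S) :
    (S × S) ⊕ Option Bool → List (Option (Option S))
  | .inl (a, b) => (P a b).map g2e
  | .inr none => some none :: z.map g2e
  | .inr (some false) => [none, none]
  | .inr (some true) => [none]

theorem g2_split {Γ : Type} (t : Γ) (l l' : List (Option Γ)) :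
    ∀ (u v : List (Option Γ)), (∀ a ∈ u, a = none) → (∀ a ∈ v, a = none) →
      u ++ some t :: l = v ++ some t :: l' → l = l' := by
  intro u
  induction u with
  | nil =>
    intro v _ hv h
    cases v with
    | nil => simpa using h
    | cons b v =>
      have := hv b (by simp)
      subst this
      simp at h
  | cons a u ih =>
    intro v hu hv h
    have ha := hu a (by simp)
    subst ha
    cases v with
    | nil => simp at h
    | cons b v =>
      simp only [List.cons_append, List.cons.injEq] at h
      exact ih v (fun c hc => hu c (by simp [hc])) (fun c hc => hv c (by simp [hc])) h.2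

theorem g2_c0 {S : Type} (y : List Bool) :
    ∀ a ∈ (y.map (fun b => (Sum.inr (some b) : (S × S) ⊕ Option Bool))).flatMap g2f0,
      a = none := by
  intro a ha
  simp only [List.mem_flatMap, List.mem_map] at ha
  obtain ⟨x, ⟨b, -, rfl⟩, hx⟩ := ha
  cases b <;> simp [g2f0] at hx <;> exact hx

theorem g2_c1 {S : Type} (P : S → S → List S) (z : List S) (y : List Bool) :
    ∀ a ∈ (y.map (fun b => (Sum.inr (some b) : (S × S) ⊕ Option Bool))).flatMap (g2f1 P z),
      a = none := by
  intro a ha
  simp only [List.mem_flatMap, List.mem_map] at ha
  obtain ⟨x, ⟨b, -, rfl⟩, hx⟩ := ha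
  cases b <;> simp [g2f1] at hx <;> exact hx

theorem g2_r0 {S : Type} (r : List (S × S)) :
    (r.map (Sum.inl : S × S → (S × S) ⊕ Option Bool)).flatMap g2f0 =
      (r.flatMap (fun p => [p.1, p.2])).map g2e := by
  induction r with
  | nil => rfl
  | cons p r ih =>
    rw [List.map_cons, List.flatMap_cons, ih, List.flatMap_cons, List.map_append]
    rfl

theorem g2_r1 {S : Type} (P : S → S → List S) (z : List S) (r : List (S × S)) :
    (r.map (Sum.inl : S × S → (S × S) ⊕ Option Bool)).flatMap (g2f1 P z) =
      (r.flatMap (fun p => P p.1 p.2)).map g2e := by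
  induction r with
  | nil => rfl
  | cons p r ih =>
    rw [List.map_cons, List.flatMap_cons, ih, List.flatMap_cons, List.map_append]
    rfl

theorem g2_inj {S : Type} : Function.Injective (g2e : S → Option (Option S)) := by
  intro a b h
  simpa [g2e] using h

theorem g2_out0 {S : Type} (kill : S) (y : List Bool) (r : List (S × S)) :
    out g2f0 [g2e kill] (y.map (fun b => (Sum.inr (some b) : (S × S) ⊕ Option Bool)) ++
      Sum.inr none :: r.map Sum.inl) =
      (y.map (fun b => (Sum.inr (some b) : (S × S) ⊕ Option Bool))).flatMap g2f0 ++
        some none :: (r.flatMap (fun p => [p.1, p.2]) ++ [kill]).map g2e := by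
  unfold out
  rw [List.flatMap_append, List.flatMap_cons, g2_r0, List.map_append]
  simp [g2f0]

theorem g2_out1 {S : Type} (P : S → S → List S) (z : List S) (y : List Bool)
    (r : List (S × S)) :
    out (g2f1 P z) [] (y.map (fun b => (Sum.inr (some b) : (S × S) ⊕ Option Bool)) ++
      Sum.inr none :: r.map Sum.inl) =
      (y.map (fun b => (Sum.inr (some b) : (S × S) ⊕ Option Bool))).flatMap (g2f1 P z) ++
        some none :: (z ++ r.flatMap (fun p => P p.1 p.2)).map g2e := by
  unfold out
  rw [List.flatMap_append, List.flatMap_cons, g2_r1, List.map_append]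
  simp [g2f1]

theorem g2_back {S : Type} (P : S → S → List S) (kill : S)
    (hP : ∀ a b, 2 ≤ (P a b).length ∨ P a b = [kill]) :
    ∀ (r : List (S × S)) (z : List S), 2 ≤ z.length →
      r.flatMap (fun p => [p.1, p.2]) ++ [kill] = z ++ r.flatMap (fun p => P p.1 p.2) →
      Relation.ReflTransGen (QStep P) z [kill] := by
  intro r
  induction r with
  | nil =>
    intro z hz h
    simp only [List.flatMap_nil, List.nil_append, List.append_nil] at h
    rw [← h] at hz
    simp at hz
  | cons p r ih =>
    intro z hz h
    obtain ⟨a, b⟩ := p
    match z, hz with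
    | x :: y :: z', _ =>
      simp only [List.flatMap_cons, List.cons_append, List.nil_append, List.cons.injEq] at h
      obtain ⟨rfl, rfl, h⟩ := h
      refine Relation.ReflTransGen.head (QStep.mk a b z') ?_
      by_cases h2 : 2 ≤ (z' ++ P a b).length
      · apply ih _ h2
        rw [h, List.append_assoc]
      · rcases hP a b with h3 | h3
        · exfalso
          apply h2
          rw [List.length_append]
          omega
        · have h4 : z' = [] := by
            rw [h3, List.length_append] at h2
            simp only [List.length_cons, List.length_nil] at h2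
            exact List.length_eq_zero_iff.1 (by omega)
          rw [h3, h4]
          exact Relation.ReflTransGen.refl

theorem g2_forth {S : Type} (P : S → S → List S) (kill : S) (z : List S)
    (h : Relation.ReflTransGen (QStep P) z [kill]) :
    ∃ r : List (S × S),
      r.flatMap (fun p => [p.1, p.2]) ++ [kill] = z ++ r.flatMap (fun p => P p.1 p.2) := by
  induction h using Relation.ReflTransGen.head_induction_on with
  | refl => exact ⟨[], rfl⟩
  | head h1 _ ih =>
    obtain ⟨r, hr⟩ := ih
    cases h1 with
    | mk x y t =>
      refine ⟨(x, y) :: r, ?_⟩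
      simp only [List.flatMap_cons, List.cons_append, List.nil_append]
      rw [hr, List.append_assoc]

theorem g2_rep {S : Type} (P : S → S → List S) (z : List S) (C : ℕ) :
    (((List.replicate C false ++ List.replicate C true).map
      (fun b => (Sum.inr (some b) : (S × S) ⊕ Option Bool))).flatMap g2f0) =
    (((List.replicate C false ++ List.replicate C true).map
      (fun b => (Sum.inr (some b) : (S × S) ⊕ Option Bool))).flatMap (g2f1 P z)) := by
  have h0 : ∀ l : List (Option (Option S)), (∀ a ∈ l, a = none) →
      l = List.replicate l.length none := fun l hl => List.eq_replicate_of_mem hl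
  rw [h0 _ (g2_c0 _), h0 _ (g2_c1 P z _)]
  congr 1
  have h1 : ∀ (C : ℕ) (b : Bool), ((List.replicate C b).map
      (fun b => (Sum.inr (some b) : (S × S) ⊕ Option Bool))).flatMap (g2f0 (S := S)) =
      (List.replicate C ()).flatMap (fun _ => g2f0 (Sum.inr (some b))) := by
    intro C b
    induction C with
    | zero => rfl
    | succ C ih => simp only [List.replicate_succ, List.map_cons, List.flatMap_cons, ih]
  simp [g2f0, g2f1, List.length_flatMap]
  ring

theorem machine_of_queue {S : Type} [Finite S] [Primcodable S] (P : S → S → List S) (kill : S)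
    (z0 : ℕ → List S) (H : ℕ → Prop)
    (hP : ∀ a b, 2 ≤ (P a b).length ∨ P a b = [kill]) (hz : Computable z0)
    (hz2 : ∀ n, 2 ≤ (z0 n).length)
    (hH : ∀ n, Relation.ReflTransGen (QStep P) (z0 n) [kill] ↔ H n)
    (hre : ¬ REPred fun n => ¬ H n) :
    ∃ (Γ X Q : Type) (_ : Finite Γ) (_ : Finite X) (_ : Finite Q) (_ : Primcodable Γ)
      (A : DFA X Q) (φ0 : X → List Γ) (φ1 : ℕ → X → List Γ) (E0 E1 : List Γ) (H : ℕ → Prop),
      (∀ a, φ0 a ≠ []) ∧ (∀ n a, φ1 n a ≠ []) ∧ (∀ a, Computable (fun n => φ1 n a)) ∧
      (¬ REPred (fun n => ¬ H n)) ∧
      (∀ n, (∃ x ∈ A.accepts, out φ0 E0 x = out (φ1 n) E1 x) → H n) ∧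
      (∀ n, H n → ∀ C : ℕ, ∃ x ∈ A.accepts, out φ0 E0 x = out (φ1 n) E1 x ∧
        ∃ p s, x = p ++ s ∧ (p.flatMap φ0).length + C ≤ (p.flatMap (φ1 n)).length) := by
  refine ⟨Option (Option S), (S × S) ⊕ Option Bool, Option Bool, inferInstance, inferInstance,
    inferInstance, inferInstance, g2A S, g2f0, fun n => g2f1 P (z0 n), [g2e kill], [], H,
    ?_, ?_, ?_, hre, ?_, ?_⟩
  · rintro (⟨a, b⟩ | (_ | (_ | _))) <;> simp [g2f0]
  · rintro n (⟨a, b⟩ | (_ | (_ | _)))
    · simp only [g2f1, ne_eq, List.map_eq_nil_iff]
      intro h
      rcases hP a b with h1 | h1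
      · rw [h] at h1; simp at h1
      · rw [h] at h1; simp at h1
    · simp [g2f1]
    · simp [g2f1]
    · simp [g2f1]
  · rintro (⟨a, b⟩ | (_ | (_ | _)))
    · exact Computable.const _
    · have h1 : Primrec (fun l : List S => l.map (g2e (S := S))) := by
        refine Primrec.list_map Primrec.id ?_
        exact (Primrec.option_some.comp (Primrec.option_some.comp Primrec.snd))
      exact (Primrec.list_cons.to_comp).comp (Computable.const _) (h1.to_comp.comp hz)
    · exact Computable.const _
    · exact Computable.const _
  · rintro n ⟨x, hx, h⟩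
    obtain ⟨y, r, rfl⟩ := (g2_acc x).1 hx
    rw [g2_out0, g2_out1] at h
    have h1 := g2_split _ _ _ _ _ (g2_c0 y) (g2_c1 P (z0 n) y) h
    have h2 := List.map_injective_iff.2 g2_inj h1
    exact (hH n).1 (g2_back P kill hP r (z0 n) (hz2 n) h2)
  · intro n hn C
    obtain ⟨r, hr⟩ := g2_forth P kill (z0 n) ((hH n).2 hn)
    refine ⟨_, (g2_acc _).2 ⟨List.replicate C false ++ List.replicate C true, r, rfl⟩, ?_, ?_⟩
    · rw [g2_out0, g2_out1, hr, g2_rep P (z0 n) C]
    · refine ⟨(List.replicate C false).map (fun b => Sum.inr (some b)),
        (List.replicate C true).map (fun b => Sum.inr (some b)) ++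
          Sum.inr none :: r.map Sum.inl, ?_, ?_⟩
      · rw [List.map_append, List.append_assoc]
      · simp [g2f0, g2f1, List.length_flatMap]
        omega

end Pool.Agent.Helper450.NP
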