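import Mathlib
import Pool.Agent.Helper450.NP.Base

set_option autoImplicit false

/-!
Derivation trees of context-free grammars, unambiguous grammars, contexts, and the pair
languages used to show that the cylinder of unambiguous context-free languages is not principal.
-/

namespace Pool.Agent.Helper450.NP

variable {α N : Type}


/-- map a symbol along a map of nonterminals -/
def auxS {M : Type} (i : M → N) : Symbol α M → Symbol α N
  | .terminal a => .terminal a
  | .nonterminal A => .nonterminal (i A)

theorem auxS_inj {M : Type} {i : M → N} (hi : Function.Injective i) :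
    Function.Injective (auxS (α := α) i) := by
  intro x y h
  cases x with
  | terminal a =>
    cases y with
    | terminal b =>
      simp only [auxS, Symbol.terminal.injEq] at h
      rw [h]
    | nonterminal B => simp [auxS] at h
  | nonterminal A =>
    cases y with
    | terminal b => simp [auxS] at h
    | nonterminal B =>
      simp only [auxS, Symbol.nonterminal.injEq] at h
      rw [hi h]

/-- map a rule along a map of nonterminals -/
def auxR {M : Type} (i : M → N) (r : ContextFreeRule α M) : ContextFreeRule α N :=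
  ⟨i r.input, r.output.map (auxS i)⟩

theorem auxR_inj {M : Type} {i : M → N} (hi : Function.Injective i) :
    Function.Injective (auxR (α := α) i) := by
  intro x y h
  unfold auxR at h
  rw [ContextFreeRule.mk.injEq] at h
  obtain ⟨h1, h2⟩ := h
  have h3 := hi h1
  have h4 := (auxS_inj (α := α) hi).list_map h2
  cases x
  cases y
  simp_all

/-- map a forest along a map of nonterminals -/
def auxT {M : Type} (i : M → N) : T α M → T α N
  | .nil => .nil
  | .tm a f => .tm a (auxT i f)
  | .nd r t f => .nd (auxR i r) (auxT i t) (auxT i f)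

theorem auxT_inj {M : Type} {i : M → N} (hi : Function.Injective i) :
    Function.Injective (auxT (α := α) i) := by
  intro x
  induction x with
  | nil =>
    intro y h
    cases y with
    | nil => rfl
    | tm b g => simp [auxT] at h
    | nd r t g => simp [auxT] at h
  | tm a f ih =>
    intro y h
    cases y with
    | nil => simp [auxT] at h
    | tm b g =>
      simp only [auxT, T.tm.injEq] at h
      rw [h.1, ih h.2]
    | nd r t g => simp [auxT] at h
  | nd r t f iht ihf =>
    intro y h
    cases y with
    | nil => simp [auxT] at h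
    | tm b g => simp [auxT] at h
    | nd r' t' g =>
      simp only [auxT, T.nd.injEq] at h
      rw [auxR_inj hi h.1, iht h.2.1, ihf h.2.2]

theorem auxT_yield {M : Type} (i : M → N) (t : T α M) : (auxT i t).yield = t.yield := by
  induction t with
  | nil => rfl
  | tm a f ih => simp [auxT, T.yield, ih]
  | nd r t f iht ihf => simp [auxT, T.yield, iht, ihf]

theorem auxT_ok {M : Type} (i : M → N) (P : Set (ContextFreeRule α N)) {t : T α M}
    {s : List (Symbol α M)} (h : Ok {r | auxR i r ∈ P} t s) : Ok P (auxT i t) (s.map (auxS i)) := by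
  induction h with
  | nil => exact Ok.nil
  | tm a f s _ ih => exact Ok.tm a _ _ ih
  | nd r t f s hr _ _ iht ihf => exact Ok.nd (auxR i r) _ _ _ hr iht ihf

theorem auxS_lift {Z : Set N} (l : List (Symbol α N)) (h : ∀ X, Symbol.nonterminal X ∈ l → X ∈ Z) :
    ∃ l' : List (Symbol α Z), l'.map (auxS (Subtype.val : Z → N)) = l := by
  induction l with
  | nil => exact ⟨[], rfl⟩
  | cons x l ih =>
    obtain ⟨l', hl'⟩ := ih (fun X hX => h X (List.mem_cons_of_mem _ hX))
    cases x with
    | terminal a => exact ⟨.terminal a :: l', by simp [auxS, hl']⟩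
    | nonterminal A =>
      have hA : A ∈ Z := h A (by simp)
      exact ⟨.nonterminal ⟨A, hA⟩ :: l', by simp [auxS, hl']⟩

theorem auxT_lift {Z : Set N} (P : Set (ContextFreeRule α N))
    (hZ : ∀ r ∈ P, ∀ X, Symbol.nonterminal X ∈ r.output → X ∈ Z) {t : T α N}
    {s : List (Symbol α N)} (h : Ok P t s) :
    ∀ s' : List (Symbol α Z), s'.map (auxS (Subtype.val : Z → N)) = s →
      ∃ t' : T α Z, auxT Subtype.val t' = t ∧ Ok {r | auxR Subtype.val r ∈ P} t' s' := by
  induction h with
  | nil =>
    intro s' hs'
    rw [List.map_eq_nil_iff] at hs'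
    subst hs'
    exact ⟨.nil, rfl, Ok.nil⟩
  | tm a f s _ ih =>
    intro s' hs'
    rw [List.map_eq_cons_iff] at hs'
    obtain ⟨x, s'', rfl, hx, hs''⟩ := hs'
    obtain ⟨f', hf1, hf2⟩ := ih s'' hs''
    cases x with
    | terminal b =>
      simp only [auxS, Symbol.terminal.injEq] at hx
      subst hx
      exact ⟨.tm b f', by simp [auxT, hf1], Ok.tm _ _ _ hf2⟩
    | nonterminal A => simp [auxS] at hx
  | nd r t f s hr _ _ iht ihf =>
    intro s' hs'
    rw [List.map_eq_cons_iff] at hs'
    obtain ⟨x, s'', rfl, hx, hs''⟩ := hs'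
    obtain ⟨f', hf1, hf2⟩ := ihf s'' hs''
    obtain ⟨o', ho'⟩ := auxS_lift r.output (hZ r hr)
    obtain ⟨t', ht1, ht2⟩ := iht o' ho'
    cases x with
    | terminal b => simp [auxS] at hx
    | nonterminal A =>
      simp only [auxS, Symbol.nonterminal.injEq] at hx
      have hr' : auxR (Subtype.val : Z → N) ⟨A, o'⟩ = r := by
        unfold auxR
        simp only [ho', hx]
      refine ⟨.nd ⟨A, o'⟩ t' f', ?_, ?_⟩
      · simp only [auxT, hr', ht1, hf1]
      · exact Ok.nd ⟨A, o'⟩ t' f' s'' (by show auxR _ _ ∈ P; rw [hr']; exact hr) ht2 hf2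

theorem ucfl_of_grammar {α N : Type} (S : N) (P : Set (ContextFreeRule α N)) (hP : P.Finite)
    (L : Language α) (hL : ∀ w, w ∈ L ↔ Gen P [.nonterminal S] w) (hU : Una P S) : UCFL L := by
  classical
  let Z : Set N := {S} ∪ ⋃ r ∈ P, {X | Symbol.nonterminal X ∈ r.output}
  have hSZ : S ∈ Z := Or.inl rfl
  have hZf : Z.Finite := by
    refine (Set.finite_singleton S).union (hP.biUnion (fun r _ => ?_))
    have h1 : {x | x ∈ r.output}.Finite := List.finite_toSet r.output
    have h2 := h1.preimage (f := fun X : N => (Symbol.nonterminal X : Symbol α N))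
      (fun a _ b _ h => by simpa using h)
    exact h2
  have hZ : ∀ r ∈ P, ∀ X, Symbol.nonterminal X ∈ r.output → X ∈ Z := by
    intro r hr X hX
    refine Or.inr ?_
    simp only [Set.mem_iUnion]
    exact ⟨r, hr, hX⟩
  have hinj : Function.Injective (Subtype.val : Z → N) := Subtype.val_injective
  have hmapS : [Symbol.nonterminal (⟨S, hSZ⟩ : Z)].map (auxS (α := α) (Subtype.val : Z → N)) =
      [.nonterminal S] := rfl
  refine ⟨Z, hZf.to_subtype, ⟨S, hSZ⟩, {r | auxR Subtype.val r ∈ P}, ?_, ?_, ?_⟩
  · exact hP.preimage ((auxR_inj hinj).injOn)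
  · intro w
    rw [hL]
    constructor
    · rintro ⟨t, ht, hw⟩
      obtain ⟨t', h1, h2⟩ := auxT_lift P hZ ht _ hmapS
      refine ⟨t', h2, ?_⟩
      rw [← hw, ← h1, auxT_yield]
    · rintro ⟨t, ht, hw⟩
      refine ⟨auxT Subtype.val t, ?_, ?_⟩
      · have := auxT_ok Subtype.val P ht
        rwa [hmapS] at this
      · rw [auxT_yield, hw]
  · intro t t' ht ht' hy
    apply auxT_inj hinj
    apply hU
    · have := auxT_ok Subtype.val P ht
      rwa [hmapS] at this
    · have := auxT_ok Subtype.val P ht'
      rwa [hmapS] at this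
    · rw [auxT_yield, auxT_yield, hy]


end Pool.Agent.Helper450.NP
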