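import Mathlib
import Pool.Agent.Helper450.NP.Base

set_option autoImplicit false

/-!
Derivation trees of context-free grammars, unambiguous grammars, contexts, and the pair
languages used to show that the cylinder of unambiguous context-free languages is not principal.
-/

namespace Pool.Agent.Helper450.NP

variable {α N : Type}


/-- leftmost derivations with the list of rules -/
inductive Der (P : Set (ContextFreeRule α N)) :
    List (Symbol α N) → List α → List (ContextFreeRule α N) → Prop
  | nil : Der P [] [] []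
  | tm (a : α) (s : List (Symbol α N)) (w : List α) (l : List (ContextFreeRule α N)) :
      Der P s w l → Der P (.terminal a :: s) (a :: w) l
  | nt (r : ContextFreeRule α N) (s : List (Symbol α N)) (w : List α)
      (l : List (ContextFreeRule α N)) :
      r ∈ P → Der P (r.output ++ s) w l → Der P (.nonterminal r.input :: s) w (r :: l)

theorem Ok.der {P : Set (ContextFreeRule α N)} {t : T α N} {s : List (Symbol α N)} (h : Ok P t s) :
    ∀ (s' : List (Symbol α N)) (w : List α) (l : List (ContextFreeRule α N)), Der P s' w l →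
      Der P (s ++ s') (t.yield ++ w) (t.rules ++ l) := by
  induction h with
  | nil => intro s' w l h; simpa [T.yield, T.rules] using h
  | tm a f s _ ih =>
    intro s' w l h
    exact Der.tm _ _ _ _ (ih s' w l h)
  | nd r t f s hr _ _ iht ihf =>
    intro s' w l h
    have h1 := iht (s ++ s') (f.yield ++ w) (f.rules ++ l) (ihf s' w l h)
    have h2 := Der.nt r (s ++ s') _ _ hr h1
    simpa [T.yield, T.rules, List.append_assoc] using h2

theorem Ok.inv_nt {P : Set (ContextFreeRule α N)} {t : T α N} {A : N} {s : List (Symbol α N)}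
    (h : Ok P t (.nonterminal A :: s)) :
    ∃ (r : ContextFreeRule α N) (c f : T α N), t = .nd r c f ∧ r.input = A ∧ r ∈ P ∧
      Ok P c r.output ∧ Ok P f s := by
  generalize hx : (Symbol.nonterminal A :: s : List (Symbol α N)) = x at h
  cases h with
  | nil => simp at hx
  | tm a f s' h' => simp at hx
  | nd r c f s' hr hc hf =>
    rw [List.cons.injEq, Symbol.nonterminal.injEq] at hx
    obtain ⟨h1, h2⟩ := hx
    subst h2
    exact ⟨r, c, f, rfl, h1.symm, hr, hc, hf⟩

theorem Ok.inv_tm {P : Set (ContextFreeRule α N)} {t : T α N} {a : α} {s : List (Symbol α N)}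
    (h : Ok P t (.terminal a :: s)) : ∃ f : T α N, t = .tm a f ∧ Ok P f s := by
  generalize hx : (Symbol.terminal a :: s : List (Symbol α N)) = x at h
  cases h with
  | nil => simp at hx
  | tm a' f s' h' =>
    rw [List.cons.injEq, Symbol.terminal.injEq] at hx
    obtain ⟨h1, h2⟩ := hx
    subst h1
    subst h2
    exact ⟨f, rfl, h'⟩
  | nd r c f s' hr hc hf => simp at hx

theorem Ok.inv_nil {P : Set (ContextFreeRule α N)} {t : T α N}
    (h : Ok P t ([] : List (Symbol α N))) : t = .nil := by
  generalize hx : ([] : List (Symbol α N)) = x at h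
  cases h with
  | nil => rfl
  | tm a' f s' h' => simp at hx
  | nd r c f s' hr hc hf => simp at hx

theorem Ok.split_j1b {P : Set (ContextFreeRule α N)} (s1 s2 : List (Symbol α N)) :
    ∀ t : T α N, Ok P t (s1 ++ s2) → ∃ t1 t2 : T α N, Ok P t1 s1 ∧ Ok P t2 s2 ∧
      t.yield = t1.yield ++ t2.yield ∧ t.rules = t1.rules ++ t2.rules := by
  induction s1 with
  | nil => intro t h; exact ⟨.nil, t, Ok.nil, h, rfl, rfl⟩
  | cons x s1 ih =>
    intro t h
    cases x with
    | terminal a =>
      obtain ⟨f, rfl, hf⟩ := Ok.inv_tm h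
      obtain ⟨t1, t2, h1, h2, h3, h4⟩ := ih f hf
      exact ⟨.tm a t1, t2, Ok.tm _ _ _ h1, h2, by simp [T.yield, h3], by simp [T.rules, h4]⟩
    | nonterminal A =>
      obtain ⟨r, c, f, rfl, rfl, hr, hc, hf⟩ := Ok.inv_nt h
      obtain ⟨t1, t2, h1, h2, h3, h4⟩ := ih f hf
      exact ⟨.nd r c t1, t2, Ok.nd _ _ _ _ hr hc h1, h2, by simp [T.yield, h3],
        by simp [T.rules, h4]⟩

theorem Der.tree {P : Set (ContextFreeRule α N)} {s : List (Symbol α N)} {w : List α}
    {l : List (ContextFreeRule α N)} (h : Der P s w l) :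
    ∃ t : T α N, Ok P t s ∧ t.yield = w ∧ t.rules = l := by
  induction h with
  | nil => exact ⟨.nil, Ok.nil, rfl, rfl⟩
  | tm a s w l _ ih =>
    obtain ⟨t, h1, h2, h3⟩ := ih
    exact ⟨.tm a t, Ok.tm _ _ _ h1, by simp [T.yield, h2], by simp [T.rules, h3]⟩
  | nt r s w l hr _ ih =>
    obtain ⟨t, h1, h2, h3⟩ := ih
    obtain ⟨t1, t2, k1, k2, k3, k4⟩ := Ok.split_j1b _ _ t h1
    exact ⟨.nd r t1 t2, Ok.nd _ _ _ _ hr k1 k2, by simp [T.yield, ← h2, k3],
      by simp [T.rules, ← h3, k4]⟩

theorem Ok.inj {P : Set (ContextFreeRule α N)} {t : T α N} {s : List (Symbol α N)} (h : Ok P t s) :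
    ∀ (t' : T α N) (l l' : List (ContextFreeRule α N)), Ok P t' s →
      t.rules ++ l = t'.rules ++ l' → t = t' ∧ l = l' := by
  induction h with
  | nil =>
    intro t' l l' h' he
    have h1 := Ok.inv_nil h'
    subst h1
    exact ⟨rfl, he⟩
  | tm a f s _ ih =>
    intro t' l l' h' he
    obtain ⟨f', rfl, hf'⟩ := Ok.inv_tm h'
    obtain ⟨h1, h2⟩ := ih f' l l' hf' he
    exact ⟨by rw [h1], h2⟩
  | nd r t f s hr _ _ iht ihf =>
    intro t' l l' h' he
    obtain ⟨r', c', f', rfl, hr', _, hc', hf'⟩ := Ok.inv_nt h'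
    simp only [T.rules, List.cons_append, List.append_assoc, List.cons.injEq] at he
    obtain ⟨h1, h2⟩ := he
    subst h1
    obtain ⟨h3, h4⟩ := iht c' _ _ hc' h2
    obtain ⟨h5, h6⟩ := ihf f' _ _ hf' h4
    exact ⟨by rw [h3, h5], h6⟩

theorem term_inj : Function.Injective (Symbol.terminal : α → Symbol α N) := by
  intro a b h
  exact Symbol.terminal.inj h

theorem Der.terms {P : Set (ContextFreeRule α N)} (u : List α) {s : List (Symbol α N)} {w : List α}
    {l : List (ContextFreeRule α N)} (h : Der P s w l) :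
    Der P (u.map Symbol.terminal ++ s) (u ++ w) l := by
  induction u with
  | nil => exact h
  | cons a u ih => exact Der.tm _ _ _ _ ih

theorem split_nt (u0 : List α) : ∀ (u : List α) (A : N) (v s : List (Symbol α N)),
    u.map Symbol.terminal ++ Symbol.nonterminal A :: v = u0.map Symbol.terminal ++ s →
    ∃ u' : List α, u = u0 ++ u' ∧ s = u'.map Symbol.terminal ++ Symbol.nonterminal A :: v := by
  induction u0 with
  | nil => intro u A v s h; exact ⟨u, rfl, h.symm⟩
  | cons a u0 ih =>
    intro u A v s h
    cases u with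
    | nil => simp at h
    | cons b u =>
      simp only [List.map_cons, List.cons_append, List.cons.injEq, Symbol.terminal.injEq] at h
      obtain ⟨h1, h2⟩ := h
      obtain ⟨u', h3, h4⟩ := ih u A v s h2
      exact ⟨u', by rw [h3, h1]; rfl, h4⟩

theorem seq_der {P : Set (ContextFreeRule α N)} (w : List α) (n : ℕ) :
    ∀ (u0 : List α) (s : List (Symbol α N)) (rs : ℕ → ContextFreeRule α N)
      (ss : ℕ → List (Symbol α N)), ss 0 = u0.map Symbol.terminal ++ s →
      ss n = w.map Symbol.terminal →
      (∀ i < n, rs i ∈ P ∧ ∃ (u : List α) (v : List (Symbol α N)),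
        ss i = u.map Symbol.terminal ++ Symbol.nonterminal (rs i).input :: v ∧
        ss (i + 1) = u.map Symbol.terminal ++ (rs i).output ++ v) →
      ∃ w', w = u0 ++ w' ∧ Der P s w' ((List.range n).map rs) := by
  induction n with
  | zero =>
    intro u0 s rs ss h0 hn _
    rw [h0] at hn
    obtain ⟨l₁, l₂, h1, h2, h3⟩ := List.map_eq_append_iff.1 hn.symm
    have h4 : l₁ = u0 := List.map_injective_iff.2 term_inj h2
    subst h4
    subst h3
    refine ⟨l₂, h1, ?_⟩
    have h5 := Der.terms (P := P) (N := N) l₂ Der.nil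
    simpa using h5
  | succ n ih =>
    intro u0 s rs ss h0 hn hs
    obtain ⟨hr, u, v, h1, h2⟩ := hs 0 (Nat.succ_pos n)
    rw [h0] at h1
    obtain ⟨u', h3, h4⟩ := split_nt u0 u _ v s h1.symm
    obtain ⟨w'', h5, h6⟩ := ih (u0 ++ u') ((rs 0).output ++ v) (fun i => rs (i + 1))
      (fun i => ss (i + 1)) (by rw [← h3, ← List.append_assoc]; exact h2) hn
      (fun i hi => hs (i + 1) (Nat.succ_lt_succ hi))
    refine ⟨u' ++ w'', by rw [h5, List.append_assoc], ?_⟩
    rw [h4, List.range_succ_eq_map, List.map_cons, List.map_map]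
    exact Der.terms u' (Der.nt (rs 0) v w'' _ hr h6)

theorem Der.seq {P : Set (ContextFreeRule α N)} {s : List (Symbol α N)} {w : List α}
    {l : List (ContextFreeRule α N)} (h : Der P s w l) :
    ∀ (u0 : List α) (rs : ℕ → ContextFreeRule α N), (∀ i (hi : i < l.length), rs i = l[i]) →
      ∃ ss : ℕ → List (Symbol α N), ss 0 = u0.map Symbol.terminal ++ s ∧
        ss l.length = (u0 ++ w).map Symbol.terminal ∧
        ∀ i < l.length, rs i ∈ P ∧ ∃ (u : List α) (v : List (Symbol α N)),
          ss i = u.map Symbol.terminal ++ Symbol.nonterminal (rs i).input :: v ∧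
          ss (i + 1) = u.map Symbol.terminal ++ (rs i).output ++ v := by
  induction h with
  | nil =>
    intro u0 rs _
    exact ⟨fun _ => u0.map Symbol.terminal, by simp, by simp, fun i hi => by simp at hi⟩
  | tm a s w l _ ih =>
    intro u0 rs hrs
    obtain ⟨ss, h1, h2, h3⟩ := ih (u0 ++ [a]) rs hrs
    exact ⟨ss, by rw [h1]; simp, by rw [h2]; simp, h3⟩
  | nt r s w l hr _ ih =>
    intro u0 rs hrs
    obtain ⟨ss, h1, h2, h3⟩ := ih u0 (fun i => rs (i + 1)) (fun i hi => by
      have := hrs (i + 1) (by simpa using hi)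
      simpa using this)
    have h0 : rs 0 = r := hrs 0 (by simp)
    refine ⟨fun i => Nat.casesOn i (u0.map Symbol.terminal ++ Symbol.nonterminal r.input :: s) ss,
      rfl, h2, ?_⟩
    intro i hi
    cases i with
    | zero =>
      refine ⟨by rw [h0]; exact hr, u0, s, by rw [h0]; rfl, ?_⟩
      rw [h0]
      show ss 0 = _
      rw [h1, List.append_assoc]
    | succ i => exact h3 i (by simpa using hi)

theorem range_getD (l : List (ContextFreeRule α N)) (d : ContextFreeRule α N) :
    (List.range l.length).map (fun i => l.getD i d) = l := by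
  apply List.ext_getElem
  · simp
  · intro i h1 h2
    simp [h2]

theorem bridge_core (LD : ∀ (α N : Type), N → Finset (ContextFreeRule α N) → List α → ℕ →
      (ℕ → ContextFreeRule α N) → Prop)
    (hLD : ∀ (α N : Type) (S : N) (P : Finset (ContextFreeRule α N)) (w : List α) (n : ℕ)
        (rs : ℕ → ContextFreeRule α N),
        LD α N S P w n rs ↔
          ∃ ss : ℕ → List (Symbol α N),
            ss 0 = [Symbol.nonterminal S] ∧ ss n = w.map Symbol.terminal ∧
            ∀ i < n, rs i ∈ P ∧ ∃ (u : List α) (v : List (Symbol α N)),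
              ss i = u.map Symbol.terminal ++ Symbol.nonterminal (rs i).input :: v ∧
              ss (i + 1) = u.map Symbol.terminal ++ (rs i).output ++ v)
    (α : Type) (L : Language α) :
    (∃ (N : Type) (S : N) (P : Finset (ContextFreeRule α N)),
          (∀ w : List α, w ∈ L ↔ ∃ (n : ℕ) (rs : ℕ → ContextFreeRule α N), LD α N S P w n rs) ∧
          ∀ (w : List α) (n m : ℕ) (rs rs' : ℕ → ContextFreeRule α N),
            LD α N S P w n rs → LD α N S P w m rs' → n = m ∧ ∀ i < n, rs i = rs' i) ↔
    (∃ (N : Type) (S : N) (P : Set (ContextFreeRule α N)), P.Finite ∧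
      (∀ w, w ∈ L ↔ Gen P [.nonterminal S] w) ∧ Una P S) := by
  have key : ∀ (N : Type) (S : N) (P : Finset (ContextFreeRule α N)) (w : List α) (n : ℕ)
      (rs : ℕ → ContextFreeRule α N), LD α N S P w n rs ↔
        Der (P : Set (ContextFreeRule α N)) [Symbol.nonterminal S] w ((List.range n).map rs) := by
    intro N S P w n rs
    rw [hLD]
    constructor
    · rintro ⟨ss, h0, hn, hs⟩
      obtain ⟨w', h1, h2⟩ := seq_der (P := (P : Set (ContextFreeRule α N))) w n [] _ rs ss
        (by simpa using h0) hn (fun i hi => by simpa using hs i hi)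
      have h3 : w = w' := by simpa using h1
      rw [h3]
      exact h2
    · intro h
      obtain ⟨ss, h1, h2, h3⟩ := Der.seq h [] rs (fun i hi => by simp)
      simp only [List.length_map, List.length_range] at h2 h3
      exact ⟨ss, by simpa using h1, by simpa using h2, fun i hi => by simpa using h3 i hi⟩
  constructor
  · rintro ⟨N, S, P, hL, hU⟩
    refine ⟨N, S, (P : Set (ContextFreeRule α N)), P.finite_toSet, ?_, ?_⟩
    · intro w
      rw [hL w]
      constructor
      · rintro ⟨n, rs, h⟩
        obtain ⟨t, h1, h2, _⟩ := ((key N S P w n rs).1 h).tree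
        exact ⟨t, h1, h2⟩
      · rintro ⟨t, h1, h2⟩
        refine ⟨t.rules.length, fun i => t.rules.getD i ⟨S, []⟩, ?_⟩
        rw [key, range_getD]
        have h3 := h1.der [] [] [] Der.nil
        simpa [h2] using h3
    · intro t t' ht ht' hy
      have a1 : LD α N S P t.yield t.rules.length (fun i => t.rules.getD i ⟨S, []⟩) := by
        rw [key, range_getD]
        simpa using ht.der [] [] [] Der.nil
      have a2 : LD α N S P t.yield t'.rules.length (fun i => t'.rules.getD i ⟨S, []⟩) := by
        rw [key, range_getD, hy]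
        simpa using ht'.der [] [] [] Der.nil
      obtain ⟨b1, b2⟩ := hU _ _ _ _ _ a1 a2
      have b3 : t.rules = t'.rules := by
        rw [← range_getD t.rules ⟨S, []⟩, ← range_getD t'.rules ⟨S, []⟩, ← b1]
        exact List.map_congr_left (fun i hi => b2 i (List.mem_range.1 hi))
      exact (ht.inj t' [] [] ht' (by rw [b3])).1
  · rintro ⟨N, S, P, hP, hL, hU⟩
    refine ⟨N, S, hP.toFinset, ?_, ?_⟩
    · intro w
      rw [hL w]
      constructor
      · rintro ⟨t, h1, h2⟩
        refine ⟨t.rules.length, fun i => t.rules.getD i ⟨S, []⟩, ?_⟩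
        rw [key, range_getD, Set.Finite.coe_toFinset]
        have h3 := h1.der [] [] [] Der.nil
        simpa [h2] using h3
      · rintro ⟨n, rs, h⟩
        rw [key, Set.Finite.coe_toFinset] at h
        obtain ⟨t, h1, h2, _⟩ := h.tree
        exact ⟨t, h1, h2⟩
    · intro w n m rs rs' h h'
      rw [key, Set.Finite.coe_toFinset] at h h'
      obtain ⟨t, h1, h2, h3⟩ := h.tree
      obtain ⟨t', h1', h2', h3'⟩ := h'.tree
      have h4 := hU t t' h1 h1' (by rw [h2, h2'])
      subst h4
      rw [h3] at h3'
      have h5 : n = m := by simpa using congrArg List.length h3'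
      subst h5
      refine ⟨rfl, fun i hi => ?_⟩
      exact List.map_inj_left.1 h3' i (List.mem_range.2 hi)

end Pool.Agent.Helper450.NP
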