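import Mathlib
import Pool.Agent.Helper450.NP.Base
import Pool.Agent.Helper450.NP.A1
import Pool.Agent.Helper450.NP.A2
import Pool.Agent.Helper450.NP.A3
import Pool.Agent.Helper450.NP.A4
import Pool.Agent.Helper450.NP.BK
import Pool.Agent.Helper450.NP.C5e
import Pool.Agent.Helper450.NP.CD
import Pool.Agent.Helper450.NP.E1
import Pool.Agent.Helper450.NP.E2a
import Pool.Agent.Helper450.NP.E2b
import Pool.Agent.Helper450.NP.F2
import Pool.Agent.Helper450.NP.G1
import Pool.Agent.Helper450.NP.G2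
import Pool.Agent.Helper450.NP.J1a
import Pool.Agent.Helper450.NP.J1b

/-! The cylinder of unambiguous context-free languages is not principal. -/

set_option autoImplicit false

namespace Pool.Agent.Helper450.NP

theorem inv_hom {A B σ : Type} [Finite A] [Finite B] [Finite σ] (f : A → List B)
    {L : Language B} (h : UCFL L) (M : DFA A σ) :
    UCFL ({w | w.flatMap f ∈ L ∧ w ∈ M.accepts} : Language A) :=
  inv_hom_of (fun M _ h => inter_dfa M h) (fun h => insertion h)
    (fun h hinj => projection h hinj) f h M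

theorem sound {B N X Γ Q : Type} [Finite X]
    (P : Set (ContextFreeRule B N)) (S : N) (hU : Una P S)
    (f : Option (X ⊕ Γ) → List B) (hf : ∀ y, f y ≠ [])
    (A : DFA X Q) (φ0 φ1 : X → List Γ) (E0 E1 : List Γ)
    (h0 : Cert P S A f φ0 E0) (h1 : Cert P S A f φ1 E1) :
    ∃ C : ℕ, ∀ x ∈ A.accepts, out φ0 E0 x = out φ1 E1 x → ∀ p s, x = p ++ s →
      (p.flatMap φ1).length < (p.flatMap φ0).length + C :=
  sound_of P S f hf A φ0 φ1 E0 E1
    (fun al1 ga1 y1 al2 ga2 y2 A1 A2 c1 g1 c2 g2 he h1 h2 h3 =>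
      no_cross P S hU al1 ga1 y1 al2 ga2 y2 A1 A2 c1 g1 c2 g2 he h1 h2 h3)
    (fun φ E h => trace P S f A φ E h) h0 h1

theorem machine : ∃ (Γ X Q : Type) (_ : Finite Γ) (_ : Finite X) (_ : Finite Q) (_ : Primcodable Γ)
    (A : DFA X Q) (φ0 : X → List Γ) (φ1 : ℕ → X → List Γ) (E0 E1 : List Γ) (H : ℕ → Prop),
    (∀ a, φ0 a ≠ []) ∧ (∀ n a, φ1 n a ≠ []) ∧ (∀ a, Computable (fun n => φ1 n a)) ∧
    (¬ REPred (fun n => ¬ H n)) ∧
    (∀ n, (∃ x ∈ A.accepts, out φ0 E0 x = out (φ1 n) E1 x) → H n) ∧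
    (∀ n, H n → ∀ C : ℕ, ∃ x ∈ A.accepts, out φ0 E0 x = out (φ1 n) E1 x ∧ ∃ p s, x = p ++ s ∧
      (p.flatMap φ0).length + C ≤ (p.flatMap (φ1 n)).length) := by
  obtain ⟨S, hS, hp, P, kill, z0, H, h1, h2, h3, h4, h5⟩ := NPM.G1.exists_queue
  refine machine_of_queue P kill z0 H h1 h2 h3 (fun n => ?_) h5
  rw [← h4 n]
  have key : ∀ a b, NPM.Queue.QStep P a b ↔ QStep P a b := by
    intro a b
    constructor
    · intro h
      cases h
      exact QStep.mk _ _ _
    · intro h
      cases h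
      exact NPM.Queue.QStep.mk _ _ _
  have : (NPM.Queue.QStep P : List S → List S → Prop) = QStep P := by
    funext a b
    exact propext (key a b)
  unfold NPM.Queue.QReach
  rw [this]

theorem nonprincipal {B : Type} [Finite B] (L0 : Language B) (h0 : UCFL L0) :
    ∃ (A : Type) (_ : Fintype A) (L : Language A), UCFL L ∧
      ∀ (f : A → List B) (σ : Type) (_ : Fintype σ) (M : DFA A σ),
        ∃ w : List A, ¬ (w ∈ L ↔ (w.flatMap f ∈ L0 ∧ w ∈ M.accepts)) := by
  classical
  by_contra hcon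
  push Not at hcon
  -- make letter images nonempty
  let L1 : Language (Option B) := {w | w.flatMap (fun b => b.toList) ∈ L0 ∧
    w ∈ (⟨fun _ _ => (), (), Set.univ⟩ : DFA (Option B) Unit).accepts}
  have h1 : UCFL L1 := inv_hom (fun b : Option B => b.toList) h0 _
  obtain ⟨N, hN, S, P, hP, hL1, hU⟩ := h1
  have hL1' : ∀ w : List (Option B), w ∈ L1 ↔ w.flatMap (fun b => b.toList) ∈ L0 := by
    intro w
    constructor
    · intro h; exact h.1
    · intro h; exact ⟨h, trivial⟩
  obtain ⟨Γ, X, Q, fΓ, fX, fQ, pΓ, A, φ0, φ1, E0, E1, H, hφ0, hφ1, hc, hH, hs, ho⟩ := machine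
  apply hH
  refine (cert_re (B := Option B) P hP S A φ0 φ1 hc E0 E1).of_eq fun n => ?_
  constructor
  · rintro ⟨f, hf, c0, c1⟩ hn
    obtain ⟨C, hC⟩ := sound P S hU f hf A φ0 (φ1 n) E0 E1 c0 c1
    obtain ⟨x, hx, hxe, p, s, hps, hlen⟩ := ho n hn C
    have := hC x hx hxe p s hps
    omega
  · intro hn
    let φ : Bool → X → List Γ := fun i => if i then φ1 n else φ0
    let E : Bool → List Γ := fun i => if i then E1 else E0
    have hD : Disj A φ E := by
      intro x hx he
      exact hn (hs n ⟨x, hx, he⟩)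
    have hKU := K_ucfl A φ E hD
    have : Fintype (Option (X ⊕ Γ)) := Fintype.ofFinite _
    obtain ⟨g, σ, hσ, M, hM⟩ := hcon (Option (X ⊕ Γ)) this (K A φ E) hKU
    let f : Option (X ⊕ Γ) → List (Option B) := fun y => none :: (g y).map some
    have hfl : ∀ w : List (Option (X ⊕ Γ)),
        (w.flatMap f).flatMap (fun b => b.toList) = w.flatMap g := by
      intro w
      rw [List.flatMap_assoc]
      congr 1
      funext y
      simp only [f, List.flatMap_cons, Option.toList_none, List.nil_append, List.flatMap_map]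
      simp
    have hK : ∀ w, w ∈ K A φ E ↔ (Gen P [.nonterminal S] (w.flatMap f) ∧ w ∈ M.accepts) := by
      intro w
      rw [hM w, ← hL1, hL1', hfl]
    have hφ : ∀ i a, φ i a ≠ [] := by
      intro i a
      cases i
      · exact hφ0 a
      · exact hφ1 n a
    have hf : ∀ y, f y ≠ [] := fun y => by simp [f]
    refine ⟨f, hf, ?_, ?_⟩
    · exact cert_of_chain P S f A (φ false) (E false)
        (chain_exists P S f hf M A φ E hφ hD hK false hP)
    · exact cert_of_chain P S f A (φ true) (E true)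
        (chain_exists P S f hf M A φ E hφ hD hK true hP)


theorem bridge (LD : ∀ (α N : Type), N → Finset (ContextFreeRule α N) → List α → ℕ →
      (ℕ → ContextFreeRule α N) → Prop)
    (hLD : ∀ (α N : Type) (S : N) (P : Finset (ContextFreeRule α N)) (w : List α) (n : ℕ)
        (rs : ℕ → ContextFreeRule α N),
        LD α N S P w n rs ↔
          ∃ ss : ℕ → List (Symbol α N),
            ss 0 = [Symbol.nonterminal S] ∧ ss n = w.map Symbol.terminal ∧
            ∀ i < n, rs i ∈ P ∧ ∃ (u : List α) (v : List (Symbol α N)),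
              ss i = u.map Symbol.terminal ++ Symbol.nonterminal (rs i).input :: v ∧
              ss (i + 1) = u.map Symbol.terminal ++ (rs i).output ++ v)
    (α : Type) (L : Language α) :
    (∃ (N : Type) (S : N) (P : Finset (ContextFreeRule α N)),
          (∀ w : List α, w ∈ L ↔ ∃ (n : ℕ) (rs : ℕ → ContextFreeRule α N), LD α N S P w n rs) ∧
          ∀ (w : List α) (n m : ℕ) (rs rs' : ℕ → ContextFreeRule α N),
            LD α N S P w n rs → LD α N S P w m rs' → n = m ∧ ∀ i < n, rs i = rs' i) ↔ UCFL L := by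
  rw [bridge_core LD hLD α L]
  constructor
  · rintro ⟨N, S, P, hP, hL, hU⟩
    exact ucfl_of_grammar S P hP L hL hU
  · rintro ⟨N, _, S, P, hP, hL, hU⟩
    exact ⟨N, S, P, hP, hL, hU⟩

end Pool.Agent.Helper450.NP
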